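import Pool.Agent.Lib.Pb99418A.Typical

/-!
# An asymmetric contraction and a better upper bound of the diameter

In the words for the two sections the letter `a` gets the weights `α₀`, `α₁`.  In an alternating
word the weight `α` of `a` can be moved to the letters `b, c, d`.  So
`wlen (D + α₀, B - α₁ + α₀, C - α₁ + α₀) g₀ + wlen (D + α₁, B - α₀ + α₁, C - α₀ + α₁) g₁ ≤
wlen (B, C, D) g + α₀ + α₁`, where `g₀`, `g₁` are the sections of `g`.
-/

namespace Pool.Agent.Lib.Pb99418A

open Pool.Agent.Lib.Pb99418 Pool.Agent.Lib.Pb99418U Gen Filter Topology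

/-- The weight of a generator, with a weight of `a`. -/
def wla (α p q r : ℝ) : Gen → ℝ
  | a => α
  | b => p
  | c => q
  | d => r

/-- The weight of a word, with a weight of `a`. -/
def wga (α p q r : ℝ) (s : List Gen) : ℝ := (s.map (wla α p q r)).sum

theorem wga_nil (α p q r : ℝ) : wga α p q r [] = 0 := rfl

theorem wga_cons (α p q r : ℝ) (g : Gen) (s : List Gen) :
    wga α p q r (g :: s) = wla α p q r g + wga α p q r s := by simp [wga]

theorem wga_append (α p q r : ℝ) (s t : List Gen) :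
    wga α p q r (s ++ t) = wga α p q r s + wga α p q r t := by simp [wga]

theorem wla_i (α p q r : ℝ) (z : V3) : wla α p q r z.i = w3 p q r z := by cases z <;> rfl

theorem w3_add (α p q r : ℝ) (z : V3) : w3 (p + α) (q + α) (r + α) z = w3 p q r z + α := by
  cases z <;> rfl

/-- The weight of `a` is moved to the letters `b, c, d`. -/
theorem normal_form' {α p q r : ℝ} (hα : 0 ≤ α) (hp : 0 ≤ p) (hq : 0 ≤ q) (hr : 0 ≤ r)
    (h1 : p ≤ q + r) (h2 : q ≤ p + r) (h3 : r ≤ p + q) (s : List Gen) :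
    ∃ (u e : Bool) (zs : List V3), (∀ w, run s w = run (oa u ++ (P1 zs ++ oa e)) w) ∧
      (u.toNat : ℝ) * α + wgt (p + α) (q + α) (r + α) (P1 zs) ≤
        wga α p q r s + (e.toNat : ℝ) * α ∧ (zs = [] → e = false) := by
  induction s with
  | nil => exact ⟨false, false, [], fun w => rfl, by simp [P1, wga_nil], by simp⟩
  | cons g s ih =>
    obtain ⟨u, e, zs, hrun, hw, he⟩ := ih
    have key : ∀ z : V3, ∃ (u e : Bool) (zs : List V3),
        (∀ w, run (z.i :: s) w = run (oa u ++ (P1 zs ++ oa e)) w) ∧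
        (u.toNat : ℝ) * α + wgt (p + α) (q + α) (r + α) (P1 zs) ≤
          wga α p q r (z.i :: s) + (e.toNat : ℝ) * α ∧ (zs = [] → e = false) := by
      intro z
      have hz : 0 ≤ w3 p q r z := by cases z <;> simp [w3, hp, hq, hr]
      cases u with
      | true =>
        refine ⟨false, e, z :: zs, fun w => ?_, ?_, by simp⟩
        · rw [run_cons, hrun]; rfl
        · rw [wgt_P1_cons, wga_cons, wla_i, w3_add]
          simp only [Bool.toNat_true, Bool.toNat_false, Nat.cast_one, Nat.cast_zero, one_mul,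
            zero_mul] at hw ⊢
          linarith
      | false =>
        cases zs with
        | nil =>
          have he' := he rfl
          subst he'
          refine ⟨false, true, [z], fun w => ?_, ?_, by simp⟩
          · rw [run_cons, hrun]
            show act z.i w = act z.i (act a (act a w))
            rw [act_act]
          · rw [wgt_P1_cons, wga_cons, wla_i, w3_add]
            simp only [Bool.toNat_true, Bool.toNat_false, Nat.cast_one, Nat.cast_zero, one_mul,
              zero_mul] at hw ⊢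
            linarith
        | cons y zs =>
          have hr1 : ∀ w, run (z.i :: s) w =
              run (ol (mulO (some z) y) ++ (a :: (P1 zs ++ oa e))) w := by
            intro w
            rw [run_cons, hrun]
            exact run_ol (some z) y (a :: (P1 zs ++ oa e)) w
          have hy := wgt_P1_cons (p + α) (q + α) (r + α) y zs
          cases hm : mulO (some z) y with
          | some v =>
            refine ⟨false, e, v :: zs, fun w => ?_, ?_, by simp⟩
            · rw [hr1, hm]; rfl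
            · have hv : w3 p q r v ≤ w3 p q r z + w3 p q r y := by
                cases z <;> cases y <;> simp [mulO] at hm <;> subst hm <;>
                  simp only [w3] <;> linarith
              rw [wgt_P1_cons, wga_cons, wla_i, w3_add]
              rw [hy, w3_add] at hw
              simp only [Bool.toNat_false, Nat.cast_zero, zero_mul] at hw ⊢
              linarith
          | none =>
            have hy0 : 0 ≤ w3 p q r y := by cases y <;> simp [w3, hp, hq, hr]
            have hw' : α + wgt (p + α) (q + α) (r + α) (P1 zs) ≤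
                wga α p q r (z.i :: s) + (e.toNat : ℝ) * α := by
              rw [wga_cons, wla_i]
              rw [hy, w3_add] at hw
              simp only [Bool.toNat_false, Nat.cast_zero, zero_mul] at hw
              linarith
            cases zs with
            | nil =>
              cases e with
              | true =>
                refine ⟨false, false, [], fun w => ?_, ?_, by simp⟩
                · rw [hr1, hm]
                  show act a (act a w) = w
                  exact act_act a w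
                · simp only [Bool.toNat_true, Bool.toNat_false, Nat.cast_one, Nat.cast_zero,
                    one_mul, zero_mul] at hw' ⊢
                  linarith
              | false =>
                refine ⟨true, false, [], fun w => ?_, ?_, by simp⟩
                · rw [hr1, hm]; rfl
                · simp only [Bool.toNat_true, Nat.cast_one, one_mul] at hw' ⊢
                  exact hw'
            | cons y' zs =>
              refine ⟨true, e, y' :: zs, fun w => ?_, ?_, by simp⟩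
              · rw [hr1, hm]; rfl
              · simp only [Bool.toNat_true, Nat.cast_one, one_mul] at hw' ⊢
                exact hw'
    cases g with
    | a =>
      refine ⟨!u, e, zs, fun w => ?_, ?_, he⟩
      · rw [run_cons, hrun, run_oa_append]
      · rw [wga_cons]
        have : wla α p q r a = α := rfl
        rw [this]
        cases u <;> simp at hw ⊢ <;> linarith
    | b => exact key V3.b
    | c => exact key V3.c
    | d => exact key V3.d

/-- Total weight of the two sections. -/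
theorem sec_weight (α0 α1 B C D : ℝ) (s : List Gen) :
    wga α0 D (B - α1) (C - α1) (sec false s) + wga α1 D (B - α0) (C - α0) (sec true s) =
      wgt B C D s := by
  induction s with
  | nil => simp [sec, wga, wgt]
  | cons g s ih =>
    rw [wgt_cons, ← ih]
    simp only [sec, wga_append]
    cases g <;> cases par s <;> simp [secG, wga, wla, wl] <;> ring

/-- The weighted length is bounded with the help of a weight of `a`. -/
theorem wlen_le_wga {α p q r : ℝ} (hα : 0 ≤ α) (hp : 0 ≤ p) (hq : 0 ≤ q) (hr : 0 ≤ r)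
    (h1 : p ≤ q + r) (h2 : q ≤ p + r) (h3 : r ≤ p + q) (n : ℕ) (s : List Gen) :
    wlen (p + α) (q + α) (r + α) n (elt s : Gn n) ≤ wga α p q r s + α := by
  obtain ⟨u, e, zs, hrun, hw, -⟩ := normal_form' hα hp hq hr h1 h2 h3 s
  have h4 : (elt (oa u ++ (P1 zs ++ oa e)) : Gn n) = (elt s : Gn n) := by
    rw [elt_eq_iff]; intro w _; exact (hrun w).symm
  refine (wlen_le (by linarith) (by linarith) (by linarith) h4).trans ?_
  rw [wgt_append, wgt_append, wgt_oa, wgt_oa]
  have hu : 0 ≤ (u.toNat : ℝ) * α := by positivity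
  have he : (e.toNat : ℝ) * α ≤ α := by cases e <;> simp [hα]
  linarith

/-- The asymmetric contraction. -/
theorem wlen_asym {α0 α1 B C D : ℝ} (hα0 : 0 ≤ α0) (hα1 : 0 ≤ α1) (hD : 0 ≤ D)
    (hB0 : 0 ≤ B - α0) (hC0 : 0 ≤ C - α0) (hB1 : 0 ≤ B - α1) (hC1 : 0 ≤ C - α1)
    (h0 : D ≤ B + C - 2 * α0) (h1 : D ≤ B + C - 2 * α1) (hBC : B ≤ C + D) (hCB : C ≤ B + D)
    {n : ℕ} (g : Gn (n + 1)) :
    wlen (D + α0) (B - α1 + α0) (C - α1 + α0) n (sct false g) +
      wlen (D + α1) (B - α0 + α1) (C - α0 + α1) n (sct true g) ≤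
      wlen B C D (n + 1) g + (α0 + α1) := by
  have : wlen (D + α0) (B - α1 + α0) (C - α1 + α0) n (sct false g) +
      wlen (D + α1) (B - α0 + α1) (C - α0 + α1) n (sct true g) - (α0 + α1) ≤
      wlen B C D (n + 1) g := by
    apply le_wlen
    rintro s rfl
    rw [sct_elt, sct_elt]
    have a0 := wlen_le_wga (p := D) (q := B - α1) (r := C - α1) hα0 hD hB1 hC1 (by linarith)
      (by linarith) (by linarith) n (sec false s)
    have a1 := wlen_le_wga (p := D) (q := B - α0) (r := C - α0) hα1 hD hB0 hC0 (by linarith)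
      (by linarith) (by linarith) n (sec true s)
    have a2 := sec_weight α0 α1 B C D s
    linarith
  linarith

/-- Elements with prescribed sections, up to a short element. -/
theorem exists_pair (n : ℕ) (h g : Gn n) :
    ∃ (H : Gn (n + 1)) (ρ : Gn n), sct true H = g ∧ sct false H = h * ρ ∧
      ∀ p q r : ℝ, 0 ≤ p → 0 ≤ q → 0 ≤ r → wlen p q r n ρ ≤ 3 * r := by
  obtain ⟨H0, hH0⟩ := exists_lift false n h
  have h1 : sct false ((elt [] : Gn (n + 1)) * H0) = h := by
    rw [hH0, sct_elt]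
    show (elt [] : Gn n) * h = h
    have : (elt [] : Gn n) = 1 := by rw [← prod_gbar]; rfl
    rw [this, one_mul]
  obtain ⟨H1, ρ, hT, hF, hρ⟩ := exists_lift2 n ((sct true ((elt [] : Gn (n + 1)) * H0))⁻¹ * g)
  refine ⟨(elt [] : Gn (n + 1)) * H0 * H1, ρ, ?_, ?_, hρ⟩
  · rw [hT, mul_inv_cancel_left]
  · rw [hF, h1]

theorem elt_rev (n : ℕ) (s : List Gen) : (elt s.reverse : Gn n) = (elt s : Gn n)⁻¹ := by
  have h1 : (elt [] : Gn n) = 1 := by rw [← prod_gbar]; rfl
  rw [eq_inv_iff_mul_eq_one, ← elt_append, ← h1, elt_eq_iff]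
  intro w _
  rw [run_append, run_reverse_run]
  rfl

theorem wlen_inv_le {p q r : ℝ} (hp : 0 ≤ p) (hq : 0 ≤ q) (hr : 0 ≤ r) {n : ℕ} (g : Gn n) :
    wlen p q r n g⁻¹ ≤ wlen p q r n g := by
  apply le_wlen
  rintro s rfl
  rw [← elt_rev]
  refine (wlen_le hp hq hr rfl).trans ?_
  unfold wgt
  rw [List.map_reverse, List.sum_reverse]

theorem wgt_P1_eq (p q r : ℝ) (zs : List V3) (h : p = q) :
    wgt p q r (P1 zs) = p * nm zs + r * nd zs := by
  subst h
  induction zs with
  | nil => simp [nd, nm, P1]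
  | cons z zs ih =>
    rw [wgt_P1_cons, nd_cons, nm_cons, ih]
    push_cast
    cases z <;> simp [w3] <;> ring

/-- Comparison of the weights `1, 1, 1` with the weights `p, p, r`. -/
theorem sharp' {p r : ℝ} (hr : 0 ≤ r) (hrp : r ≤ p) (n : ℕ) (g : Gn n) :
    (p + r) / 2 * wlen 1 1 1 n g ≤ wlen p p r n g + (p - r) := by
  have : (p + r) / 2 * wlen 1 1 1 n g - (p - r) ≤ wlen p p r n g := by
    apply le_wlen
    rintro s rfl
    obtain ⟨u, e, zs, hrun, hw, hnd⟩ := sharp_word (p := p) (q := p) (r := r)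
      (by linarith) (by linarith) hr (by linarith) (by linarith) (by linarith) s
    have h1 : (elt (oa u ++ (P1 zs ++ oa e)) : Gn n) = (elt s : Gn n) := by
      rw [elt_eq_iff]; intro w _; exact (hrun w).symm
    have h2 := wlen_le (p := 1) (q := 1) (r := 1) (by norm_num) (by norm_num) (by norm_num) h1
    rw [wgt_append, wgt_append, wgt_oa, wgt_oa, wgt_one_P1, ← nd_add_nm] at h2
    push_cast at h2
    rw [wgt_P1_eq p p r zs rfl] at hw
    have h4 : (nd zs : ℝ) ≤ nm zs + 2 := by exact_mod_cast hnd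
    have h5 : (p + r) / 2 * wlen 1 1 1 n (elt s : Gn n) ≤ (p + r) / 2 * (nd zs + nm zs) :=
      mul_le_mul_of_nonneg_left (by linarith) (by linarith)
    nlinarith
  linarith

section

variable {x : ℝ} (hx : 2.46 ≤ x) (hx3 : x ^ 3 = x ^ 2 + 2 * x + 4) (hx4 : x ≤ 5 / 2)

include hx hx3 hx4

/-- The key inequality between three weighted diameters. -/
theorem Dw_asym (n : ℕ) :
    Dw (x ^ 2) ((3 * x ^ 2 - 2 * x - 4) / 2) ((x ^ 2 + 2 * x - 4) / 2) n +
      (2 * x + 2) * Dw 1 1 1 n ≤ Dw (x ^ 2) (2 * x) 4 (n + 1) +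
      (3 * ((x ^ 2 + 2 * x - 4) / 2) + (x ^ 2 - 2 * x) + (x ^ 2 - 4) +
        (x ^ 2 + 2 * x - 4) / 2) := by
  obtain ⟨h, hh⟩ := exists_Dw (x ^ 2) ((3 * x ^ 2 - 2 * x - 4) / 2) ((x ^ 2 + 2 * x - 4) / 2) n
  obtain ⟨g, hg⟩ := exists_Dw 1 1 1 n
  obtain ⟨H, ρ, hT, hF, hρ⟩ := exists_pair n h g
  have p0 : 0 ≤ x ^ 2 := by positivity
  have p1 : 0 ≤ (3 * x ^ 2 - 2 * x - 4) / 2 := by nlinarith
  have p2 : 0 ≤ (x ^ 2 + 2 * x - 4) / 2 := by nlinarith
  have a1 := wlen_asym (α0 := x ^ 2 - 4) (α1 := (x ^ 2 + 2 * x - 4) / 2) (B := x ^ 2)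
    (C := 2 * x) (D := 4) (by nlinarith) p2 (by norm_num) (by nlinarith) (by nlinarith)
    (by nlinarith) (by nlinarith) (by nlinarith) (by nlinarith) (by nlinarith) (by nlinarith) H
  have e1 : (4 : ℝ) + (x ^ 2 - 4) = x ^ 2 := by ring
  have e2 : x ^ 2 - (x ^ 2 + 2 * x - 4) / 2 + (x ^ 2 - 4) = (3 * x ^ 2 - 2 * x - 4) / 2 := by
    ring
  have e3 : 2 * x - (x ^ 2 + 2 * x - 4) / 2 + (x ^ 2 - 4) = (x ^ 2 + 2 * x - 4) / 2 := by ring
  have e4 : (4 : ℝ) + (x ^ 2 + 2 * x - 4) / 2 = (x ^ 2 + 2 * x + 4) / 2 := by ring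
  have e5 : x ^ 2 - (x ^ 2 - 4) + (x ^ 2 + 2 * x - 4) / 2 = (x ^ 2 + 2 * x + 4) / 2 := by ring
  have e6 : 2 * x - (x ^ 2 - 4) + (x ^ 2 + 2 * x - 4) / 2 = (6 * x - x ^ 2 + 4) / 2 := by ring
  rw [e1, e2, e3, e4, e5, e6, hT, hF] at a1
  have a2 := wlen_mul p0 p1 p2 (h * ρ) ρ⁻¹
  rw [mul_inv_cancel_right] at a2
  have a3 := wlen_inv_le p0 p1 p2 ρ
  have a4 := hρ _ _ _ p0 p1 p2
  have a5 := sharp' (p := (x ^ 2 + 2 * x + 4) / 2) (r := (6 * x - x ^ 2 + 4) / 2)
    (by nlinarith) (by nlinarith) n g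
  have e7 : ((x ^ 2 + 2 * x + 4) / 2 + (6 * x - x ^ 2 + 4) / 2) / 2 = 2 * x + 2 := by ring
  have e8 : (x ^ 2 + 2 * x + 4) / 2 - (6 * x - x ^ 2 + 4) / 2 = x ^ 2 - 2 * x := by ring
  rw [e7, e8, hg] at a5
  have a6 := wlen_le_Dw (x ^ 2) (2 * x) 4 (n + 1) H
  rw [hh] at a2
  linarith

theorem num_ineq (hxl : 2.467 ≤ x) :
    (x - cw x (x ^ 2) ((3 * x ^ 2 - 2 * x - 4) / 2) ((x ^ 2 + 2 * x - 4) / 2)) / (x + 1) <
      0.4334 := by
  have hx0 : 0 < x := by linarith
  rw [div_lt_iff₀ (by linarith)]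
  have h : x - 0.4334 * (x + 1) <
      cw x (x ^ 2) ((3 * x ^ 2 - 2 * x - 4) / 2) ((x ^ 2 + 2 * x - 4) / 2) := by
    unfold cw
    rw [lt_div_iff₀ (by positivity)]
    have e1 : (x - 0.4334 * (x + 1)) * (x ^ 2 + 2 + 8 / x) * x =
        (x - 0.4334 * (x + 1)) * (x ^ 3 + 2 * x + 8) := by field_simp
    have e2 : (x ^ 2 + (x - 1) / 2 * ((3 * x ^ 2 - 2 * x - 4) / 2) +
        (x ^ 2 + 2 * x - 4) / 2 / x) * x = x ^ 3 + (x - 1) / 2 * ((3 * x ^ 2 - 2 * x - 4) / 2) * x +
        (x ^ 2 + 2 * x - 4) / 2 := by field_simp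
    have h2 : (x - 0.4334 * (x + 1)) * (x ^ 2 + 2 + 8 / x) * x <
        (x ^ 2 + (x - 1) / 2 * ((3 * x ^ 2 - 2 * x - 4) / 2) +
        (x ^ 2 + 2 * x - 4) / 2 / x) * x := by
      rw [e1, e2, hx3]
      nlinarith [mul_nonneg (sub_nonneg.2 hxl) (sub_nonneg.2 hx4),
        mul_nonneg (mul_nonneg (sub_nonneg.2 hxl) (sub_nonneg.2 hx4)) hx0.le]
    exact lt_of_mul_lt_mul_right h2 hx0.le
  linarith

/-- The weighted diameter and the diameter, with the better upper bound. -/
theorem D_lim' :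
    ∃ κ : ℝ, 0 < κ ∧ Tendsto (fun n => Dw (x ^ 2) (2 * x) 4 n / x ^ n) atTop (𝓝 κ) ∧
      (∀ᶠ n in atTop, 0.3775 * κ * x ^ n ≤ D n ∧ (D n : ℝ) ≤ 0.4334 * κ * x ^ n) := by
  have hx0 : 0 < x := by linarith
  have hx1 : 1 < x := by linarith
  obtain ⟨κ, hκ, hl, hev⟩ := D_lim hx hx3 hx4
  refine ⟨κ, hκ, hl, ?_⟩
  have hnum := num_ineq hx hx3 hx4 (root_lower hx0 hx3)
  set p : ℝ := x ^ 2 with hp
  set q : ℝ := (3 * x ^ 2 - 2 * x - 4) / 2 with hq
  set r : ℝ := (x ^ 2 + 2 * x - 4) / 2 with hr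
  set c0 : ℝ := cw x p q r with hc0
  let θ : ℝ := (0.4334 - (x - c0) / (x + 1)) * κ
  have hθ : 0 < θ := by
    show 0 < (0.4334 - (x - c0) / (x + 1)) * κ
    have : 0 < 0.4334 - (x - c0) / (x + 1) := by linarith
    positivity
  have hθe : (x - c0) * κ + θ * (x + 1) = 0.4334 * κ * (x + 1) := by
    show (x - c0) * κ + (0.4334 - (x - c0) / (x + 1)) * κ * (x + 1) = 0.4334 * κ * (x + 1)
    have : (x - c0) / (x + 1) * (x + 1) = x - c0 := by field_simp
    linear_combination (-κ) * this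
  have hTri : Tri p q r := by
    refine ⟨?_, ?_, ?_⟩
    · rw [hp, hq, hr]; nlinarith
    · rw [hp, hq, hr]; nlinarith
    · rw [hp, hq, hr]; nlinarith
  have hθ8 : 0 < θ / 8 := by positivity
  have l1 := good_Dw.lower hx1 (rec_sq x (r / 4) (q / (2 * x)) (p / x ^ 2))
    (cone_w hx hx3 hTri) (lim_w hx hx3 p q r) hl hκ.le hθ8
  have e2 : x ^ 2 * sq x (r / 4) (q / (2 * x)) (p / x ^ 2) 2 = p := by
    show x ^ 2 * (p / x ^ 2) = p; field_simp
  have e1 : 2 * x * sq x (r / 4) (q / (2 * x)) (p / x ^ 2) 1 = q := by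
    show 2 * x * (q / (2 * x)) = q; field_simp
  have e0 : 4 * sq x (r / 4) (q / (2 * x)) (p / x ^ 2) 0 = r := by
    show 4 * (r / 4) = r; ring
  rw [e0, e1, e2] at l1
  have l2 := ((tendsto_add_atTop_iff_nat 1).2 hl).eventually
    (gt_mem_nhds (show κ < κ + θ / 8 by linarith))
  have hxn : Tendsto (fun n : ℕ => x ^ n) atTop atTop := tendsto_pow_atTop_atTop_of_one_lt hx1
  have l3 := hxn.eventually_ge_atTop (((3 * ((x ^ 2 + 2 * x - 4) / 2) + (x ^ 2 - 2 * x) +
    (x ^ 2 - 4) + (x ^ 2 + 2 * x - 4) / 2)) / (θ / 8))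
  have l4 := hxn.eventually_ge_atTop (2 * (x + 1) / (θ / 8))
  filter_upwards [l1, l2, l3, l4, hev] with n a1 a2 a3 a4 a5
  refine ⟨a5.1, ?_⟩
  have hpn : 0 < x ^ n := by positivity
  rw [le_div_iff₀ hpn] at a1
  rw [div_lt_iff₀ (by positivity)] at a2
  rw [div_le_iff₀ hθ8] at a3 a4
  have b1 := Dw_asym hx hx3 hx4 n
  have b2 := (D_close n).2
  have b3 : (κ + θ / 8) * x ^ (n + 1) = κ * x * x ^ n + θ / 8 * (x * x ^ n) := by
    rw [pow_succ]; ring
  have b4 : x * x ^ n ≤ 5 / 2 * x ^ n := mul_le_mul_of_nonneg_right hx4 hpn.le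
  have b5 : θ / 8 * (x * x ^ n) ≤ θ / 8 * (5 / 2 * x ^ n) :=
    mul_le_mul_of_nonneg_left b4 hθ8.le
  have b6 : (2 * x + 2) * Dw 1 1 1 n ≤ ((x - c0) * κ + 9 / 16 * θ) * x ^ n := by
    rw [b3] at a2
    linarith
  have b7 : (x + 1) * (D n : ℝ) ≤ ((x - c0) * κ + 11 / 16 * θ) * x ^ n := by
    have : (x + 1) * (D n : ℝ) ≤ (x + 1) * (2 * Dw 1 1 1 n + 2) :=
      mul_le_mul_of_nonneg_left b2 (by linarith)
    linarith
  have b8 : ((x - c0) * κ + 11 / 16 * θ) * x ^ n ≤ ((x - c0) * κ + θ * (x + 1)) * x ^ n := by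
    refine mul_le_mul_of_nonneg_right ?_ hpn.le
    nlinarith
  rw [hθe] at b8
  have b9 : (x + 1) * (D n : ℝ) ≤ (x + 1) * (0.4334 * κ * x ^ n) := by linarith
  exact le_of_mul_le_mul_left b9 (by linarith)

end

end Pool.Agent.Lib.Pb99418A
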