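import Pool.Agent.Lib.Pb99418U.Growth

/-!
# Contraction of weights

The letters `b, c, d` get real weights and `a` the weight `0`.  If the sections get the weights
`X, Y, V` of `b, c, d` with `Y ≤ X`, `V ≤ X`, `X ≤ Y + V` and the word itself the weights
`Y, V, 2 X - Y - V`, then the two sections of a word can be represented by words whose total
weight is at most the weight of the word plus `3 (Y + V - X)`.
-/

namespace Pool.Agent.Lib.Pb99418A

open Pool.Agent.Lib.Pb99418 Gen

/-- The weight of a generator. -/
def wl (p q r : ℝ) : Gen → ℝ
  | a => 0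
  | b => p
  | c => q
  | d => r

/-- The weight of a word. -/
def wgt (p q r : ℝ) (s : List Gen) : ℝ := (s.map (wl p q r)).sum

@[simp] theorem wgt_nil (p q r : ℝ) : wgt p q r [] = 0 := rfl

theorem wgt_cons (p q r : ℝ) (g : Gen) (s : List Gen) :
    wgt p q r (g :: s) = wl p q r g + wgt p q r s := by simp [wgt]

theorem wgt_append (p q r : ℝ) (s t : List Gen) :
    wgt p q r (s ++ t) = wgt p q r s + wgt p q r t := by simp [wgt]

theorem wl_nonneg {p q r : ℝ} (hp : 0 ≤ p) (hq : 0 ≤ q) (hr : 0 ≤ r) (g : Gen) :
    0 ≤ wl p q r g := by cases g <;> simp [wl, hp, hq, hr]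

theorem wgt_nonneg {p q r : ℝ} (hp : 0 ≤ p) (hq : 0 ≤ q) (hr : 0 ≤ r) (s : List Gen) :
    0 ≤ wgt p q r s := by
  induction s with
  | nil => simp
  | cons g s ih =>
    rw [wgt_cons]
    exact add_nonneg (wl_nonneg hp hq hr g) ih

theorem wgt_add (p q r p' q' r' : ℝ) (s : List Gen) :
    wgt (p + p') (q + q') (r + r') s = wgt p q r s + wgt p' q' r' s := by
  induction s with
  | nil => simp
  | cons g s ih =>
    rw [wgt_cons, wgt_cons, wgt_cons, ih]
    cases g <;> simp [wl] <;> ring

theorem wgt_smul (k p q r : ℝ) (s : List Gen) :
    wgt (k * p) (k * q) (k * r) s = k * wgt p q r s := by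
  induction s with
  | nil => simp
  | cons g s ih =>
    rw [wgt_cons, wgt_cons, ih]
    cases g <;> simp [wl] <;> ring

theorem wgt_mono {p q r p' q' r' : ℝ} (hp : p ≤ p') (hq : q ≤ q') (hr : r ≤ r') (s : List Gen) :
    wgt p q r s ≤ wgt p' q' r' s := by
  induction s with
  | nil => simp
  | cons g s ih =>
    rw [wgt_cons, wgt_cons]
    have : wl p q r g ≤ wl p' q' r' g := by cases g <;> simp [wl, hp, hq, hr]
    linarith

/-- The weight of a letter `b, c, d`. -/
def w3 (X Y V : ℝ) : V3 → ℝ
  | V3.b => X
  | V3.c => Y
  | V3.d => V

theorem wl_i (X Y V : ℝ) (z : V3) : wl X Y V z.i = w3 X Y V z := by cases z <;> rfl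

theorem wl_a (X Y V : ℝ) : wl X Y V a = 0 := rfl

theorem wgt_P1_cons (X Y V : ℝ) (z : V3) (zs : List V3) :
    wgt X Y V (P1 (z :: zs)) = w3 X Y V z + wgt X Y V (P1 zs) := by
  rw [P1, wgt_cons, wgt_cons, wl_i, wl_a, zero_add]

/-! ### Normal form of a word -/

theorem run_oa_append (u : Bool) (s : List Gen) (w : List Bool) :
    act a (run (oa u ++ s) w) = run (oa (!u) ++ s) w := by
  cases u
  · rfl
  · show act a (act a (run s w)) = run s w
    exact act_act a _

/-- Every word is equal to `a^u z₁ a z₂ a ⋯ z_m a a^e`. -/
theorem normal_form {p q r : ℝ} (hp : 0 ≤ p) (hq : 0 ≤ q) (hr : 0 ≤ r) (h1 : p ≤ q + r)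
    (h2 : q ≤ p + r) (h3 : r ≤ p + q) (s : List Gen) :
    ∃ (u e : Bool) (zs : List V3), (∀ w, run s w = run (oa u ++ (P1 zs ++ oa e)) w) ∧
      wgt p q r (P1 zs) ≤ wgt p q r s ∧ (zs = [] → e = false) ∧
      u.toNat + 2 * zs.length ≤ s.length + e.toNat := by
  induction s with
  | nil => exact ⟨false, false, [], fun w => rfl, by simp [P1], by simp, by simp⟩
  | cons g s ih =>
    obtain ⟨u, e, zs, hrun, hw, he, hl⟩ := ih
    have key : ∀ z : V3, ∃ (u e : Bool) (zs : List V3),
        (∀ w, run (z.i :: s) w = run (oa u ++ (P1 zs ++ oa e)) w) ∧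
        wgt p q r (P1 zs) ≤ wgt p q r (z.i :: s) ∧ (zs = [] → e = false) ∧
        u.toNat + 2 * zs.length ≤ (z.i :: s).length + e.toNat := by
      intro z
      have hz : 0 ≤ w3 p q r z := by cases z <;> simp [w3, hp, hq, hr]
      cases u with
      | true =>
        refine ⟨false, e, z :: zs, fun w => ?_, ?_, by simp, ?_⟩
        · rw [run_cons, hrun]; rfl
        · rw [wgt_P1_cons, wgt_cons, wl_i]
          linarith
        · simp only [List.length_cons, Bool.toNat_true, Bool.toNat_false] at hl ⊢
          omega
      | false =>
        cases zs with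
        | nil =>
          have he' := he rfl
          subst he'
          refine ⟨false, true, [z], fun w => ?_, ?_, by simp, ?_⟩
          · rw [run_cons, hrun]
            show act z.i w = act z.i (act a (act a w))
            rw [act_act]
          · rw [wgt_P1_cons, wgt_cons, wl_i]
            linarith
          · simp
        | cons y zs =>
          have hr1 : ∀ w, run (z.i :: s) w =
              run (ol (mulO (some z) y) ++ (a :: (P1 zs ++ oa e))) w := by
            intro w
            rw [run_cons, hrun]
            exact run_ol (some z) y (a :: (P1 zs ++ oa e)) w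
          have hy := wgt_P1_cons p q r y zs
          have hP : 0 ≤ wgt p q r (P1 zs) := wgt_nonneg hp hq hr _
          cases hm : mulO (some z) y with
          | some v =>
            refine ⟨false, e, v :: zs, fun w => ?_, ?_, by simp, ?_⟩
            · rw [hr1, hm]; rfl
            · have hv : w3 p q r v ≤ w3 p q r z + w3 p q r y := by
                cases z <;> cases y <;> simp [mulO] at hm <;> subst hm <;>
                  simp only [w3] <;> linarith
              rw [wgt_P1_cons, wgt_cons, wl_i]
              rw [hy] at hw
              linarith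
            · simp only [List.length_cons] at hl ⊢
              omega
          | none =>
            have hw' : wgt p q r (P1 zs) ≤ wgt p q r (z.i :: s) := by
              have hy0 : 0 ≤ w3 p q r y := by cases y <;> simp [w3, hp, hq, hr]
              rw [wgt_cons, wl_i]
              rw [hy] at hw
              linarith
            cases zs with
            | nil =>
              cases e with
              | true =>
                refine ⟨false, false, [], fun w => ?_, hw', by simp, by simp⟩
                rw [hr1, hm]
                show act a (act a w) = w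
                exact act_act a w
              | false =>
                refine ⟨true, false, [], fun w => ?_, hw', by simp, ?_⟩
                · rw [hr1, hm]; rfl
                · simp
            | cons y' zs =>
              refine ⟨true, e, y' :: zs, fun w => ?_, hw', by simp, ?_⟩
              · rw [hr1, hm]; rfl
              · simp only [List.length_cons, Bool.toNat_true, Bool.toNat_false] at hl ⊢
                omega
    cases g with
    | a =>
      refine ⟨!u, e, zs, fun w => ?_, ?_, he, ?_⟩
      · rw [run_cons, hrun, run_oa_append]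
      · rw [wgt_cons]; simpa [wl] using hw
      · cases u <;> simp at hl ⊢ <;> omega
    | b => exact key V3.b
    | c => exact key V3.c
    | d => exact key V3.d

/-! ### Sections of the alternating words -/

/-- The sections of `P1 zs`. -/
def sc : Bool → List V3 → List Gen
  | _, [] => []
  | true, z :: zs => z.tl.i :: sc false zs
  | false, z :: zs => z.om ++ sc true zs

theorem sec_P1 (zs : List V3) (x : Bool) : sec x (P1 zs) = sc (xor x (par (P1 zs))) zs := by
  induction zs generalizing x with
  | nil => cases x <;> rfl
  | cons z zs ih =>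
    simp only [P1, sec, par_cons, ih]
    cases z <;> cases x <;> cases par (P1 zs) <;> rfl

section merge

variable (X Y V : ℝ)

/-- Potential. -/
def pt : Option V3 → ℝ
  | none => Y + V - X
  | some v => w3 X Y V v

/-- Weights of the sections, with the gain at the letters `d`. -/
def SS : Bool → List V3 → ℝ
  | _, [] => 0
  | true, z :: zs => w3 X Y V z.tl + SS false zs
  | false, z :: zs => (if z = V3.d then -(Y + V - X) else 0) + SS true zs

theorem SS_add (zs : List V3) :
    SS X Y V true zs + SS X Y V false zs = wgt Y V (2 * X - Y - V) (P1 zs) := by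
  induction zs with
  | nil => simp [SS, P1]
  | cons z zs ih =>
    rw [wgt_P1_cons, ← ih]
    simp only [SS]
    cases z <;> simp [w3, V3.tl] <;> ring

variable {X Y V}

theorem pt_mulO (h1 : Y ≤ X) (h2 : V ≤ X) (L : Option V3) (v : V3) :
    pt X Y V (mulO L v) ≤ pt X Y V L + w3 X Y V v - (Y + V - X) := by
  cases L with
  | none => simp [mulO, pt]
  | some u => cases u <;> cases v <;> simp [mulO, pt, w3] <;> linarith

theorem wgt_ol (h4 : X ≤ Y + V) (L : Option V3) : wgt X Y V (ol L) ≤ pt X Y V L := by
  cases L with
  | none => simp [ol, pt]; linarith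
  | some v => rw [ol, wgt_cons, wl_i, wgt_nil, add_zero]; exact le_refl _

theorem merge (h1 : Y ≤ X) (h2 : V ≤ X) (h4 : X ≤ Y + V) (zs : List V3) :
    (∀ L : Option V3, ∃ t : List Gen, (∀ w, run t w = run (ol L ++ sc false zs) w) ∧
      wgt X Y V t ≤ pt X Y V L + SS X Y V false zs + (Y + V - X)) ∧
    (∀ L : Option V3, ∃ t : List Gen, (∀ w, run t w = run (ol L ++ sc true zs) w) ∧
      wgt X Y V t ≤ pt X Y V L + SS X Y V true zs) := by
  induction zs with
  | nil =>
    constructor
    · intro L
      refine ⟨ol L, fun w => by simp [sc], ?_⟩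
      have := wgt_ol h4 L
      simp only [SS]
      linarith
    · intro L
      refine ⟨ol L, fun w => by simp [sc], ?_⟩
      have := wgt_ol h4 L
      simp only [SS]
      linarith
  | cons z zs ih =>
    obtain ⟨ihF, ihT⟩ := ih
    constructor
    · intro L
      by_cases hz : z = V3.d
      · subst hz
        obtain ⟨t, ht, hW⟩ := ihT L
        refine ⟨t, fun w => by rw [ht]; rfl, ?_⟩
        simp only [SS, if_true]
        linarith
      · obtain ⟨t, ht, hW⟩ := ihT none
        have hom : z.om = [a] := by cases z <;> simp_all [V3.om]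
        refine ⟨ol L ++ (a :: t), fun w => ?_, ?_⟩
        · simp only [sc, hom]
          rw [run_append, run_append]
          simp only [run_cons, List.cons_append, List.nil_append]
          rw [ht]
          rfl
        · rw [wgt_append, wgt_cons, wl_a]
          have := wgt_ol h4 L
          have hn : pt X Y V none = Y + V - X := rfl
          rw [hn] at hW
          simp only [SS, if_neg hz]
          linarith
    · intro L
      obtain ⟨t, ht, hW⟩ := ihF (mulO L z.tl)
      refine ⟨t, fun w => ?_, ?_⟩
      · rw [ht]
        exact (run_ol L z.tl (sc false zs) w).symm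
      · have := pt_mulO h1 h2 L z.tl
        simp only [SS]
        linarith

end merge

theorem sec_congr {s t : List Gen} (h : ∀ w, run s w = run t w) (x : Bool) (w : List Bool) :
    run (sec x s) w = run (sec x t) w := by
  have h1 := h (x :: w)
  rw [run_cons_word, run_cons_word] at h1
  exact (List.cons.inj h1).2

theorem sec_oa (x u : Bool) : sec x (oa u) = [] := by cases u <;> rfl

/-- The contraction of weights. -/
theorem contract {X Y V : ℝ} (h1 : Y ≤ X) (h2 : V ≤ X) (h4 : X ≤ Y + V)
    (s : List Gen) :
    ∃ t : Bool → List Gen, (∀ x w, run (t x) w = run (sec x s) w) ∧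
      wgt X Y V (t false) + wgt X Y V (t true) ≤
        wgt Y V (2 * X - Y - V) s + 3 * (Y + V - X) := by
  obtain ⟨u, e, zs, hrun, hw, -, -⟩ := normal_form (p := Y) (q := V) (r := 2 * X - Y - V)
    (by linarith) (by linarith) (by linarith) (by linarith) (by linarith) (by linarith) s
  have hsec : ∀ x w, run (sec x s) w = run (sc (xor (xor x e) (par (P1 zs))) zs) w := by
    intro x w
    rw [sec_congr hrun x w, sec_append, sec_append, sec_oa, sec_oa, sec_P1]
    have : par (oa e) = e := by cases e <;> rfl
    rw [this]
    simp
  obtain ⟨mF, mT⟩ := merge h1 h2 h4 zs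
  obtain ⟨tF, htF, hWF⟩ := mF none
  obtain ⟨tT, htT, hWT⟩ := mT none
  have hsum := SS_add X Y V zs
  refine ⟨fun x => if xor (xor x e) (par (P1 zs)) then tT else tF, fun x w => ?_, ?_⟩
  · rw [hsec]
    beta_reduce
    cases xor (xor x e) (par (P1 zs))
    · exact htF w
    · exact htT w
  · simp only [pt] at hWF hWT
    cases e <;> cases par (P1 zs) <;> simp <;> linarith

end Pool.Agent.Lib.Pb99418A
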