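import Pool.Agent.Lib.Pb99418A.Lln

/-!
# The average length, the typical length and the diameter
-/

namespace Pool.Agent.Lib.Pb99418A

open Pool.Agent.Lib.Pb99418 Pool.Agent.Lib.Pb99418U
open Filter Topology

theorem root_lower {x : ℝ} (hx0 : 0 < x) (hx3 : x ^ 3 = x ^ 2 + 2 * x + 4) : 2.467 ≤ x := by
  by_contra h
  push Not at h
  nlinarith [sq_nonneg (x - 2.467), mul_pos (show (0 : ℝ) < 2.467 - x by linarith) hx0,
    mul_pos (mul_pos (show (0 : ℝ) < 2.467 - x by linarith) hx0) hx0]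

theorem root_upper {x : ℝ} (hx0 : 0 < x) (hx3 : x ^ 3 = x ^ 2 + 2 * x + 4) : x ≤ 5 / 2 := by
  by_contra h
  push Not at h
  nlinarith [sq_nonneg (x - 2.5), mul_pos (show (0 : ℝ) < x - 5 / 2 by linarith) hx0,
    mul_pos (mul_pos (show (0 : ℝ) < x - 5 / 2 by linarith) hx0) hx0]

/-- The constant of the weights `p, q, r`. -/
noncomputable def cw (x p q r : ℝ) : ℝ :=
  (p + (x - 1) / 2 * q + r / x) / (x ^ 2 + 2 + 8 / x)

theorem Mw_le_avg {x : ℝ} (hx2 : 2 ≤ x) (n : ℕ) : Mw (x ^ 2) (2 * x) 4 n ≤ x ^ 2 * avg n := by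
  have hc := card_pos' n
  rw [avg_eq, Mw, ← mul_div_assoc, div_le_div_iff_of_pos_right hc, Finset.mul_sum]
  exact Finset.sum_le_sum fun g _ => wlen_le_len hx2 n g

theorem Dw_le_D {x : ℝ} (hx2 : 2 ≤ x) (n : ℕ) : Dw (x ^ 2) (2 * x) 4 n ≤ x ^ 2 * D n := by
  obtain ⟨g, hg⟩ := exists_Dw (x ^ 2) (2 * x) 4 n
  rw [← hg]
  refine (wlen_le_len hx2 n g).trans ?_
  have : (len n g : ℝ) ≤ D n := by exact_mod_cast (D_isGreatest n).2 ⟨g, rfl⟩
  exact mul_le_mul_of_nonneg_left this (by positivity)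

section

variable {x : ℝ} (hx : 2.46 ≤ x) (hx3 : x ^ 3 = x ^ 2 + 2 * x + 4)

include hx hx3

theorem lim_w (p q r : ℝ) :
    Tendsto (sq x (r / 4) (q / (2 * x)) (p / x ^ 2)) atTop (𝓝 (cw x p q r)) := by
  have hx0 : 0 < x := by linarith
  have h := rec_limit hx hx3 (rec_sq x (r / 4) (q / (2 * x)) (p / x ^ 2))
  have e : (sq x (r / 4) (q / (2 * x)) (p / x ^ 2) 2 +
      (2 / x ^ 2 + 4 / x ^ 3) * sq x (r / 4) (q / (2 * x)) (p / x ^ 2) 1 +
      4 / x ^ 3 * sq x (r / 4) (q / (2 * x)) (p / x ^ 2) 0) / (1 + 2 / x ^ 2 + 8 / x ^ 3) =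
      cw x p q r := by
    show (p / x ^ 2 + (2 / x ^ 2 + 4 / x ^ 3) * (q / (2 * x)) + 4 / x ^ 3 * (r / 4)) /
      (1 + 2 / x ^ 2 + 8 / x ^ 3) = cw x p q r
    unfold cw
    rw [div_eq_div_iff (by positivity) (by positivity)]
    have e0 : (x - 1) / 2 = 1 / x + 2 / x ^ 2 := by field_simp; linarith
    rw [e0]
    field_simp
    ring
  rw [e] at h
  exact h

theorem sq_le {s : ℕ → ℝ} (h : Rec x s) (hc : Cone x s) (j : ℕ) : s j ≤ s 0 + s 1 + s 2 := by
  have hx0 : 0 < x := by linarith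
  have n0 := cone_nonneg hx0 h hc
  have hsum : 1 / x + 2 / x ^ 2 + 4 / x ^ 3 = 1 := by field_simp; linarith
  induction j using Nat.strong_induction_on with
  | _ j ih =>
    match j, ih with
    | 0, _ => linarith [n0 1, n0 2]
    | 1, _ => linarith [n0 0, n0 2]
    | 2, _ => linarith [n0 0, n0 1]
    | j + 3, ih =>
      rw [h j]
      have i0 := ih j (by omega)
      have i1 := ih (j + 1) (by omega)
      have i2 := ih (j + 2) (by omega)
      have b0 : 4 / x ^ 3 * s j ≤ 4 / x ^ 3 * (s 0 + s 1 + s 2) :=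
        mul_le_mul_of_nonneg_left i0 (by positivity)
      have b1 : 2 / x ^ 2 * s (j + 1) ≤ 2 / x ^ 2 * (s 0 + s 1 + s 2) :=
        mul_le_mul_of_nonneg_left i1 (by positivity)
      have b2 : 1 / x * s (j + 2) ≤ 1 / x * (s 0 + s 1 + s 2) :=
        mul_le_mul_of_nonneg_left i2 (by positivity)
      have e : s (j + 2) / x + 2 * s (j + 1) / x ^ 2 + 4 * s j / x ^ 3 =
          1 / x * s (j + 2) + 2 / x ^ 2 * s (j + 1) + 4 / x ^ 3 * s j := by ring
      have e2 : 1 / x * (s 0 + s 1 + s 2) + 2 / x ^ 2 * (s 0 + s 1 + s 2) +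
          4 / x ^ 3 * (s 0 + s 1 + s 2) = s 0 + s 1 + s 2 := by
        rw [← add_mul, ← add_mul, hsum, one_mul]
      linarith

theorem cone_w {p q r : ℝ} (h : Tri p q r) :
    Cone x (sq x (r / 4) (q / (2 * x)) (p / x ^ 2)) := by
  have hx0 : 0 < x := by linarith
  have e1 : 2 * x * (q / (2 * x)) = q := by field_simp
  have e2 : x ^ 2 * (p / x ^ 2) = p := by field_simp
  have e3 : 4 * (r / 4) = r := by ring
  show Tri (x ^ 2 * (p / x ^ 2)) (2 * x * (q / (2 * x))) (4 * (r / 4))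
  rw [e1, e2, e3]
  exact h

/-- The limit of the mean for the weights `x ^ 2, 2 x, 4`. -/
theorem exists_L (hx4 : x ≤ 5 / 2) :
    ∃ L C : ℝ, 0 < L ∧ 0 ≤ C ∧
      Tendsto (fun n => Mw (x ^ 2) (2 * x) 4 n / x ^ n) atTop (𝓝 L) ∧
      ∀ (n : ℕ) (g : Gn n), wlen (x ^ 2) (2 * x) 4 n g ≤ C * x ^ n := by
  have hx0 : 0 < x := by linarith
  have hx1 : 1 < x := by linarith
  obtain ⟨C, hC0, hup⟩ := D_up x hx0 hx3
  obtain ⟨c, hc, hlow⟩ := D_low x hx0 hx3
  have hC : ∀ (n : ℕ) (g : Gn n), wlen (x ^ 2) (2 * x) 4 n g ≤ x ^ 2 * |C| * x ^ n := by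
    intro n g
    refine (wlen_le_Dw _ _ _ n g).trans ((Dw_le_D (by linarith) n).trans ?_)
    rw [mul_assoc]
    refine mul_le_mul_of_nonneg_left ((hup n).trans ?_) (by positivity)
    exact mul_le_mul_of_nonneg_right (le_abs_self C) (by positivity)
  obtain ⟨L, C', hL, -⟩ := good_Mw.limit (x := x) (by linarith) hx3 hx4 (C := x ^ 2 * |C|)
    (fun n => by
      rw [Mw_eq_av, ← av_const n (x ^ 2 * |C| * x ^ n)]
      exact av_mono fun g => hC n g)
  refine ⟨L, x ^ 2 * |C|, ?_, by positivity, hL, hC⟩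
  have h1 : c / 2 - 2 ≤ c / 2 := by linarith
  -- the mean is at least a multiple of the average length
  have h2 : ∀ n : ℕ, 1 ≤ n → c / 2 * x ^ n - 2 ≤ Mw (x ^ 2) (2 * x) 4 n := by
    intro n hn
    have a1 := hlow n hn
    have a2 := D_le_two_avg n
    have a3 := (avg_close n).2
    have a4 : 2 * Mw 1 1 1 n ≤ Mw (x ^ 2) (2 * x) 4 n + 0 := Mw_mono_of fun g => by
      rw [add_zero]
      exact wlen_scale (by norm_num) (by norm_num) (by norm_num) (by norm_num)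
        (by nlinarith) (by linarith) (by norm_num)
    linarith
  have h3 : Tendsto (fun n : ℕ => Mw (x ^ 2) (2 * x) 4 n / x ^ n + 2 / x ^ n) atTop
      (𝓝 (L + 0)) :=
    hL.add ((tendsto_pow_atTop_atTop_of_one_lt hx1).const_div_atTop 2)
  rw [add_zero] at h3
  have h4 : c / 2 ≤ L := by
    refine ge_of_tendsto h3 (eventually_atTop.2 ⟨1, fun n hn => ?_⟩)
    have hp : 0 < x ^ n := by positivity
    rw [← add_div, le_div_iff₀ hp]
    linarith [h2 n hn]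
  linarith

variable {L C : ℝ}

/-- The mean for general weights. -/
theorem mean_w (hx4 : x ≤ 5 / 2)
    (hL : Tendsto (fun n => Mw (x ^ 2) (2 * x) 4 n / x ^ n) atTop (𝓝 L)) (hL0 : 0 ≤ L)
    {p q r : ℝ} (h : Tri p q r) :
    Tendsto (fun n => Mw p q r n / x ^ n) atTop (𝓝 (cw x p q r * L)) := by
  have hx0 : 0 < x := by linarith
  have h1 := mean_limit hx hx3 hx4 hL hL0 (rec_sq x (r / 4) (q / (2 * x)) (p / x ^ 2))
    (cone_w hx hx3 h) (lim_w hx hx3 p q r)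
  have e2 : x ^ 2 * sq x (r / 4) (q / (2 * x)) (p / x ^ 2) 2 = p := by
    show x ^ 2 * (p / x ^ 2) = p; field_simp
  have e1 : 2 * x * sq x (r / 4) (q / (2 * x)) (p / x ^ 2) 1 = q := by
    show 2 * x * (q / (2 * x)) = q; field_simp
  have e0 : 4 * sq x (r / 4) (q / (2 * x)) (p / x ^ 2) 0 = r := by
    show 4 * (r / 4) = r; ring
  rw [e0, e1, e2] at h1
  exact h1

/-- The variance for general weights. -/
theorem variance_w (hx4 : x ≤ 5 / 2)
    (hL : Tendsto (fun n => Mw (x ^ 2) (2 * x) 4 n / x ^ n) atTop (𝓝 L)) (hL0 : 0 ≤ L)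
    (hC0 : 0 ≤ C) (hC : ∀ (n : ℕ) (g : Gn n), wlen (x ^ 2) (2 * x) 4 n g ≤ C * x ^ n)
    {p q r : ℝ} (h : Tri p q r) {ε : ℝ} (hε : 0 < ε) :
    ∀ᶠ n in atTop, av n (fun g => (wlen p q r n g - cw x p q r * L * x ^ n) ^ 2) ≤
      ε * (x ^ n) ^ 2 := by
  have hx0 : 0 < x := by linarith
  have hrec := rec_sq x (r / 4) (q / (2 * x)) (p / x ^ 2)
  have hcone := cone_w hx hx3 h
  have n0 := cone_nonneg hx0 hrec hcone
  have hb := sq_le hx hx3 hrec hcone
  have h1 := variance hx hx3 hx4 hL hL0 hC0 hC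
    (S := sq x (r / 4) (q / (2 * x)) (p / x ^ 2) 0 + sq x (r / 4) (q / (2 * x)) (p / x ^ 2) 1 +
      sq x (r / 4) (q / (2 * x)) (p / x ^ 2) 2 + 1)
    (by linarith [n0 0, n0 1, n0 2]) hrec hcone (fun j => by linarith [hb j])
    (lim_w hx hx3 p q r) hε
  have e2 : x ^ 2 * sq x (r / 4) (q / (2 * x)) (p / x ^ 2) 2 = p := by
    show x ^ 2 * (p / x ^ 2) = p; field_simp
  have e1 : 2 * x * sq x (r / 4) (q / (2 * x)) (p / x ^ 2) 1 = q := by
    show 2 * x * (q / (2 * x)) = q; field_simp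
  have e0 : 4 * sq x (r / 4) (q / (2 * x)) (p / x ^ 2) 0 = r := by
    show 4 * (r / 4) = r; ring
  rw [e0, e1, e2] at h1
  exact h1

omit hx hx3 in
/-- Chebyshev's inequality. -/
theorem cheb {n : ℕ} (f : Gn n → ℝ) {B δ : ℝ} (hδ : 0 < δ)
    (h : av n (fun g => f g ^ 2) ≤ B) :
    ({g : Gn n | δ < |f g|}.ncard : ℝ) * δ ^ 2 ≤ B * Nat.card (Gn n) := by
  classical
  have hc := card_pos' n
  rw [Nat.card_eq_fintype_card]
  rw [av, div_le_iff₀ hc] at h
  refine le_trans ?_ h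
  have e : {g : Gn n | δ < |f g|} = ↑(Finset.univ.filter fun g : Gn n => δ < |f g|) := by
    ext g; simp
  rw [e, Set.ncard_coe_finset, ← nsmul_eq_mul, ← Finset.sum_const]
  refine (Finset.sum_le_sum fun g hg => ?_).trans
    (Finset.sum_le_sum_of_subset_of_nonneg (Finset.filter_subset _ _) fun g _ _ => sq_nonneg _)
  rw [Finset.mem_filter] at hg
  rw [← sq_abs (f g)]
  exact pow_le_pow_left₀ hδ.le hg.2.le 2

/-- For all but a small proportion of the elements the weighted length is close to the mean. -/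
theorem typical_w (hx4 : x ≤ 5 / 2)
    (hL : Tendsto (fun n => Mw (x ^ 2) (2 * x) 4 n / x ^ n) atTop (𝓝 L)) (hL0 : 0 ≤ L)
    (hC0 : 0 ≤ C) (hC : ∀ (n : ℕ) (g : Gn n), wlen (x ^ 2) (2 * x) 4 n g ≤ C * x ^ n)
    {p q r : ℝ} (h : Tri p q r) {δ : ℝ} (hδ : 0 < δ) {η : ℝ} (hη : 0 < η) :
    ∀ᶠ n in atTop, ({g : Gn n | δ * x ^ n < |wlen p q r n g - cw x p q r * L * x ^ n|}.ncard : ℝ) ≤
      η * Nat.card (Gn n) := by
  have hx0 : 0 < x := by linarith
  filter_upwards [variance_w hx hx3 hx4 hL hL0 hC0 hC h (show 0 < η * δ ^ 2 by positivity)]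
    with n hn
  have hp : 0 < x ^ n := by positivity
  have h1 := cheb (fun g => wlen p q r n g - cw x p q r * L * x ^ n)
    (show 0 < δ * x ^ n by positivity) hn
  have h2 : 0 < (δ * x ^ n) ^ 2 := by positivity
  have h3 : η * δ ^ 2 * (x ^ n) ^ 2 * Nat.card (Gn n) =
      η * Nat.card (Gn n) * (δ * x ^ n) ^ 2 := by ring
  rw [h3] at h1
  exact le_of_mul_le_mul_right h1 h2

end

end Pool.Agent.Lib.Pb99418A
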