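import Pool.Agent.Lib.Pb99418A.Sharp

/-!
# Limits

Let `x ^ 3 = x ^ 2 + 2 x + 4`.  The map `T (B, C, D) = ((B + C + D) / 2, B, C)` multiplies the
weights `(x ^ 2, 2 x, 4)` by `x / 2`.  For general weights `(x ^ 2 s₂, 2 x s₁, 4 s₀)` one has
`T ^ k` of them equal to `(x / 2) ^ k (x ^ 2 s_{k+2}, 2 x s_{k+1}, 4 s_k)` with
`s_{k+3} = s_{k+2} / x + 2 s_{k+1} / x ^ 2 + 4 s_k / x ^ 3`, a convergent sequence.
-/

namespace Pool.Agent.Lib.Pb99418A

open Filter Topology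

/-- A linear recursion. -/
noncomputable def sq (x u v w : ℝ) : ℕ → ℝ
  | 0 => u
  | 1 => v
  | 2 => w
  | k + 3 => sq x u v w (k + 2) / x + 2 * sq x u v w (k + 1) / x ^ 2 + 4 * sq x u v w k / x ^ 3

/-- The recursion. -/
def Rec (x : ℝ) (s : ℕ → ℝ) : Prop :=
  ∀ k, s (k + 3) = s (k + 2) / x + 2 * s (k + 1) / x ^ 2 + 4 * s k / x ^ 3

theorem rec_sq (x u v w : ℝ) : Rec x (sq x u v w) := fun k => by simp only [sq]

/-- The triangle inequalities. -/
def Tri (p q r : ℝ) : Prop := p ≤ q + r ∧ q ≤ p + r ∧ r ≤ p + q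

theorem Tri.nonneg {p q r : ℝ} (h : Tri p q r) : 0 ≤ p ∧ 0 ≤ q ∧ 0 ≤ r := by
  obtain ⟨h1, h2, h3⟩ := h
  refine ⟨?_, ?_, ?_⟩ <;> linarith

/-- The cone condition. -/
def Cone (x : ℝ) (s : ℕ → ℝ) : Prop := Tri (x ^ 2 * s 2) (2 * x * s 1) (4 * s 0)

theorem Rec.shift {x : ℝ} {s : ℕ → ℝ} (h : Rec x s) : Rec x (fun k => s (k + 1)) :=
  fun k => h (k + 1)

theorem rec_three {x : ℝ} (hx : 0 < x) {s : ℕ → ℝ} (h : Rec x s) :
    x ^ 3 * s 3 = x ^ 2 * s 2 + 2 * x * s 1 + 4 * s 0 := by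
  rw [h 0]
  field_simp

theorem Cone.shift {x : ℝ} (hx : 0 < x) {s : ℕ → ℝ} (h : Rec x s) (hc : Cone x s) :
    Cone x (fun k => s (k + 1)) := by
  obtain ⟨n1, n2, n3⟩ := Tri.nonneg hc
  obtain ⟨h1, h2, h3⟩ := hc
  have e := rec_three hx h
  refine ⟨?_, ?_, ?_⟩
  · show x ^ 2 * s 3 ≤ 2 * x * s 2 + 4 * s 1
    have : x * (x ^ 2 * s 3) ≤ x * (2 * x * s 2 + 4 * s 1) := by nlinarith
    exact le_of_mul_le_mul_left this hx
  · show 2 * x * s 2 ≤ x ^ 2 * s 3 + 4 * s 1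
    have : x * (2 * x * s 2) ≤ x * (x ^ 2 * s 3 + 4 * s 1) := by nlinarith
    exact le_of_mul_le_mul_left this hx
  · show 4 * s 1 ≤ x ^ 2 * s 3 + 2 * x * s 2
    have : x * (4 * s 1) ≤ x * (x ^ 2 * s 3 + 2 * x * s 2) := by nlinarith
    exact le_of_mul_le_mul_left this hx

theorem cone_nonneg {x : ℝ} (hx : 0 < x) {s : ℕ → ℝ} (h : Rec x s) (hc : Cone x s) (k : ℕ) :
    0 ≤ s k := by
  induction k generalizing s with
  | zero => have := (Tri.nonneg hc).2.2; linarith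
  | succ k ih => exact ih h.shift (Cone.shift hx h hc)

/-- The two properties shared by the mean and the maximum of the weighted lengths. -/
structure Good (F : ℝ → ℝ → ℝ → ℕ → ℝ) : Prop where
  contract : ∀ {X Y V : ℝ}, Y ≤ X → V ≤ X → X ≤ Y + V → ∀ n,
    2 * F X Y V n - 3 * (Y + V - X) ≤ F Y V (2 * X - Y - V) (n + 1)
  scale : ∀ {p q r p' q' r' k : ℝ}, 0 ≤ p → 0 ≤ q → 0 ≤ r → 0 ≤ k → k * p ≤ p' → k * q ≤ q' →
    k * r ≤ r' → ∀ n, k * F p q r n ≤ F p' q' r' n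

theorem good_Mw : Good Mw where
  contract := fun h1 h2 h4 n => Mw_contract h1 h2 h4 n
  scale := fun hp hq hr hk h1 h2 h3 n => by
    have := Mw_mono_of (n := n) (c := 0) fun g => by
      simpa using wlen_scale (g := g) hp hq hr hk h1 h2 h3
    simpa using this

theorem good_Dw : Good Dw where
  contract := fun h1 h2 h4 n => Dw_contract h1 h2 h4 n
  scale := fun {p q r p' q' r' k} hp hq hr hk h1 h2 h3 n => by
    obtain ⟨g, hg⟩ := exists_Dw p q r n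
    rw [← hg]
    exact (wlen_scale hp hq hr hk h1 h2 h3).trans (wlen_le_Dw p' q' r' n g)

section

variable {F : ℝ → ℝ → ℝ → ℕ → ℝ} (hF : Good F) {x : ℝ}

include hF

theorem Good.step (hx : 0 < x) {s : ℕ → ℝ} (h : Rec x s) (hc : Cone x s) :
    ∃ E : ℝ, ∀ n, x * F (x ^ 2 * s 3) (2 * x * s 2) (4 * s 1) n - E ≤
      F (x ^ 2 * s 2) (2 * x * s 1) (4 * s 0) (n + 1) := by
  have e := rec_three hx h
  obtain ⟨k0, k1, k2⟩ := Tri.nonneg (Cone.shift hx h hc)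
  simp only [zero_add, Nat.reduceAdd] at k0 k1 k2
  obtain ⟨h1, h2, h3⟩ := hc
  refine ⟨3 * (x ^ 2 * s 2 + 2 * x * s 1 -
    (x ^ 2 * s 2 + 2 * x * s 1 + 4 * s 0) / 2), fun n => ?_⟩
  have c1 := hF.contract (X := (x ^ 2 * s 2 + 2 * x * s 1 + 4 * s 0) / 2) (Y := x ^ 2 * s 2)
    (V := 2 * x * s 1) (by linarith) (by linarith) (by linarith) n
  have e1 : 2 * ((x ^ 2 * s 2 + 2 * x * s 1 + 4 * s 0) / 2) - x ^ 2 * s 2 - 2 * x * s 1 =
      4 * s 0 := by ring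
  rw [e1] at c1
  have c2 := hF.scale (p := x ^ 2 * s 3) (q := 2 * x * s 2) (r := 4 * s 1)
    (p' := (x ^ 2 * s 2 + 2 * x * s 1 + 4 * s 0) / 2) (q' := x ^ 2 * s 2) (r' := 2 * x * s 1)
    (k := x / 2) k0 k1 k2 (by positivity)
    (by nlinarith) (by nlinarith) (by nlinarith) n
  linarith

theorem Good.iterate (hx : 0 < x) (k : ℕ) : ∀ {s : ℕ → ℝ}, Rec x s → Cone x s → ∀ {μ : ℝ},
    0 ≤ μ → μ ≤ s k → μ ≤ s (k + 1) → μ ≤ s (k + 2) →
    ∃ E : ℝ, ∀ n, x ^ k * μ * F (x ^ 2) (2 * x) 4 n - E ≤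
      F (x ^ 2 * s 2) (2 * x * s 1) (4 * s 0) (n + k) := by
  induction k with
  | zero =>
    intro s h hc μ hμ m0 m1 m2
    refine ⟨0, fun n => ?_⟩
    have := hF.scale (p := x ^ 2) (q := 2 * x) (r := 4) (p' := x ^ 2 * s 2) (q' := 2 * x * s 1)
      (r' := 4 * s 0) (k := μ) (by positivity) (by positivity) (by norm_num) hμ
      (by nlinarith [sq_nonneg x]) (by nlinarith) (by linarith) n
    simpa using this
  | succ k ih =>
    intro s h hc μ hμ m0 m1 m2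
    obtain ⟨E1, hE1⟩ := ih h.shift (Cone.shift hx h hc) hμ m0 m1 m2
    obtain ⟨E2, hE2⟩ := hF.step hx h hc
    refine ⟨x * E1 + E2, fun n => ?_⟩
    have a1 := hE1 n
    have a2 := hE2 (n + k)
    have a3 : x * (x ^ k * μ * F (x ^ 2) (2 * x) 4 n - E1) ≤
        x * F (x ^ 2 * s 3) (2 * x * s 2) (4 * s 1) (n + k) :=
      mul_le_mul_of_nonneg_left a1 hx.le
    have a4 : x ^ (k + 1) * μ * F (x ^ 2) (2 * x) 4 n =
        x * (x ^ k * μ * F (x ^ 2) (2 * x) 4 n) := by rw [pow_succ]; ring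
    rw [a4]
    show _ ≤ F (x ^ 2 * s 2) (2 * x * s 1) (4 * s 0) (n + k + 1)
    linarith

theorem Good.lower (hx : 1 < x) {s : ℕ → ℝ} (h : Rec x s) (hc : Cone x s) {c L : ℝ}
    (hs : Tendsto s atTop (𝓝 c))
    (hL : Tendsto (fun n => F (x ^ 2) (2 * x) 4 n / x ^ n) atTop (𝓝 L)) (hL0 : 0 ≤ L)
    {ε : ℝ} (hε : 0 < ε) :
    ∀ᶠ n in atTop, c * L - ε ≤ F (x ^ 2 * s 2) (2 * x * s 1) (4 * s 0) n / x ^ n := by
  have hx0 : 0 < x := by linarith
  have hδ : 0 < ε / (2 * (L + 1)) := by positivity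
  obtain ⟨k, hk⟩ := eventually_atTop.1 (hs.eventually (lt_mem_nhds
    (show c - ε / (2 * (L + 1)) < c by linarith)))
  let μ : ℝ := max (c - ε / (2 * (L + 1))) 0
  have hμ : 0 ≤ μ := le_max_right _ _
  have hμs : ∀ j, k ≤ j → μ ≤ s j := fun j hj => max_le (hk j hj).le (cone_nonneg hx0 h hc j)
  obtain ⟨E, hE⟩ := hF.iterate hx0 k h hc hμ (hμs k le_rfl) (hμs _ (by omega))
    (hμs _ (by omega))
  have hE' : Tendsto (fun n => μ * (F (x ^ 2) (2 * x) 4 n / x ^ n) - E / x ^ (n + k)) atTop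
      (𝓝 (μ * L - 0)) := by
    refine (hL.const_mul μ).sub ?_
    have h1 : Tendsto (fun n : ℕ => x ^ (n + k)) atTop atTop :=
      (tendsto_add_atTop_iff_nat k).2 (tendsto_pow_atTop_atTop_of_one_lt hx)
    exact h1.const_div_atTop E
  have hμL : c * L - ε / 2 ≤ μ * L := by
    have h1 : (c - ε / (2 * (L + 1))) * L ≤ μ * L :=
      mul_le_mul_of_nonneg_right (le_max_left _ _) hL0
    have h2 : ε / (2 * (L + 1)) * L ≤ ε / 2 := by
      rw [div_mul_eq_mul_div, div_le_div_iff₀ (by positivity) (by norm_num)]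
      nlinarith
    linarith
  obtain ⟨N, hN⟩ := eventually_atTop.1 (hE'.eventually (lt_mem_nhds
    (show μ * L - ε / 2 < μ * L - 0 by linarith)))
  refine eventually_atTop.2 ⟨N + k, fun m hm => ?_⟩
  obtain ⟨n, rfl⟩ : ∃ n, m = n + k := ⟨m - k, by omega⟩
  have h1 := hN n (by omega)
  have h2 := hE n
  have hp : 0 < x ^ (n + k) := by positivity
  have hp' : 0 < x ^ n := by positivity
  have h3 : (x ^ k * μ * F (x ^ 2) (2 * x) 4 n - E) / x ^ (n + k) =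
      μ * (F (x ^ 2) (2 * x) 4 n / x ^ n) - E / x ^ (n + k) := by
    rw [sub_div]
    congr 1
    rw [pow_add]
    field_simp
  have h4 := div_le_div_of_nonneg_right h2 hp.le
  rw [h3] at h4
  linarith

/-- The limit for the weights `(x ^ 2, 2 x, 4)`. -/
theorem Good.limit (hx : 2 ≤ x) (hx3 : x ^ 3 = x ^ 2 + 2 * x + 4) (hx4 : x ≤ 5 / 2) {C : ℝ}
    (hC : ∀ n, F (x ^ 2) (2 * x) 4 n ≤ C * x ^ n) :
    ∃ L C' : ℝ, Tendsto (fun n => F (x ^ 2) (2 * x) 4 n / x ^ n) atTop (𝓝 L) ∧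
      ∀ n, F (x ^ 2) (2 * x) 4 n ≤ L * x ^ n + C' := by
  have hx0 : 0 < x := by linarith
  have hx1 : 0 < x - 1 := by linarith
  obtain ⟨E, hE⟩ := hF.step hx0 (s := fun _ => 1) (fun k => by
      show (1 : ℝ) = 1 / x + 2 * 1 / x ^ 2 + 4 * 1 / x ^ 3
      field_simp
      linarith) ⟨by nlinarith, by nlinarith, by nlinarith⟩
  simp only [mul_one] at hE
  set f : ℕ → ℝ := F (x ^ 2) (2 * x) 4 with hf
  let u : ℕ → ℝ := fun n => (f n - E / (x - 1)) / x ^ n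
  have hmono : Monotone u := by
    refine monotone_nat_of_le_succ fun n => ?_
    show (f n - E / (x - 1)) / x ^ n ≤ (f (n + 1) - E / (x - 1)) / x ^ (n + 1)
    have hp : 0 < x ^ n := by positivity
    have hp' : 0 < x ^ (n + 1) := by positivity
    rw [div_le_div_iff₀ hp hp', pow_succ]
    have h1 := hE n
    have h2 : x * (f n - E / (x - 1)) ≤ f (n + 1) - E / (x - 1) := by
      have : E / (x - 1) * (x - 1) = E := by field_simp
      nlinarith
    nlinarith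
  have hbdd : BddAbove (Set.range u) := by
    refine ⟨C + |E / (x - 1)|, ?_⟩
    rintro y ⟨n, rfl⟩
    show (f n - E / (x - 1)) / x ^ n ≤ _
    have hp : 0 < x ^ n := by positivity
    have hp1 : 1 ≤ x ^ n := one_le_pow₀ (by linarith)
    rw [div_le_iff₀ hp]
    have h1 := hC n
    have h2 : -(E / (x - 1)) ≤ |E / (x - 1)| := neg_le_abs _
    have h3 : |E / (x - 1)| ≤ |E / (x - 1)| * x ^ n := le_mul_of_one_le_right (abs_nonneg _) hp1
    nlinarith
  have hlim := tendsto_atTop_ciSup hmono hbdd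
  refine ⟨⨆ n, u n, E / (x - 1), ?_, fun n => ?_⟩
  · have h1 : Tendsto (fun n : ℕ => E / (x - 1) / x ^ n) atTop (𝓝 0) :=
      (tendsto_pow_atTop_atTop_of_one_lt (by linarith : 1 < x)).const_div_atTop _
    have h2 := hlim.add h1
    rw [add_zero] at h2
    refine h2.congr fun n => ?_
    show (f n - E / (x - 1)) / x ^ n + E / (x - 1) / x ^ n = f n / x ^ n
    rw [← add_div]; congr 1; ring
  · have h1 := le_ciSup hbdd n
    have h2 : (f n - E / (x - 1)) / x ^ n ≤ ⨆ n, u n := h1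
    rw [div_le_iff₀ (by positivity)] at h2
    linarith

end

/-- Convergence of the recursion. -/
theorem rec_limit {x : ℝ} (hx : 2.46 ≤ x) (hx3 : x ^ 3 = x ^ 2 + 2 * x + 4) {s : ℕ → ℝ}
    (h : Rec x s) : Tendsto s atTop
      (𝓝 ((s 2 + (2 / x ^ 2 + 4 / x ^ 3) * s 1 + 4 / x ^ 3 * s 0) /
        (1 + 2 / x ^ 2 + 8 / x ^ 3))) := by
  have hx0 : 0 < x := by linarith
  have hp2 : 2 / x ^ 2 ≤ 0.3305 := by
    rw [div_le_iff₀ (by positivity)]; nlinarith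
  have hx3' : 14.88 ≤ x ^ 3 := by rw [hx3]; nlinarith
  have hp3 : 4 / x ^ 3 ≤ 0.269 := by
    rw [div_le_iff₀ (by positivity)]; linarith
  have hp20 : 0 < 2 / x ^ 2 := by positivity
  have hp30 : 0 < 4 / x ^ 3 := by positivity
  have hsum : 1 / x + 2 / x ^ 2 + 4 / x ^ 3 = 1 := by field_simp; linarith
  have hrec : ∀ k, s (k + 3) = (1 / x) * s (k + 2) + (2 / x ^ 2) * s (k + 1) +
      (4 / x ^ 3) * s k := fun k => by rw [h k]; ring
  have hd : ∀ k, s (k + 3) - s (k + 2) =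
      -((2 / x ^ 2 + 4 / x ^ 3) * (s (k + 2) - s (k + 1))) - (4 / x ^ 3) * (s (k + 1) - s k) := by
    intro k
    rw [hrec]
    have : 1 / x = 1 - 2 / x ^ 2 - 4 / x ^ 3 := by linarith
    rw [this]; ring
  let A : ℝ := |s 1 - s 0| + |s 2 - s 1| * 2
  have hA : 0 ≤ A := by positivity
  have hgeo : ∀ k, |s (k + 1) - s k| ≤ A * 0.95 ^ k ∧ |s (k + 2) - s (k + 1)| ≤ A * 0.95 ^ (k + 1) := by
    intro k
    induction k with
    | zero =>
      have h1 := abs_nonneg (s 1 - s 0)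
      have h2 := abs_nonneg (s 2 - s 1)
      constructor
      · show |s 1 - s 0| ≤ A * 0.95 ^ 0
        rw [pow_zero, mul_one]
        show |s 1 - s 0| ≤ |s 1 - s 0| + |s 2 - s 1| * 2
        linarith
      · show |s 2 - s 1| ≤ A * 0.95 ^ 1
        rw [pow_one]
        show |s 2 - s 1| ≤ (|s 1 - s 0| + |s 2 - s 1| * 2) * 0.95
        linarith
    | succ k ih =>
      obtain ⟨i1, i2⟩ := ih
      refine ⟨i2, ?_⟩
      show |s (k + 3) - s (k + 2)| ≤ A * 0.95 ^ (k + 2)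
      rw [hd k]
      have b1 : |-((2 / x ^ 2 + 4 / x ^ 3) * (s (k + 2) - s (k + 1))) -
          (4 / x ^ 3) * (s (k + 1) - s k)| ≤
          (2 / x ^ 2 + 4 / x ^ 3) * |s (k + 2) - s (k + 1)| + (4 / x ^ 3) * |s (k + 1) - s k| := by
        refine (abs_sub _ _).trans ?_
        rw [abs_neg, abs_mul, abs_mul, abs_of_pos (by linarith : 0 < 2 / x ^ 2 + 4 / x ^ 3),
          abs_of_pos hp30]
      refine b1.trans ?_
      have hB : 0 ≤ A * 0.95 ^ k := by positivity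
      have b2 : (2 / x ^ 2 + 4 / x ^ 3) * |s (k + 2) - s (k + 1)| ≤
          0.5995 * (A * 0.95 ^ (k + 1)) :=
        mul_le_mul (by linarith) i2 (abs_nonneg _) (by norm_num)
      have b3 : (4 / x ^ 3) * |s (k + 1) - s k| ≤ 0.269 * (A * 0.95 ^ k) :=
        mul_le_mul hp3 i1 (abs_nonneg _) (by norm_num)
      have e1 : A * 0.95 ^ (k + 1) = 0.95 * (A * 0.95 ^ k) := by rw [pow_succ]; ring
      have e2 : A * 0.95 ^ (k + 2) = 0.9025 * (A * 0.95 ^ k) := by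
        rw [pow_succ, pow_succ]; ring
      rw [e1] at b2
      rw [e2]
      linarith
  have hcs : CauchySeq s := by
    refine cauchySeq_of_le_geometric (0.95 : ℝ) A (by norm_num) fun n => ?_
    rw [dist_comm, Real.dist_eq]
    exact (hgeo n).1
  obtain ⟨c, hc⟩ := cauchySeq_tendsto_of_complete hcs
  -- the invariant
  have hinv : ∀ k, s (k + 2) + (2 / x ^ 2 + 4 / x ^ 3) * s (k + 1) + 4 / x ^ 3 * s k =
      s 2 + (2 / x ^ 2 + 4 / x ^ 3) * s 1 + 4 / x ^ 3 * s 0 := by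
    intro k
    induction k with
    | zero => rfl
    | succ k ih =>
      rw [← ih]
      show s (k + 3) + (2 / x ^ 2 + 4 / x ^ 3) * s (k + 2) + 4 / x ^ 3 * s (k + 1) = _
      rw [hrec]
      have : 1 / x = 1 - 2 / x ^ 2 - 4 / x ^ 3 := by linarith
      rw [this]; ring
  have hc1 : Tendsto (fun k => s (k + 1)) atTop (𝓝 c) := (tendsto_add_atTop_iff_nat 1).2 hc
  have hc2 : Tendsto (fun k => s (k + 2)) atTop (𝓝 c) := (tendsto_add_atTop_iff_nat 2).2 hc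
  have h1 := (hc2.add (hc1.const_mul (2 / x ^ 2 + 4 / x ^ 3))).add (hc.const_mul (4 / x ^ 3))
  have h2 := tendsto_nhds_unique h1 (tendsto_const_nhds.congr fun k => (hinv k).symm)
  have h3 : c = (s 2 + (2 / x ^ 2 + 4 / x ^ 3) * s 1 + 4 / x ^ 3 * s 0) /
      (1 + 2 / x ^ 2 + 8 / x ^ 3) := by
    rw [eq_div_iff (by positivity), ← h2]
    ring
  rw [← h3]
  exact hc

end Pool.Agent.Lib.Pb99418A
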