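import Pool.Agent.Lib.Pb99418A.Limit

/-!
# The law of large numbers for the weighted lengths

The two sections of a uniform element of `G_{n+1}` are uniform in `G_n` and asymptotically
uncorrelated: for every `h` there is `H` such that the right multiplication by `H` multiplies the
section at `1` by `h` and the section at `0` by an element of the dihedral group `⟨a, d⟩` of
order eight.
-/

namespace Pool.Agent.Lib.Pb99418A

open Pool.Agent.Lib.Pb99418 Pool.Agent.Lib.Pb99418U Gen Filter Topology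

/-! ### Averages -/

/-- The average over `G_n`. -/
noncomputable def av (n : ℕ) (f : Gn n → ℝ) : ℝ := (∑ g : Gn n, f g) / Fintype.card (Gn n)

theorem Mw_eq_av (p q r : ℝ) (n : ℕ) : Mw p q r n = av n (wlen p q r n) := rfl

theorem av_mono {n : ℕ} {f f' : Gn n → ℝ} (h : ∀ g, f g ≤ f' g) : av n f ≤ av n f' :=
  div_le_div_of_nonneg_right (Finset.sum_le_sum fun g _ => h g) (card_pos' n).le

theorem av_add (n : ℕ) (f f' : Gn n → ℝ) : av n (fun g => f g + f' g) = av n f + av n f' := by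
  unfold av
  rw [Finset.sum_add_distrib, add_div]

theorem av_mul_left (n : ℕ) (c : ℝ) (f : Gn n → ℝ) : av n (fun g => c * f g) = c * av n f := by
  unfold av
  rw [← Finset.mul_sum, mul_div_assoc]

theorem av_const (n : ℕ) (c : ℝ) : av n (fun _ => c) = c := by
  have := card_pos' n
  unfold av
  rw [Finset.sum_const, Finset.card_univ, nsmul_eq_mul]
  field_simp

theorem av_sct (x : Bool) (n : ℕ) (f : Gn n → ℝ) :
    av (n + 1) (fun g => f (sct x g)) = av n f := by
  have h := sum_sct x n f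
  have h1 := card_pos' n
  have h2 := card_pos' (n + 1)
  unfold av
  rw [div_eq_div_iff h2.ne' h1.ne']
  linarith

/-! ### The dihedral group `⟨a, d⟩` -/

theorem wlen_mul {p q r : ℝ} (hp : 0 ≤ p) (hq : 0 ≤ q) (hr : 0 ≤ r) {n : ℕ} (g h : Gn n) :
    wlen p q r n (g * h) ≤ wlen p q r n g + wlen p q r n h := by
  apply le_of_forall_pos_le_add
  intro ε hε
  obtain ⟨s, rfl, hs⟩ := exists_near (p := p) (q := q) (r := r) (g := g) (half_pos hε)
  obtain ⟨t, rfl, ht⟩ := exists_near (p := p) (q := q) (r := r) (g := h) (half_pos hε)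
  have h1 := wlen_le hp hq hr (elt_append n s t)
  rw [wgt_append] at h1
  linarith

theorem da_four (w : List Bool) : run (P1 (List.replicate 4 V3.d)) w = w := by
  show run [d, a, d, a, d, a, d, a] w = w
  rcases w with _ | ⟨x, w⟩
  · simp [act_nil]
  · cases x <;> simp [act, act_act]

theorem dihedral (s : List Gen) (hs : ∀ g ∈ s, g = a ∨ g = d) :
    ∃ (u : Bool) (k : ℕ), k < 4 ∧
      ∀ w, run s w = run (oa u ++ P1 (List.replicate k V3.d)) w := by
  induction s with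
  | nil => exact ⟨false, 0, by norm_num, fun w => rfl⟩
  | cons g s ih =>
    obtain ⟨u, k, hk, h⟩ := ih fun g hg => hs g (by simp [hg])
    rcases hs g (by simp) with rfl | rfl
    · exact ⟨!u, k, hk, fun w => by rw [run_cons, h, run_oa_append]⟩
    · cases u with
      | true =>
        by_cases hk3 : k + 1 < 4
        · exact ⟨false, k + 1, hk3, fun w => by rw [run_cons, h]; rfl⟩
        · have hk4 : k = 3 := by omega
          subst hk4
          refine ⟨false, 0, by norm_num, fun w => ?_⟩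
          rw [run_cons, h]
          exact da_four w
      | false =>
        cases k with
        | zero =>
          refine ⟨true, 3, by norm_num, fun w => ?_⟩
          rw [run_cons, h]
          show act d w = act a (run (P1 (List.replicate 3 V3.d)) w)
          have h4 : act d (act a (run (P1 (List.replicate 3 V3.d)) w)) = w := da_four w
          have h5 := congrArg (act d) h4
          rw [act_act] at h5
          exact h5.symm
        | succ j =>
          refine ⟨true, j, by omega, fun w => ?_⟩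
          rw [run_cons, h]
          show act d (act d (act a (run (P1 (List.replicate j V3.d)) w))) = _
          rw [act_act]
          rfl

theorem wgt_replicate (p q r : ℝ) (k : ℕ) :
    wgt p q r (P1 (List.replicate k V3.d)) = k * r := by
  induction k with
  | zero => simp [P1]
  | succ k ih =>
    rw [List.replicate_succ, wgt_P1_cons, ih]
    push_cast
    show r + k * r = _
    ring

theorem sec_psi_false (t : List Gen) : ∀ g ∈ sec false (psi t), g = a ∨ g = d := by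
  induction t with
  | nil => intro g hg; simp [psi, sec] at hg
  | cons x t ih =>
    rw [NiceWAux.psi_cons, sec_append, par_psi]
    intro g hg
    rw [List.mem_append] at hg
    rcases hg with hg | hg
    · cases x <;> simp [psL, sec, secG, par, pg] at hg <;> simp [hg]
    · exact ih g hg

theorem exists_lift2 (n : ℕ) (h : Gn n) :
    ∃ (H : Gn (n + 1)) (ρ : Gn n), (∀ g, sct true (g * H) = sct true g * h) ∧
      (∀ g, sct false (g * H) = sct false g * ρ) ∧
      ∀ p q r : ℝ, 0 ≤ p → 0 ≤ q → 0 ≤ r → wlen p q r n ρ ≤ 3 * r := by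
  obtain ⟨t, rfl⟩ := exists_rep n h
  refine ⟨(elt (psi t) : Gn (n + 1)), (elt (sec false (psi t)) : Gn n), fun g => ?_, fun g => ?_,
    fun p q r hp hq hr => ?_⟩
  · obtain ⟨s, rfl⟩ := exists_rep (n + 1) g
    rw [← elt_append, sct_elt, sct_elt, sec_append, par_psi, elt_append]
    have h3 : xor true false = true := rfl
    rw [h3]
    congr 1
    rw [elt_eq_iff]
    intro w _
    exact sec_psi t w
  · obtain ⟨s, rfl⟩ := exists_rep (n + 1) g
    rw [← elt_append, sct_elt, sct_elt, sec_append, par_psi, elt_append]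
    rfl
  · obtain ⟨u, k, hk, hrun⟩ := dihedral _ (sec_psi_false t)
    have h1 : (elt (oa u ++ P1 (List.replicate k V3.d)) : Gn n) =
        (elt (sec false (psi t)) : Gn n) := by
      rw [elt_eq_iff]; intro w _; exact (hrun w).symm
    refine (wlen_le hp hq hr h1).trans ?_
    rw [wgt_append, wgt_oa, wgt_replicate]
    have : (k : ℝ) ≤ 3 := by exact_mod_cast (by omega : k ≤ 3)
    nlinarith

/-- The sections of a uniform element are almost uncorrelated. -/
theorem av_cross {p q r : ℝ} (hp : 0 ≤ p) (hq : 0 ≤ q) (hr : 0 ≤ r) (n : ℕ) :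
    av (n + 1) (fun g => wlen p q r n (sct false g) * wlen p q r n (sct true g)) ≤
      Mw p q r n * (Mw p q r n + 3 * r) := by
  have hc := card_pos' n
  have hc' := card_pos' (n + 1)
  set f : Gn n → ℝ := wlen p q r n with hf
  have hf0 : ∀ g, 0 ≤ f g := fun g => wlen_nonneg hp hq hr
  have h1 : ∀ h : Gn n, ∑ g : Gn (n + 1), f (sct false g) * f (sct true g) ≤
      ∑ g : Gn (n + 1), (f (sct false g) + 3 * r) * f (sct true g * h) := by
    intro h
    obtain ⟨H, ρ, hT, hF, hρ⟩ := exists_lift2 n h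
    rw [← Equiv.sum_comp (Equiv.mulRight H) fun g => f (sct false g) * f (sct true g)]
    refine Finset.sum_le_sum fun g _ => ?_
    rw [Equiv.coe_mulRight, hT, hF]
    refine mul_le_mul_of_nonneg_right ?_ (hf0 _)
    exact (wlen_mul hp hq hr _ _).trans (by
      have := hρ p q r hp hq hr
      linarith)
  have h2 : (Fintype.card (Gn n) : ℝ) *
      ∑ g : Gn (n + 1), f (sct false g) * f (sct true g) ≤
      (∑ g : Gn (n + 1), (f (sct false g) + 3 * r)) * ∑ k : Gn n, f k := by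
    calc (Fintype.card (Gn n) : ℝ) * ∑ g : Gn (n + 1), f (sct false g) * f (sct true g)
        = ∑ _h : Gn n, ∑ g : Gn (n + 1), f (sct false g) * f (sct true g) := by
          rw [Finset.sum_const, Finset.card_univ, nsmul_eq_mul]
      _ ≤ ∑ h : Gn n, ∑ g : Gn (n + 1), (f (sct false g) + 3 * r) * f (sct true g * h) :=
          Finset.sum_le_sum fun h _ => h1 h
      _ = ∑ g : Gn (n + 1), ∑ h : Gn n, (f (sct false g) + 3 * r) * f (sct true g * h) :=
          Finset.sum_comm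
      _ = ∑ g : Gn (n + 1), (f (sct false g) + 3 * r) * ∑ k : Gn n, f k := by
          refine Finset.sum_congr rfl fun g _ => ?_
          rw [← Finset.mul_sum]
          congr 1
          exact Equiv.sum_comp (Equiv.mulLeft (sct true g)) f
      _ = _ := by rw [Finset.sum_mul]
  have h3 : ∑ g : Gn (n + 1), (f (sct false g) + 3 * r) =
      (Fintype.card (Gn (n + 1)) : ℝ) * (Mw p q r n + 3 * r) := by
    have e1 := sum_sct false n f
    rw [Finset.sum_add_distrib, Finset.sum_const, Finset.card_univ, nsmul_eq_mul, mul_add]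
    congr 1
    unfold Mw
    field_simp
    linarith
  have h4 : ∑ k : Gn n, f k = (Fintype.card (Gn n) : ℝ) * Mw p q r n := by
    unfold Mw; field_simp; rfl
  rw [h3, h4] at h2
  unfold av
  rw [div_le_iff₀ hc']
  have h5 : (Fintype.card (Gn n) : ℝ) *
      ∑ g : Gn (n + 1), f (sct false g) * f (sct true g) ≤ (Fintype.card (Gn n) : ℝ) *
      (Mw p q r n * (Mw p q r n + 3 * r) * Fintype.card (Gn (n + 1))) := by
    linarith
  exact le_of_mul_le_mul_left h5 hc

theorem wlen_upper {p q r p' q' r' S : ℝ} (hp : 0 ≤ p') (hq : 0 ≤ q') (hr : 0 ≤ r') (hS : 0 < S)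
    (h1 : p' ≤ S * p) (h2 : q' ≤ S * q) (h3 : r' ≤ S * r) {n : ℕ} (g : Gn n) :
    wlen p' q' r' n g ≤ S * wlen p q r n g := by
  have : wlen p' q' r' n g / S ≤ wlen p q r n g := by
    apply le_wlen
    intro s hs
    rw [div_le_iff₀ hS, mul_comm, ← wgt_smul]
    exact (wlen_le hp hq hr hs).trans (wgt_mono h1 h2 h3 s)
  rwa [div_le_iff₀ hS, mul_comm] at this

/-! ### The mean -/

section

variable {x : ℝ} (hx : 2.46 ≤ x) (hx3 : x ^ 3 = x ^ 2 + 2 * x + 4) (hx4 : x ≤ 5 / 2)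

include hx hx3 hx4

theorem rec_const_sub {s : ℕ → ℝ} (h : Rec x s) (R : ℝ) : Rec x (fun k => R - s k) := by
  have hx0 : 0 < x := by linarith
  intro k
  have hsum : 1 / x + 2 / x ^ 2 + 4 / x ^ 3 = 1 := by field_simp; linarith
  show R - s (k + 3) = (R - s (k + 2)) / x + 2 * (R - s (k + 1)) / x ^ 2 +
    4 * (R - s k) / x ^ 3
  rw [h k]
  have e : (R - s (k + 2)) / x + 2 * (R - s (k + 1)) / x ^ 2 + 4 * (R - s k) / x ^ 3 =
      R * (1 / x + 2 / x ^ 2 + 4 / x ^ 3) -
      (s (k + 2) / x + 2 * s (k + 1) / x ^ 2 + 4 * s k / x ^ 3) := by ring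
  rw [e, hsum]
  ring

theorem mean_limit {L : ℝ}
    (hL : Tendsto (fun n => Mw (x ^ 2) (2 * x) 4 n / x ^ n) atTop (𝓝 L)) (hL0 : 0 ≤ L)
    {s : ℕ → ℝ} (h : Rec x s) (hc : Cone x s) {c : ℝ} (hs : Tendsto s atTop (𝓝 c)) :
    Tendsto (fun n => Mw (x ^ 2 * s 2) (2 * x * s 1) (4 * s 0) n / x ^ n) atTop
      (𝓝 (c * L)) := by
  have hx0 : 0 < x := by linarith
  have hx1 : 1 < x := by linarith
  obtain ⟨n1, n2, n3⟩ := Tri.nonneg hc
  obtain ⟨c1, c2, c3⟩ := hc
  set p := x ^ 2 * s 2 with hp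
  set q := 2 * x * s 1 with hq
  set r := 4 * s 0 with hr
  let R : ℝ := p + q + r + 1
  have hR : 0 < R := by show 0 < p + q + r + 1; linarith
  have hRp : p + q + r ≤ R := by show p + q + r ≤ p + q + r + 1; linarith
  have e1 : x ^ 2 * (R - s 2) = R * x ^ 2 - p := by rw [hp]; ring
  have e2 : 2 * x * (R - s 1) = R * (2 * x) - q := by rw [hq]; ring
  have e3 : 4 * (R - s 0) = R * 4 - r := by rw [hr]; ring
  have hθ : Cone x (fun k => R - s k) := by
    refine ⟨?_, ?_, ?_⟩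
    · show x ^ 2 * (R - s 2) ≤ 2 * x * (R - s 1) + 4 * (R - s 0)
      rw [e1, e2, e3]
      nlinarith [mul_le_mul_of_nonneg_left (show (1 : ℝ) ≤ 2 * x + 4 - x ^ 2 by nlinarith) hR.le]
    · show 2 * x * (R - s 1) ≤ x ^ 2 * (R - s 2) + 4 * (R - s 0)
      rw [e1, e2, e3]
      nlinarith [mul_le_mul_of_nonneg_left (show (1 : ℝ) ≤ x ^ 2 + 4 - 2 * x by nlinarith) hR.le]
    · show 4 * (R - s 0) ≤ x ^ 2 * (R - s 2) + 2 * x * (R - s 1)
      rw [e1, e2, e3]
      nlinarith [mul_le_mul_of_nonneg_left (show (1 : ℝ) ≤ x ^ 2 + 2 * x - 4 by nlinarith) hR.le]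
  obtain ⟨m1, m2, m3⟩ := Tri.nonneg hθ
  have hθL : Tendsto (fun k => R - s k) atTop (𝓝 (R - c)) := tendsto_const_nhds.sub hs
  rw [Metric.tendsto_atTop]
  intro ε hε
  have hε3 : 0 < ε / 3 := by positivity
  have l1 := good_Mw.lower hx1 h ⟨c1, c2, c3⟩ hs hL hL0 hε3
  have l2 := good_Mw.lower hx1 (rec_const_sub hx hx3 hx4 h R) hθ hθL hL hL0 hε3
  have hδ : 0 < ε / 3 / R := by positivity
  have l3 := hL.eventually (gt_mem_nhds (show L < L + ε / 3 / R by linarith))
  obtain ⟨N, hN⟩ := eventually_atTop.1 ((l1.and l2).and l3)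
  refine ⟨N, fun n hn => ?_⟩
  obtain ⟨⟨a1, a2⟩, a3⟩ := hN n hn
  rw [e1, e2, e3] at a2
  rw [e1] at m1
  rw [e2] at m2
  rw [e3] at m3
  have hadd := Mw_add n1 n2 n3 m1 m2 m3 n
  have hup : Mw (p + (R * x ^ 2 - p)) (q + (R * (2 * x) - q)) (r + (R * 4 - r)) n ≤
      R * Mw (x ^ 2) (2 * x) 4 n := by
    rw [Mw_eq_av, Mw_eq_av, ← av_mul_left]
    refine av_mono fun g => wlen_upper (by linarith) (by linarith) (by linarith) hR
      (by linarith) (by linarith) (by linarith) g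
  have hp0 : 0 < x ^ n := by positivity
  have h1 := div_le_div_of_nonneg_right (hadd.trans hup) hp0.le
  rw [add_div, mul_div_assoc] at h1
  have h2 : R * (Mw (x ^ 2) (2 * x) 4 n / x ^ n) < R * (L + ε / 3 / R) :=
    mul_lt_mul_of_pos_left a3 hR
  have h3 : R * (L + ε / 3 / R) = R * L + ε / 3 := by field_simp
  rw [Real.dist_eq, abs_lt]
  constructor <;> nlinarith

/-- Contraction of the weighted length of an element. -/
theorem elem_step {s : ℕ → ℝ} (h : Rec x s) (hc : Cone x s) :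
    ∃ E : ℝ, 0 ≤ E ∧ ∀ (n : ℕ) (g : Gn (n + 1)),
      x / 2 * (wlen (x ^ 2 * s 3) (2 * x * s 2) (4 * s 1) n (sct false g) +
        wlen (x ^ 2 * s 3) (2 * x * s 2) (4 * s 1) n (sct true g)) ≤
      wlen (x ^ 2 * s 2) (2 * x * s 1) (4 * s 0) (n + 1) g + E := by
  have hx0 : 0 < x := by linarith
  have e := rec_three hx0 h
  obtain ⟨k0, k1, k2⟩ := Tri.nonneg (Cone.shift hx0 h hc)
  simp only [zero_add, Nat.reduceAdd] at k0 k1 k2
  obtain ⟨h1, h2, h3⟩ := hc
  refine ⟨3 * (x ^ 2 * s 2 + 2 * x * s 1 -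
    (x ^ 2 * s 2 + 2 * x * s 1 + 4 * s 0) / 2), by linarith, fun n g => ?_⟩
  have c1 := wlen_contract (X := (x ^ 2 * s 2 + 2 * x * s 1 + 4 * s 0) / 2) (Y := x ^ 2 * s 2)
    (V := 2 * x * s 1) (by linarith) (by linarith) (by linarith) g
  have e1 : 2 * ((x ^ 2 * s 2 + 2 * x * s 1 + 4 * s 0) / 2) - x ^ 2 * s 2 - 2 * x * s 1 =
      4 * s 0 := by ring
  rw [e1] at c1
  have c2 : ∀ k : Gn n, x / 2 * wlen (x ^ 2 * s 3) (2 * x * s 2) (4 * s 1) n k ≤
      wlen ((x ^ 2 * s 2 + 2 * x * s 1 + 4 * s 0) / 2) (x ^ 2 * s 2) (2 * x * s 1) n k :=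
    fun k => wlen_scale k0 k1 k2 (by positivity) (by nlinarith) (by nlinarith) (by nlinarith)
  have := c2 (sct false g)
  have := c2 (sct true g)
  linarith

theorem second_moment {L C S : ℝ}
    (hL : Tendsto (fun n => Mw (x ^ 2) (2 * x) 4 n / x ^ n) atTop (𝓝 L)) (hL0 : 0 ≤ L)
    (hC0 : 0 ≤ C) (hC : ∀ (n : ℕ) (g : Gn n), wlen (x ^ 2) (2 * x) 4 n g ≤ C * x ^ n)
    (hS : 0 < S) {c : ℝ} (k : ℕ) :
    ∀ {s : ℕ → ℝ}, Rec x s → Cone x s → (∀ j, s j ≤ S) → Tendsto s atTop (𝓝 c) →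
      ∀ ε : ℝ, 0 < ε → ∀ᶠ n in atTop,
        av n (fun g => wlen (x ^ 2 * s 2) (2 * x * s 1) (4 * s 0) n g ^ 2) / (x ^ n) ^ 2 ≤
          (c * L) ^ 2 + (1 / 2) ^ k * (S * C) ^ 2 + ε := by
  have hx0 : 0 < x := by linarith
  have hx1 : 1 < x := by linarith
  have hbound : ∀ {s : ℕ → ℝ}, Rec x s → Cone x s → (∀ j, s j ≤ S) → ∀ (n : ℕ) (g : Gn n),
      0 ≤ wlen (x ^ 2 * s 2) (2 * x * s 1) (4 * s 0) n g ∧
      wlen (x ^ 2 * s 2) (2 * x * s 1) (4 * s 0) n g ≤ S * C * x ^ n := by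
    intro s h hc hsS n g
    obtain ⟨n1, n2, n3⟩ := Tri.nonneg hc
    refine ⟨wlen_nonneg n1 n2 n3, ?_⟩
    refine (wlen_upper n1 n2 n3 hS (p := x ^ 2) (q := 2 * x) (r := 4) ?_ ?_ ?_ g).trans ?_
    · have := hsS 2; nlinarith [sq_nonneg x]
    · have := hsS 1; nlinarith
    · have := hsS 0; linarith
    · rw [mul_assoc]
      exact mul_le_mul_of_nonneg_left (hC n g) hS.le
  induction k with
  | zero =>
    intro s h hc hsS hs ε hε
    refine Eventually.of_forall fun n => ?_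
    have hp : 0 < x ^ n := by positivity
    have h1 : av n (fun g => wlen (x ^ 2 * s 2) (2 * x * s 1) (4 * s 0) n g ^ 2) ≤
        (S * C * x ^ n) ^ 2 := by
      rw [← av_const n ((S * C * x ^ n) ^ 2)]
      refine av_mono fun g => ?_
      obtain ⟨b1, b2⟩ := hbound h hc hsS n g
      exact pow_le_pow_left₀ b1 b2 2
    rw [div_le_iff₀ (by positivity)]
    have h2 : (S * C * x ^ n) ^ 2 = (S * C) ^ 2 * (x ^ n) ^ 2 := by ring
    rw [h2] at h1
    have h3 : 0 ≤ ((c * L) ^ 2 + ε) * (x ^ n) ^ 2 := by positivity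
    rw [pow_zero, one_mul]
    nlinarith
  | succ k ih =>
    intro s h hc hsS hs ε hε
    obtain ⟨E, hE0, hE⟩ := elem_step hx hx3 hx4 h hc
    have h' : Rec x (fun k => s (k + 1)) := h.shift
    have hc' := Cone.shift hx0 h hc
    have hs' : Tendsto (fun k => s (k + 1)) atTop (𝓝 c) := (tendsto_add_atTop_iff_nat 1).2 hs
    have ihs := ih h' hc' (fun j => hsS (j + 1)) hs' ε hε
    simp only [zero_add, Nat.reduceAdd] at ihs
    have lm := mean_limit hx hx3 hx4 hL hL0 h hc hs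
    have lm' := mean_limit hx hx3 hx4 hL hL0 h' hc' hs'
    simp only [zero_add, Nat.reduceAdd] at lm'
    have lm1 := (tendsto_add_atTop_iff_nat 1).2 lm
    have hxn : Tendsto (fun n : ℕ => x ^ n) atTop atTop := tendsto_pow_atTop_atTop_of_one_lt hx1
    have hxn1 := (tendsto_add_atTop_iff_nat 1).2 hxn
    have lR : Tendsto (fun n : ℕ =>
        1 / 2 * (Mw (x ^ 2 * s 3) (2 * x * s 2) (4 * s 1) n / x ^ n *
          (Mw (x ^ 2 * s 3) (2 * x * s 2) (4 * s 1) n / x ^ n + 3 * (4 * s 1) / x ^ n)) +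
        2 * (S * C) * (Mw (x ^ 2 * s 2) (2 * x * s 1) (4 * s 0) (n + 1) / x ^ (n + 1) -
          Mw (x ^ 2 * s 3) (2 * x * s 2) (4 * s 1) n / x ^ n + E / x ^ (n + 1))) atTop
        (𝓝 (1 / 2 * (c * L * (c * L + 0)) + 2 * (S * C) * (c * L - c * L + 0))) := by
      refine Tendsto.add ?_ ?_
      · exact (lm'.mul (lm'.add (hxn.const_div_atTop _))).const_mul _
      · exact ((lm1.sub lm').add (hxn1.const_div_atTop _)).const_mul _
    have hlt : 1 / 2 * (c * L * (c * L + 0)) + 2 * (S * C) * (c * L - c * L + 0) <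
        1 / 2 * (c * L) ^ 2 + ε / 2 := by nlinarith
    obtain ⟨N, hN⟩ := eventually_atTop.1 (ihs.and (lR.eventually (gt_mem_nhds hlt)))
    refine eventually_atTop.2 ⟨N + 1, fun m hm => ?_⟩
    obtain ⟨n, rfl⟩ : ∃ n, m = n + 1 := ⟨m - 1, by omega⟩
    obtain ⟨b1, b2⟩ := hN n (by omega)
    have hp : 0 < x ^ n := by positivity
    have hp1 : 0 < x ^ (n + 1) := by positivity
    obtain ⟨k0, k1, k2⟩ := Tri.nonneg hc'
    simp only [zero_add, Nat.reduceAdd] at k0 k1 k2
    set P : Gn (n + 1) → ℝ := wlen (x ^ 2 * s 2) (2 * x * s 1) (4 * s 0) (n + 1) with hP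
    set P' : Gn n → ℝ := wlen (x ^ 2 * s 3) (2 * x * s 2) (4 * s 1) n with hP'
    set B : ℝ := S * C * x ^ (n + 1) with hB
    have hB0 : 0 ≤ B := by positivity
    have hPb : ∀ g, 0 ≤ P g ∧ P g ≤ B := fun g => hbound h hc hsS (n + 1) g
    have hP'b : ∀ g, 0 ≤ P' g ∧ P' g ≤ S * C * x ^ n := by
      intro g
      have := hbound h' hc' (fun j => hsS (j + 1)) n g
      simpa using this
    have hpt : ∀ g, P g ^ 2 ≤ x ^ 2 / 4 * (P' (sct false g) ^ 2 + P' (sct true g) ^ 2 +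
        2 * (P' (sct false g) * P' (sct true g))) +
        2 * B * (P g + (-(x / 2) * P' (sct false g) + -(x / 2) * P' (sct true g)) + E) := by
      intro g
      obtain ⟨p1, p2⟩ := hPb g
      obtain ⟨q1, q2⟩ := hP'b (sct false g)
      obtain ⟨q3, q4⟩ := hP'b (sct true g)
      have hEg := hE n g
      set A : ℝ := x / 2 * (P' (sct false g) + P' (sct true g)) with hA
      have hA0 : 0 ≤ A := by positivity
      have hAB : A ≤ B := by
        rw [hA, hB, pow_succ]
        nlinarith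
      have e1 : x ^ 2 / 4 * (P' (sct false g) ^ 2 + P' (sct true g) ^ 2 +
          2 * (P' (sct false g) * P' (sct true g))) = A ^ 2 := by rw [hA]; ring
      have e2 : P g + (-(x / 2) * P' (sct false g) + -(x / 2) * P' (sct true g)) + E =
          P g - A + E := by rw [hA]; ring
      rw [e1, e2]
      have f1 : 0 ≤ P g - A + E := by linarith
      have f2 : (P g - A) * (P g + A) ≤ (P g - A + E) * (P g + A) :=
        mul_le_mul_of_nonneg_right (by linarith) (by linarith)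
      have f3 : (P g - A + E) * (P g + A) ≤ (P g - A + E) * (2 * B) :=
        mul_le_mul_of_nonneg_left (by linarith) f1
      nlinarith
    have hav := av_mono hpt
    simp only [av_add, av_mul_left, av_const, av_sct] at hav
    have s1 : av (n + 1) (fun g => P' (sct false g) ^ 2) = av n (fun g => P' g ^ 2) :=
      av_sct false n fun g => P' g ^ 2
    have s2 : av (n + 1) (fun g => P' (sct true g) ^ 2) = av n (fun g => P' g ^ 2) :=
      av_sct true n fun g => P' g ^ 2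
    have s3 := av_cross k0 k1 k2 n
    have s4 : av n P' = Mw (x ^ 2 * s 3) (2 * x * s 2) (4 * s 1) n := rfl
    have s5 : av (n + 1) P = Mw (x ^ 2 * s 2) (2 * x * s 1) (4 * s 0) (n + 1) := rfl
    have s6 : av (n + 1) (fun g => P g) =
        Mw (x ^ 2 * s 2) (2 * x * s 1) (4 * s 0) (n + 1) := rfl
    rw [s1, s2] at hav
    simp only [s4, s6] at hav
    set Q' : ℝ := av n (fun g => P' g ^ 2) with hQ'
    set M' : ℝ := Mw (x ^ 2 * s 3) (2 * x * s 2) (4 * s 1) n with hM'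
    set M1 : ℝ := Mw (x ^ 2 * s 2) (2 * x * s 1) (4 * s 0) (n + 1) with hM1
    have hfin : av (n + 1) (fun g => P g ^ 2) ≤ x ^ 2 / 2 * Q' +
        x ^ 2 / 2 * (M' * (M' + 3 * (4 * s 1))) + 2 * B * (M1 - x * M' + E) := by
      have hx2 : 0 ≤ x ^ 2 / 4 := by positivity
      nlinarith [mul_le_mul_of_nonneg_left s3 hx2]
    rw [div_le_iff₀ (by positivity)]
    refine hfin.trans ?_
    have b1' : Q' ≤ ((c * L) ^ 2 + (1 / 2) ^ k * (S * C) ^ 2 + ε) * (x ^ n) ^ 2 := by
      rwa [div_le_iff₀ (by positivity)] at b1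
    have e5 : (1 / 2 * (M' / x ^ n * (M' / x ^ n + 3 * (4 * s 1) / x ^ n)) +
        2 * (S * C) * (M1 / x ^ (n + 1) - M' / x ^ n + E / x ^ (n + 1))) * (x ^ (n + 1)) ^ 2 =
        x ^ 2 / 2 * (M' * (M' + 3 * (4 * s 1))) + 2 * B * (M1 - x * M' + E) := by
      rw [hB, pow_succ]
      field_simp
      try ring
    have b2' := mul_lt_mul_of_pos_right b2 (show 0 < (x ^ (n + 1)) ^ 2 by positivity)
    rw [e5] at b2'
    have e6 : (x ^ (n + 1)) ^ 2 = x ^ 2 * (x ^ n) ^ 2 := by rw [pow_succ]; ring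
    have b3 : x ^ 2 / 2 * Q' ≤ x ^ 2 / 2 *
        (((c * L) ^ 2 + (1 / 2) ^ k * (S * C) ^ 2 + ε) * (x ^ n) ^ 2) :=
      mul_le_mul_of_nonneg_left b1' (by positivity)
    have e7 : ((c * L) ^ 2 + (1 / 2) ^ (k + 1) * (S * C) ^ 2 + ε) * (x ^ (n + 1)) ^ 2 =
        x ^ 2 / 2 * (((c * L) ^ 2 + (1 / 2) ^ k * (S * C) ^ 2 + ε) * (x ^ n) ^ 2) +
        (1 / 2 * (c * L) ^ 2 + ε / 2) * (x ^ (n + 1)) ^ 2 := by
      rw [e6, pow_succ]; ring
    rw [e7]
    linarith

/-- The variance. -/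
theorem variance {L C : ℝ}
    (hL : Tendsto (fun n => Mw (x ^ 2) (2 * x) 4 n / x ^ n) atTop (𝓝 L)) (hL0 : 0 ≤ L)
    (hC0 : 0 ≤ C) (hC : ∀ (n : ℕ) (g : Gn n), wlen (x ^ 2) (2 * x) 4 n g ≤ C * x ^ n)
    {S : ℝ} (hS : 0 < S) {c : ℝ} {s : ℕ → ℝ} (h : Rec x s) (hc : Cone x s)
    (hsS : ∀ j, s j ≤ S) (hs : Tendsto s atTop (𝓝 c)) {ε : ℝ} (hε : 0 < ε) :
    ∀ᶠ n in atTop, av n (fun g => (wlen (x ^ 2 * s 2) (2 * x * s 1) (4 * s 0) n g -
      c * L * x ^ n) ^ 2) ≤ ε * (x ^ n) ^ 2 := by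
  have hx0 : 0 < x := by linarith
  obtain ⟨k, hk⟩ : ∃ k : ℕ, (1 / 2 : ℝ) ^ k * (S * C) ^ 2 < ε / 3 := by
    have ht : Tendsto (fun k : ℕ => (1 / 2 : ℝ) ^ k * (S * C) ^ 2) atTop (𝓝 (0 * (S * C) ^ 2)) :=
      (tendsto_pow_atTop_nhds_zero_of_lt_one (by norm_num) (by norm_num)).mul_const _
    rw [zero_mul] at ht
    exact (ht.eventually (gt_mem_nhds (show (0 : ℝ) < ε / 3 by positivity))).exists
  have h1 := second_moment hx hx3 hx4 hL hL0 hC0 hC hS k h hc hsS hs (ε / 3) (by positivity)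
  have h2 := mean_limit hx hx3 hx4 hL hL0 h hc hs
  have h3 := (h2.const_mul (2 * (c * L))).eventually (lt_mem_nhds
    (show 2 * (c * L) * (c * L) - ε / 3 < 2 * (c * L) * (c * L) by linarith))
  filter_upwards [h1, h3] with n a1 a2
  have hp : 0 < x ^ n := by positivity
  set Q := av n (fun g => wlen (x ^ 2 * s 2) (2 * x * s 1) (4 * s 0) n g ^ 2) with hQ
  set M := Mw (x ^ 2 * s 2) (2 * x * s 1) (4 * s 0) n with hM
  have e1 : av n (fun g => (wlen (x ^ 2 * s 2) (2 * x * s 1) (4 * s 0) n g -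
      c * L * x ^ n) ^ 2) = Q + (-(2 * (c * L * x ^ n)) * M + (c * L * x ^ n) ^ 2) := by
    have : (fun g => (wlen (x ^ 2 * s 2) (2 * x * s 1) (4 * s 0) n g - c * L * x ^ n) ^ 2) =
        (fun g => wlen (x ^ 2 * s 2) (2 * x * s 1) (4 * s 0) n g ^ 2 +
          (-(2 * (c * L * x ^ n)) * wlen (x ^ 2 * s 2) (2 * x * s 1) (4 * s 0) n g +
            (c * L * x ^ n) ^ 2)) := by
      funext g; ring
    rw [this, av_add, av_add, av_mul_left, av_const]
    rfl
  rw [e1]
  rw [div_le_iff₀ (by positivity)] at a1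
  have a3 : (2 * (c * L) * (c * L) - ε / 3) * (x ^ n) ^ 2 ≤
      (2 * (c * L) * (M / x ^ n)) * (x ^ n) ^ 2 :=
    mul_le_mul_of_nonneg_right a2.le (by positivity)
  have e2 : (2 * (c * L) * (M / x ^ n)) * (x ^ n) ^ 2 = 2 * (c * L * x ^ n) * M := by
    field_simp
  rw [e2] at a3
  have a4 : (1 / 2 : ℝ) ^ k * (S * C) ^ 2 * (x ^ n) ^ 2 ≤ ε / 3 * (x ^ n) ^ 2 :=
    mul_le_mul_of_nonneg_right hk.le (by positivity)
  nlinarith

end

end Pool.Agent.Lib.Pb99418A
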