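import Pool.Agent.Lib.Pb99418A.Typical

/-!
# Elements of small length

For every `ε > 0` at most `exp (- c 2 ^ n) |G_n|` elements of `G_n` have length at most
`(m - ε) x ^ n`: the Laplace transform of the weighted length is almost submultiplicative under
the decomposition of an element into its two sections.
-/

namespace Pool.Agent.Lib.Pb99418A

open Pool.Agent.Lib.Pb99418 Pool.Agent.Lib.Pb99418U Gen Filter Topology

theorem wgt_reverse (p q r : ℝ) (s : List Gen) : wgt p q r s.reverse = wgt p q r s := by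
  unfold wgt
  rw [List.map_reverse, List.sum_reverse]

theorem elt_nil (n : ℕ) : (elt [] : Gn n) = 1 := by
  rw [← prod_gbar]; rfl

theorem elt_reverse (n : ℕ) (s : List Gen) : (elt s.reverse : Gn n) = (elt s : Gn n)⁻¹ := by
  rw [eq_inv_iff_mul_eq_one, ← elt_append, ← elt_nil, elt_eq_iff]
  intro w _
  rw [run_append, run_reverse_run]
  rfl

theorem wlen_inv {p q r : ℝ} (hp : 0 ≤ p) (hq : 0 ≤ q) (hr : 0 ≤ r) {n : ℕ} (g : Gn n) :
    wlen p q r n g⁻¹ ≤ wlen p q r n g := by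
  apply le_wlen
  rintro s rfl
  rw [← elt_reverse]
  refine (wlen_le hp hq hr rfl).trans ?_
  rw [wgt_reverse]

/-- The Laplace transform of the weighted length. -/
noncomputable def La (p q r θ : ℝ) (n : ℕ) : ℝ := av n fun g => Real.exp (-θ * wlen p q r n g)

theorem La_nonneg (p q r θ : ℝ) (n : ℕ) : 0 ≤ La p q r θ n := by
  unfold La av
  exact div_nonneg (Finset.sum_nonneg fun g _ => (Real.exp_pos _).le) (card_pos' n).le

theorem exp_cross {p q r : ℝ} (hp : 0 ≤ p) (hq : 0 ≤ q) (hr : 0 ≤ r) (n : ℕ) {θ : ℝ}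
    (hθ : 0 ≤ θ) :
    av (n + 1) (fun g => Real.exp (-θ * wlen p q r n (sct false g)) *
      Real.exp (-θ * wlen p q r n (sct true g))) ≤ Real.exp (3 * r * θ) * La p q r θ n ^ 2 := by
  have hc := card_pos' n
  have hc' := card_pos' (n + 1)
  set f : Gn n → ℝ := fun g => Real.exp (-θ * wlen p q r n g) with hf
  have hf0 : ∀ g, 0 ≤ f g := fun g => (Real.exp_pos _).le
  have h1 : ∀ h : Gn n, ∑ g : Gn (n + 1), f (sct false g) * f (sct true g) ≤
      ∑ g : Gn (n + 1), (Real.exp (3 * r * θ) * f (sct false g)) * f (sct true g * h) := by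
    intro h
    obtain ⟨H, ρ, hT, hF, hρ⟩ := exists_lift2 n h
    rw [← Equiv.sum_comp (Equiv.mulRight H) fun g => f (sct false g) * f (sct true g)]
    refine Finset.sum_le_sum fun g _ => ?_
    rw [Equiv.coe_mulRight, hT, hF]
    refine mul_le_mul_of_nonneg_right ?_ (hf0 _)
    show Real.exp (-θ * wlen p q r n (sct false g * ρ)) ≤
      Real.exp (3 * r * θ) * Real.exp (-θ * wlen p q r n (sct false g))
    rw [← Real.exp_add, Real.exp_le_exp]
    have e1 := wlen_mul hp hq hr (sct false g * ρ) ρ⁻¹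
    rw [mul_inv_cancel_right] at e1
    have e2 := wlen_inv hp hq hr ρ
    have e3 := hρ p q r hp hq hr
    have e4 : wlen p q r n (sct false g) ≤ wlen p q r n (sct false g * ρ) + 3 * r := by linarith
    nlinarith
  have h2 : (Fintype.card (Gn n) : ℝ) *
      ∑ g : Gn (n + 1), f (sct false g) * f (sct true g) ≤
      (∑ g : Gn (n + 1), (Real.exp (3 * r * θ) * f (sct false g))) * ∑ k : Gn n, f k := by
    calc (Fintype.card (Gn n) : ℝ) * ∑ g : Gn (n + 1), f (sct false g) * f (sct true g)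
        = ∑ _h : Gn n, ∑ g : Gn (n + 1), f (sct false g) * f (sct true g) := by
          rw [Finset.sum_const, Finset.card_univ, nsmul_eq_mul]
      _ ≤ ∑ h : Gn n, ∑ g : Gn (n + 1),
            (Real.exp (3 * r * θ) * f (sct false g)) * f (sct true g * h) :=
          Finset.sum_le_sum fun h _ => h1 h
      _ = ∑ g : Gn (n + 1), ∑ h : Gn n,
            (Real.exp (3 * r * θ) * f (sct false g)) * f (sct true g * h) :=
          Finset.sum_comm
      _ = ∑ g : Gn (n + 1), (Real.exp (3 * r * θ) * f (sct false g)) * ∑ k : Gn n, f k := by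
          refine Finset.sum_congr rfl fun g _ => ?_
          rw [← Finset.mul_sum]
          congr 1
          exact Equiv.sum_comp (Equiv.mulLeft (sct true g)) f
      _ = _ := by rw [Finset.sum_mul]
  have h4 : ∑ k : Gn n, f k = (Fintype.card (Gn n) : ℝ) * La p q r θ n := by
    show ∑ k : Gn n, f k = (Fintype.card (Gn n) : ℝ) *
      ((∑ k : Gn n, f k) / (Fintype.card (Gn n) : ℝ))
    field_simp
  have h3 : ∑ g : Gn (n + 1), (Real.exp (3 * r * θ) * f (sct false g)) =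
      (Fintype.card (Gn (n + 1)) : ℝ) * (Real.exp (3 * r * θ) * La p q r θ n) := by
    have e1 := sum_sct false n f
    rw [h4] at e1
    rw [← Finset.mul_sum]
    have e2 : ∑ g : Gn (n + 1), f (sct false g) =
        (Fintype.card (Gn (n + 1)) : ℝ) * La p q r θ n := by
      have : (Fintype.card (Gn n) : ℝ) * ∑ g : Gn (n + 1), f (sct false g) =
          (Fintype.card (Gn n) : ℝ) * ((Fintype.card (Gn (n + 1)) : ℝ) * La p q r θ n) := by
        rw [e1]; ring
      exact mul_left_cancel₀ hc.ne' this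
    rw [e2]; ring
  rw [h3, h4] at h2
  unfold av
  rw [div_le_iff₀ hc']
  have h5 : (Fintype.card (Gn n) : ℝ) *
      ∑ g : Gn (n + 1), f (sct false g) * f (sct true g) ≤ (Fintype.card (Gn n) : ℝ) *
      (Real.exp (3 * r * θ) * La p q r θ n ^ 2 * Fintype.card (Gn (n + 1))) := by
    linarith
  exact le_of_mul_le_mul_left h5 hc

section

variable {x : ℝ} (hx : 2.46 ≤ x) (hx3 : x ^ 3 = x ^ 2 + 2 * x + 4) (hx4 : x ≤ 5 / 2)

include hx hx4

theorem elem_step' {s : ℕ → ℝ} (h : Rec x s) (hc : Cone x s) {S : ℝ} (hS : ∀ j, s j ≤ S)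
    (n : ℕ) (g : Gn (n + 1)) :
    x / 2 * (wlen (x ^ 2 * s 3) (2 * x * s 2) (4 * s 1) n (sct false g) +
        wlen (x ^ 2 * s 3) (2 * x * s 2) (4 * s 1) n (sct true g)) ≤
      wlen (x ^ 2 * s 2) (2 * x * s 1) (4 * s 0) (n + 1) g + 17 * S := by
  have hx0 : 0 < x := by linarith
  have e := rec_three hx0 h
  obtain ⟨k0, k1, k2⟩ := Tri.nonneg (Cone.shift hx0 h hc)
  simp only [zero_add, Nat.reduceAdd] at k0 k1 k2
  have n0 := cone_nonneg hx0 h hc
  obtain ⟨h1, h2, h3⟩ := hc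
  have c1 := wlen_contract (X := (x ^ 2 * s 2 + 2 * x * s 1 + 4 * s 0) / 2) (Y := x ^ 2 * s 2)
    (V := 2 * x * s 1) (by linarith) (by linarith) (by linarith) g
  have e1 : 2 * ((x ^ 2 * s 2 + 2 * x * s 1 + 4 * s 0) / 2) - x ^ 2 * s 2 - 2 * x * s 1 =
      4 * s 0 := by ring
  rw [e1] at c1
  have c2 : ∀ k : Gn n, x / 2 * wlen (x ^ 2 * s 3) (2 * x * s 2) (4 * s 1) n k ≤
      wlen ((x ^ 2 * s 2 + 2 * x * s 1 + 4 * s 0) / 2) (x ^ 2 * s 2) (2 * x * s 1) n k :=
    fun k => wlen_scale k0 k1 k2 (by positivity) (by nlinarith) (by nlinarith) (by nlinarith)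
  have := c2 (sct false g)
  have := c2 (sct true g)
  have hE : 3 * (x ^ 2 * s 2 + 2 * x * s 1 - (x ^ 2 * s 2 + 2 * x * s 1 + 4 * s 0) / 2) ≤
      17 * S := by
    have a1 : x ^ 2 * s 2 ≤ 6.25 * S := by
      have : x ^ 2 * s 2 ≤ 6.25 * s 2 := mul_le_mul_of_nonneg_right (by nlinarith) (n0 2)
      have := hS 2
      linarith
    have a2 : 2 * x * s 1 ≤ 5 * S := by
      have : 2 * x * s 1 ≤ 5 * s 1 := mul_le_mul_of_nonneg_right (by linarith) (n0 1)
      have := hS 1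
      linarith
    have a3 := n0 0
    have a4 : 0 ≤ S := le_trans (n0 0) (hS 0)
    linarith
  linarith

theorem La_step {s : ℕ → ℝ} (h : Rec x s) (hc : Cone x s) {S : ℝ} (hS : ∀ j, s j ≤ S)
    (n : ℕ) {θ : ℝ} (hθ : 0 ≤ θ) :
    La (x ^ 2 * s 2) (2 * x * s 1) (4 * s 0) θ (n + 1) ≤ Real.exp (32 * S * θ) *
      La (x ^ 2 * s 3) (2 * x * s 2) (4 * s 1) (θ * (x / 2)) n ^ 2 := by
  have hx0 : 0 < x := by linarith
  obtain ⟨k0, k1, k2⟩ := Tri.nonneg (Cone.shift hx0 h hc)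
  simp only [zero_add, Nat.reduceAdd] at k0 k1 k2
  have n0 := cone_nonneg hx0 h hc
  have hS0 : 0 ≤ S := le_trans (n0 0) (hS 0)
  have h1 := exp_cross k0 k1 k2 n (θ := θ * (x / 2)) (by positivity)
  have h2 : La (x ^ 2 * s 2) (2 * x * s 1) (4 * s 0) θ (n + 1) ≤ Real.exp (17 * S * θ) *
      av (n + 1) (fun g => Real.exp (-(θ * (x / 2)) *
          wlen (x ^ 2 * s 3) (2 * x * s 2) (4 * s 1) n (sct false g)) *
        Real.exp (-(θ * (x / 2)) *
          wlen (x ^ 2 * s 3) (2 * x * s 2) (4 * s 1) n (sct true g))) := by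
    rw [← av_mul_left]
    refine av_mono fun g => ?_
    rw [← Real.exp_add, ← Real.exp_add, Real.exp_le_exp]
    have := elem_step' hx hx4 h hc hS n g
    nlinarith
  refine h2.trans ?_
  have h3 : Real.exp (32 * S * θ) = Real.exp (17 * S * θ) * Real.exp (15 * S * θ) := by
    rw [← Real.exp_add]; congr 1; ring
  rw [h3, mul_assoc (Real.exp (17 * S * θ))]
  refine mul_le_mul_of_nonneg_left (h1.trans ?_) (Real.exp_pos _).le
  refine mul_le_mul_of_nonneg_right ?_ (by positivity)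
  rw [Real.exp_le_exp]
  have a1 := hS 1
  have a2 := n0 1
  have a3 : x * s 1 ≤ 5 / 2 * S := by
    have : x * s 1 ≤ 5 / 2 * s 1 := mul_le_mul_of_nonneg_right hx4 a2
    linarith
  have a4 : 3 * (4 * s 1) * (θ * (x / 2)) = 6 * θ * (x * s 1) := by ring
  rw [a4]
  have a5 : 6 * θ * (x * s 1) ≤ 6 * θ * (5 / 2 * S) := mul_le_mul_of_nonneg_left a3 (by positivity)
  linarith

theorem La_iter {S : ℝ} (k : ℕ) : ∀ {s : ℕ → ℝ}, Rec x s → Cone x s → (∀ j, s j ≤ S) →
    ∀ (n : ℕ) {θ : ℝ}, 0 ≤ θ →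
    La (x ^ 2 * s 2) (2 * x * s 1) (4 * s 0) θ (n + k) ≤ Real.exp (32 * S * (x ^ k - 1) * θ) *
      La (x ^ 2 * s (k + 2)) (2 * x * s (k + 1)) (4 * s k) (θ * (x / 2) ^ k) n ^ (2 ^ k) := by
  have hx0 : 0 < x := by linarith
  induction k with
  | zero =>
    intro s h hc hS n θ hθ
    simp
  | succ k ih =>
    intro s h hc hS n θ hθ
    have hS0 : 0 ≤ S := le_trans (cone_nonneg hx0 h hc 0) (hS 0)
    have h1 := La_step hx hx4 h hc hS (n + k) hθ
    have h2 := ih h.shift (Cone.shift hx0 h hc) (fun j => hS (j + 1)) n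
      (θ := θ * (x / 2)) (by positivity)
    show La (x ^ 2 * s 2) (2 * x * s 1) (4 * s 0) θ (n + k + 1) ≤ _
    refine h1.trans ?_
    have h3 := pow_le_pow_left₀ (La_nonneg _ _ _ _ _) h2 2
    refine (mul_le_mul_of_nonneg_left h3 (Real.exp_pos _).le).trans ?_
    have e1 : θ * (x / 2) * (x / 2) ^ k = θ * (x / 2) ^ (k + 1) := by rw [pow_succ]; ring
    rw [e1, mul_pow, ← pow_mul, ← pow_succ, ← mul_assoc]
    refine mul_le_mul_of_nonneg_right ?_ (pow_nonneg (La_nonneg _ _ _ _ _) _)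
    rw [← Real.exp_nat_mul, ← Real.exp_add, Real.exp_le_exp]
    have e2 : 32 * S * θ + ((2 : ℕ) : ℝ) * (32 * S * (x ^ k - 1) * (θ * (x / 2))) =
        32 * S * θ * (x ^ (k + 1) - 1) - 32 * S * θ * (x - 2) := by
      rw [pow_succ]; push_cast; ring
    rw [e2]
    have : 0 ≤ 32 * S * θ * (x - 2) := by
      have : 0 ≤ x - 2 := by linarith
      positivity
    linarith

end

theorem La_scale {p q r p' q' r' k θ : ℝ} (hp : 0 ≤ p) (hq : 0 ≤ q) (hr : 0 ≤ r) (hk : 0 ≤ k)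
    (hθ : 0 ≤ θ) (h1 : k * p ≤ p') (h2 : k * q ≤ q') (h3 : k * r ≤ r') (n : ℕ) :
    La p' q' r' θ n ≤ av n fun g => Real.exp (-(k * θ) * wlen p q r n g) := by
  refine av_mono fun g => ?_
  rw [Real.exp_le_exp]
  have := wlen_scale (g := g) hp hq hr hk h1 h2 h3
  nlinarith

/-- Markov's inequality. -/
theorem markov {p q r θ : ℝ} (hθ : 0 ≤ θ) (n : ℕ) (t : ℝ) :
    ({g : Gn n | wlen p q r n g ≤ t}.ncard : ℝ) ≤
      Real.exp (θ * t) * La p q r θ n * Nat.card (Gn n) := by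
  classical
  have hc := card_pos' n
  rw [Nat.card_eq_fintype_card]
  have e0 : La p q r θ n * Fintype.card (Gn n) =
      ∑ g : Gn n, Real.exp (-θ * wlen p q r n g) := by
    show (∑ g : Gn n, Real.exp (-θ * wlen p q r n g)) / _ * _ = _
    field_simp
  rw [mul_assoc, e0, Finset.mul_sum]
  have e : {g : Gn n | wlen p q r n g ≤ t} =
      ↑(Finset.univ.filter fun g : Gn n => wlen p q r n g ≤ t) := by
    ext g; simp
  rw [e, Set.ncard_coe_finset]
  have e1 : ((Finset.univ.filter fun g : Gn n => wlen p q r n g ≤ t).card : ℝ) =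
      ∑ g ∈ Finset.univ.filter fun g : Gn n => wlen p q r n g ≤ t, (1 : ℝ) := by
    rw [Finset.sum_const, nsmul_eq_mul, mul_one]
  rw [e1]
  refine (Finset.sum_le_sum fun g hg => ?_).trans
    (Finset.sum_le_sum_of_subset_of_nonneg (Finset.filter_subset _ _) fun g _ _ => by positivity)
  rw [Finset.mem_filter] at hg
  rw [← Real.exp_add]
  apply Real.one_le_exp
  have := hg.2
  nlinarith

section

variable {x : ℝ} (hx : 2.46 ≤ x) (hx3 : x ^ 3 = x ^ 2 + 2 * x + 4) (hx4 : x ≤ 5 / 2)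

include hx hx3 hx4

variable {L C : ℝ}

theorem cw_lam : cw x (x ^ 2) (2 * x) 4 = 1 := by
  have hx0 : 0 < x := by linarith
  unfold cw
  rw [div_eq_one_iff_eq (by positivity)]
  have : x * (x ^ 2 + (x - 1) / 2 * (2 * x) + 4 / x) = x * (x ^ 2 + 2 + 8 / x) := by
    field_simp
    nlinarith
  exact mul_left_cancel₀ hx0.ne' this

theorem tri_lam : Tri (x ^ 2) (2 * x) 4 := ⟨by nlinarith, by nlinarith, by nlinarith⟩

/-- The Laplace transform for the weights `x ^ 2, 2 x, 4`. -/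
theorem La_lam (hL : Tendsto (fun n => Mw (x ^ 2) (2 * x) 4 n / x ^ n) atTop (𝓝 L))
    (hL0 : 0 ≤ L) (hC0 : 0 ≤ C)
    (hC : ∀ (n : ℕ) (g : Gn n), wlen (x ^ 2) (2 * x) 4 n g ≤ C * x ^ n) {τ : ℝ} (hτ : 0 ≤ τ)
    {η : ℝ} (hη : 0 < η) :
    ∀ᶠ n in atTop, av n (fun g => Real.exp (-(τ / x ^ n) * wlen (x ^ 2) (2 * x) 4 n g)) ≤
      Real.exp (-(τ * (L - η))) + η := by
  classical
  have hx0 : 0 < x := by linarith
  filter_upwards [typical_w hx hx3 hx4 hL hL0 hC0 hC (tri_lam hx hx3 hx4) hη hη] with n hn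
  have hp : 0 < x ^ n := by positivity
  have hc := card_pos' n
  rw [cw_lam hx hx3 hx4, one_mul, Nat.card_eq_fintype_card] at hn
  have e : {g : Gn n | η * x ^ n < |wlen (x ^ 2) (2 * x) 4 n g - L * x ^ n|} =
      ↑(Finset.univ.filter fun g : Gn n =>
        η * x ^ n < |wlen (x ^ 2) (2 * x) 4 n g - L * x ^ n|) := by
    ext g; simp
  rw [e, Set.ncard_coe_finset] at hn
  unfold av
  rw [div_le_iff₀ hc]
  have h1 : ∀ g : Gn n, Real.exp (-(τ / x ^ n) * wlen (x ^ 2) (2 * x) 4 n g) ≤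
      Real.exp (-(τ * (L - η))) +
        if η * x ^ n < |wlen (x ^ 2) (2 * x) 4 n g - L * x ^ n| then 1 else 0 := by
    intro g
    have hw : 0 ≤ wlen (x ^ 2) (2 * x) 4 n g :=
      wlen_nonneg (by positivity) (by positivity) (by norm_num)
    split_ifs with hg
    · have h2 : Real.exp (-(τ / x ^ n) * wlen (x ^ 2) (2 * x) 4 n g) ≤ 1 := by
        rw [← Real.exp_zero, Real.exp_le_exp]
        have : 0 ≤ τ / x ^ n * wlen (x ^ 2) (2 * x) 4 n g := by positivity
        linarith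
      have h3 := Real.exp_pos (-(τ * (L - η)))
      linarith
    · rw [add_zero, Real.exp_le_exp]
      rw [not_lt, abs_le] at hg
      have h2 : (L - η) * x ^ n ≤ wlen (x ^ 2) (2 * x) 4 n g := by linarith
      have h3 : τ / x ^ n * ((L - η) * x ^ n) ≤ τ / x ^ n * wlen (x ^ 2) (2 * x) 4 n g :=
        mul_le_mul_of_nonneg_left h2 (by positivity)
      have h4 : τ / x ^ n * ((L - η) * x ^ n) = τ * (L - η) := by field_simp
      linarith
  refine (Finset.sum_le_sum fun g _ => h1 g).trans ?_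
  rw [Finset.sum_add_distrib, Finset.sum_const, Finset.card_univ, nsmul_eq_mul,
    Finset.sum_ite, Finset.sum_const_zero, add_zero, Finset.sum_const, nsmul_eq_mul, mul_one]
  linarith

/-- Few elements have a small weighted length. -/
theorem lower_w (hL : Tendsto (fun n => Mw (x ^ 2) (2 * x) 4 n / x ^ n) atTop (𝓝 L))
    (hL0 : 0 ≤ L) (hC0 : 0 ≤ C)
    (hC : ∀ (n : ℕ) (g : Gn n), wlen (x ^ 2) (2 * x) 4 n g ≤ C * x ^ n)
    {s : ℕ → ℝ} (h : Rec x s) (hc : Cone x s) {c : ℝ} (hs : Tendsto s atTop (𝓝 c))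
    {ε : ℝ} (hε : 0 < ε) :
    ∃ b : ℝ, 0 < b ∧ ∀ᶠ n in atTop,
      ({g : Gn n | wlen (x ^ 2 * s 2) (2 * x * s 1) (4 * s 0) n g ≤
        (c * L - ε) * x ^ n}.ncard : ℝ) ≤ Real.exp (-(b * 2 ^ n)) * Nat.card (Gn n) := by
  have hx0 : 0 < x := by linarith
  have hx1 : 1 < x := by linarith
  have n0 := cone_nonneg hx0 h hc
  set S : ℝ := s 0 + s 1 + s 2 with hSdef
  have hS : ∀ j, s j ≤ S := sq_le hx hx3 h hc
  have hS0 : 0 ≤ S := le_trans (n0 0) (hS 0)
  have hδ : 0 < ε / (4 * (L + 1)) := by positivity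
  obtain ⟨k0, hk0⟩ := eventually_atTop.1 (hs.eventually (lt_mem_nhds
    (show c - ε / (4 * (L + 1)) < c by linarith)))
  let μ : ℝ := max (c - ε / (4 * (L + 1))) 0
  have hμ : 0 ≤ μ := le_max_right _ _
  have hμs : ∀ j, k0 ≤ j → μ ≤ s j := fun j hj => max_le (hk0 j hj).le (n0 j)
  have hμL : c * L - ε / 4 ≤ μ * L := by
    have h1 : (c - ε / (4 * (L + 1))) * L ≤ μ * L :=
      mul_le_mul_of_nonneg_right (le_max_left _ _) hL0
    have h2 : ε / (4 * (L + 1)) * L ≤ ε / 4 := by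
      rw [div_mul_eq_mul_div, div_le_div_iff₀ (by positivity) (by norm_num)]
      nlinarith
    linarith
  -- the small number
  obtain ⟨η, hη, hηe⟩ : ∃ η : ℝ, 0 < η ∧
      Real.exp (-(μ * (L - η))) + η ≤ Real.exp (-(μ * L) + ε / 4) := by
    have hgap : 0 < Real.exp (-(μ * L) + ε / 4) - Real.exp (-(μ * L) + ε / 8) := by
      have : Real.exp (-(μ * L) + ε / 8) < Real.exp (-(μ * L) + ε / 4) :=
        Real.exp_lt_exp.2 (by linarith)
      linarith
    refine ⟨min (ε / 8 / (μ + 1))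
      (Real.exp (-(μ * L) + ε / 4) - Real.exp (-(μ * L) + ε / 8)), by positivity, ?_⟩
    set η := min (ε / 8 / (μ + 1))
      (Real.exp (-(μ * L) + ε / 4) - Real.exp (-(μ * L) + ε / 8)) with hη
    have h1 : η ≤ ε / 8 / (μ + 1) := min_le_left _ _
    have h2 : η ≤ Real.exp (-(μ * L) + ε / 4) - Real.exp (-(μ * L) + ε / 8) := min_le_right _ _
    have h3 : μ * η ≤ ε / 8 := by
      rw [le_div_iff₀ (by positivity)] at h1
      have : 0 < η := by rw [hη]; positivity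
      nlinarith
    have h4 : Real.exp (-(μ * (L - η))) ≤ Real.exp (-(μ * L) + ε / 8) := by
      rw [Real.exp_le_exp]
      nlinarith
    linarith
  have hxn : Tendsto (fun n : ℕ => x ^ n) atTop atTop := tendsto_pow_atTop_atTop_of_one_lt hx1
  obtain ⟨N, hN⟩ := eventually_atTop.1 ((La_lam hx hx3 hx4 hL hL0 hC0 hC hμ hη).and
    (hxn.eventually_ge_atTop (32 * S / (ε / 8))))
  obtain ⟨b1, b2⟩ := hN N le_rfl
  have hp : 0 < x ^ N := by positivity
  rw [div_le_iff₀ (by positivity)] at b2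
  refine ⟨3 / 8 * ε / 2 ^ N, by positivity, eventually_atTop.2 ⟨N + k0, fun m hm => ?_⟩⟩
  obtain ⟨k, rfl⟩ : ∃ k, m = N + k := ⟨m - N, by omega⟩
  have hk : k0 ≤ k := by omega
  let θ : ℝ := (2 / x) ^ k / x ^ N
  have hθ : 0 ≤ θ := by positivity
  have e1 : θ * (x / 2) ^ k = 1 / x ^ N := by
    show (2 / x) ^ k / x ^ N * (x / 2) ^ k = 1 / x ^ N
    rw [div_mul_eq_mul_div, ← mul_pow]
    congr 1
    have : 2 / x * (x / 2) = 1 := by field_simp
    rw [this, one_pow]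
  have e2 : θ * x ^ (N + k) = 2 ^ k := by
    show (2 / x) ^ k / x ^ N * x ^ (N + k) = 2 ^ k
    rw [pow_add, div_pow]
    field_simp
  have e3 : θ * x ^ k = 2 ^ k / x ^ N := by
    show (2 / x) ^ k / x ^ N * x ^ k = 2 ^ k / x ^ N
    rw [div_pow]
    field_simp
  have hM := markov (p := x ^ 2 * s 2) (q := 2 * x * s 1) (r := 4 * s 0) hθ (N + k)
    ((c * L - ε) * x ^ (N + k))
  refine hM.trans (mul_le_mul_of_nonneg_right ?_ (by positivity))
  have hI := La_iter hx hx4 k h hc hS N hθ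
  rw [e1] at hI
  have hsc := La_scale (p := x ^ 2) (q := 2 * x) (r := 4) (p' := x ^ 2 * s (k + 2))
    (q' := 2 * x * s (k + 1)) (r' := 4 * s k) (k := μ) (θ := 1 / x ^ N) (by positivity)
    (by positivity) (by norm_num) hμ (by positivity)
    (by have := hμs (k + 2) (by omega); nlinarith [sq_nonneg x])
    (by have := hμs (k + 1) (by omega); nlinarith)
    (by have := hμs k hk; linarith) N
  rw [mul_one_div] at hsc
  have hLa : La (x ^ 2 * s (k + 2)) (2 * x * s (k + 1)) (4 * s k) (1 / x ^ N) N ≤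
      Real.exp (-(μ * L) + ε / 4) := hsc.trans (b1.trans hηe)
  have hLa' := pow_le_pow_left₀ (La_nonneg _ _ _ _ _) hLa (2 ^ k)
  have hA : La (x ^ 2 * s 2) (2 * x * s 1) (4 * s 0) θ (N + k) ≤
      Real.exp (32 * S * (x ^ k - 1) * θ) * Real.exp (-(μ * L) + ε / 4) ^ (2 ^ k) :=
    hI.trans (mul_le_mul_of_nonneg_left hLa' (Real.exp_pos _).le)
  refine (mul_le_mul_of_nonneg_left hA (Real.exp_pos _).le).trans ?_
  rw [← Real.exp_nat_mul, ← Real.exp_add, ← Real.exp_add, Real.exp_le_exp]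
  have e4 : θ * ((c * L - ε) * x ^ (N + k)) = 2 ^ k * (c * L - ε) := by
    rw [← e2]; ring
  have e5 : 32 * S * (x ^ k - 1) * θ ≤ 2 ^ k * (ε / 8) := by
    have h1 : 32 * S * (x ^ k - 1) * θ = 32 * S * (θ * x ^ k) - 32 * S * θ := by ring
    rw [h1, e3]
    have h2 : 32 * S * (2 ^ k / x ^ N) ≤ 2 ^ k * (ε / 8) := by
      rw [mul_div_assoc', div_le_iff₀ hp]
      have : (0 : ℝ) ≤ 2 ^ k := by positivity
      nlinarith
    have h3 : 0 ≤ 32 * S * θ := by positivity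
    linarith
  have e6 : 3 / 8 * ε / 2 ^ N * 2 ^ (N + k) = 2 ^ k * (3 / 8 * ε) := by
    rw [pow_add]
    field_simp
  rw [e4, e6]
  push_cast
  have h2k : (0 : ℝ) < 2 ^ k := by positivity
  nlinarith

/-- Few elements have a small length. -/
theorem lower_len (hL : Tendsto (fun n => Mw (x ^ 2) (2 * x) 4 n / x ^ n) atTop (𝓝 L))
    (hL0 : 0 ≤ L) (hC0 : 0 ≤ C)
    (hC : ∀ (n : ℕ) (g : Gn n), wlen (x ^ 2) (2 * x) 4 n g ≤ C * x ^ n)
    {ε : ℝ} (hε : 0 < ε) :
    ∃ b : ℝ, 0 < b ∧ ∀ᶠ n in atTop,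
      ({g : Gn n | (len n g : ℝ) ≤ (2 * (cw x 1 1 1 * L) - ε) * x ^ n}.ncard : ℝ) ≤
        Real.exp (-(b * 2 ^ n)) * Nat.card (Gn n) := by
  have hx0 : 0 < x := by linarith
  have hx1 : 1 < x := by linarith
  obtain ⟨b, hb, hlow⟩ := lower_w hx hx3 hx4 hL hL0 hC0 hC
    (rec_sq x (1 / 4) (1 / (2 * x)) (1 / x ^ 2))
    (cone_w hx hx3 (p := 1) (q := 1) (r := 1) ⟨by norm_num, by norm_num, by norm_num⟩)
    (lim_w hx hx3 1 1 1) (show 0 < ε / 4 by positivity)
  refine ⟨b, hb, ?_⟩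
  have hxn : Tendsto (fun n : ℕ => x ^ n) atTop atTop := tendsto_pow_atTop_atTop_of_one_lt hx1
  filter_upwards [hlow, hxn.eventually_ge_atTop (2 / ε)] with n h1 h2
  rw [div_le_iff₀ hε] at h2
  refine le_trans ?_ h1
  have e2 : x ^ 2 * sq x (1 / 4) (1 / (2 * x)) (1 / x ^ 2) 2 = 1 := by
    show x ^ 2 * (1 / x ^ 2) = 1; field_simp
  have e1 : 2 * x * sq x (1 / 4) (1 / (2 * x)) (1 / x ^ 2) 1 = 1 := by
    show 2 * x * (1 / (2 * x)) = 1; field_simp
  have e0 : 4 * sq x (1 / 4) (1 / (2 * x)) (1 / x ^ 2) 0 = 1 := by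
    show 4 * (1 / 4 : ℝ) = 1; ring
  rw [e0, e1, e2]
  have hsub : {g : Gn n | (len n g : ℝ) ≤ (2 * (cw x 1 1 1 * L) - ε) * x ^ n} ⊆
      {g : Gn n | wlen 1 1 1 n g ≤ (cw x 1 1 1 * L - ε / 4) * x ^ n} := by
    intro g hg
    have h3 : (len n g : ℝ) ≤ (2 * (cw x 1 1 1 * L) - ε) * x ^ n := hg
    have h4 := wlen_one_le n g
    show wlen 1 1 1 n g ≤ (cw x 1 1 1 * L - ε / 4) * x ^ n
    nlinarith
  exact_mod_cast Set.ncard_le_ncard hsub (Set.toFinite _)

end

end Pool.Agent.Lib.Pb99418A
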