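import Pool.Agent.Lib.Pb99418A.Contract

/-!
# Weighted lengths in the level quotients

`wlen p q r n g` is the infimum of the weights of the words that represent `g`; the letter `a`
has weight `0`.
-/

namespace Pool.Agent.Lib.Pb99418A

open Pool.Agent.Lib.Pb99418 Pool.Agent.Lib.Pb99418U Gen

/-- The weighted length: the infimum of the weights of the words with product `g`. -/
noncomputable def wlen (p q r : ℝ) (n : ℕ) (g : Gn n) : ℝ :=
  sInf {y | ∃ s : List Gen, (s.map (gbar n)).prod = g ∧ wgt p q r s = y}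

theorem exists_rep (n : ℕ) (g : Gn n) : ∃ s : List Gen, (elt s : Gn n) = g := by
  obtain ⟨h, rfl⟩ := QuotientGroup.mk_surjective g
  obtain ⟨s, hs⟩ := exists_word h
  refine ⟨s, ?_⟩
  rw [mk_eq_iff]
  intro w _
  rw [elt_apply, hs]

theorem elt_eq_iff (n : ℕ) (s t : List Gen) : (elt s : Gn n) = (elt t : Gn n) ↔
    ∀ w : List Bool, w.length = n → run s w = run t w := by
  rw [mk_eq_iff]
  simp only [elt_apply]

theorem elt_append (n : ℕ) (s t : List Gen) :
    (elt (s ++ t) : Gn n) = (elt s : Gn n) * (elt t : Gn n) := by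
  rw [← prod_gbar, ← prod_gbar, ← prod_gbar, List.map_append, List.prod_append]

section

variable {p q r : ℝ} {n : ℕ} {g : Gn n}

theorem wlen_le (hp : 0 ≤ p) (hq : 0 ≤ q) (hr : 0 ≤ r) {s : List Gen}
    (h : (elt s : Gn n) = g) : wlen p q r n g ≤ wgt p q r s := by
  apply csInf_le
  · refine ⟨0, ?_⟩
    rintro y ⟨t, -, rfl⟩
    exact wgt_nonneg hp hq hr t
  · exact ⟨s, by rw [prod_gbar, h], rfl⟩

theorem wset_nonempty (p q r : ℝ) (n : ℕ) (g : Gn n) :
    {y | ∃ s : List Gen, (s.map (gbar n)).prod = g ∧ wgt p q r s = y}.Nonempty := by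
  obtain ⟨s, hs⟩ := exists_rep n g
  exact ⟨_, s, by rw [prod_gbar, hs], rfl⟩

theorem exists_near {ε : ℝ} (hε : 0 < ε) :
    ∃ s : List Gen, (elt s : Gn n) = g ∧ wgt p q r s < wlen p q r n g + ε := by
  obtain ⟨y, ⟨s, hs, rfl⟩, hy⟩ := exists_lt_of_csInf_lt (wset_nonempty p q r n g)
    (show wlen p q r n g < wlen p q r n g + ε by linarith)
  exact ⟨s, by rw [← prod_gbar, hs], hy⟩

theorem le_wlen {y : ℝ} (h : ∀ s : List Gen, (elt s : Gn n) = g → y ≤ wgt p q r s) :
    y ≤ wlen p q r n g := by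
  apply le_csInf (wset_nonempty p q r n g)
  rintro z ⟨s, hs, rfl⟩
  exact h s (by rw [← prod_gbar, hs])

theorem wlen_nonneg (hp : 0 ≤ p) (hq : 0 ≤ q) (hr : 0 ≤ r) : 0 ≤ wlen p q r n g :=
  le_wlen fun s _ => wgt_nonneg hp hq hr s

theorem wlen_add {p' q' r' : ℝ} (hp : 0 ≤ p) (hq : 0 ≤ q) (hr : 0 ≤ r) (hp' : 0 ≤ p')
    (hq' : 0 ≤ q') (hr' : 0 ≤ r') :
    wlen p q r n g + wlen p' q' r' n g ≤ wlen (p + p') (q + q') (r + r') n g := by
  apply le_wlen
  intro s hs
  rw [wgt_add]
  exact add_le_add (wlen_le hp hq hr hs) (wlen_le hp' hq' hr' hs)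

theorem wlen_scale {p' q' r' k : ℝ} (hp : 0 ≤ p) (hq : 0 ≤ q) (hr : 0 ≤ r) (hk : 0 ≤ k)
    (h1 : k * p ≤ p') (h2 : k * q ≤ q') (h3 : k * r ≤ r') :
    k * wlen p q r n g ≤ wlen p' q' r' n g := by
  apply le_wlen
  intro s hs
  refine le_trans ?_ (wgt_mono h1 h2 h3 s)
  rw [wgt_smul]
  exact mul_le_mul_of_nonneg_left (wlen_le hp hq hr hs) hk

end

/-! ### Sections -/

/-- A word that represents `g`. -/
noncomputable def rep (n : ℕ) (g : Gn n) : List Gen := (exists_rep n g).choose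

theorem rep_spec (n : ℕ) (g : Gn n) : (elt (rep n g) : Gn n) = g := (exists_rep n g).choose_spec

/-- The section of an element of `G_{n+1}` at a vertex of level one, an element of `G_n`. -/
noncomputable def sct (x : Bool) {n : ℕ} (g : Gn (n + 1)) : Gn n :=
  (elt (sec x (rep (n + 1) g)) : Gn n)

theorem sct_elt (x : Bool) (n : ℕ) (s : List Gen) :
    sct x ((elt s : Gn (n + 1))) = (elt (sec x s) : Gn n) := by
  rw [sct, elt_eq_iff]
  intro w hw
  have h := (elt_eq_iff (n + 1) _ _).1 (rep_spec (n + 1) (elt s : Gn (n + 1))) (x :: w)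
    (by simp [hw])
  rw [run_cons_word, run_cons_word] at h
  exact (List.cons.inj h).2

theorem wlen_contract {X Y V : ℝ} (h1 : Y ≤ X) (h2 : V ≤ X) (h4 : X ≤ Y + V)
    {n : ℕ} (g : Gn (n + 1)) :
    wlen X Y V n (sct false g) + wlen X Y V n (sct true g) ≤
      wlen Y V (2 * X - Y - V) (n + 1) g + 3 * (Y + V - X) := by
  have : wlen X Y V n (sct false g) + wlen X Y V n (sct true g) - 3 * (Y + V - X) ≤
      wlen Y V (2 * X - Y - V) (n + 1) g := by
    apply le_wlen
    rintro s rfl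
    obtain ⟨t, ht, hw⟩ := contract h1 h2 h4 s
    have key : ∀ x, wlen X Y V n (sct x ((elt s : Gn (n + 1)))) ≤ wgt X Y V (t x) := by
      intro x
      apply wlen_le (by linarith) (by linarith) (by linarith)
      rw [sct_elt, elt_eq_iff]
      intro w _
      exact ht x w
    have := key false
    have := key true
    linarith
  linarith

theorem psi_run (t : List Gen) (w : List Bool) : run (psi t) (true :: w) = true :: run t w := by
  rw [← ev_apply, ev_psi, pr_true, ev_apply]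

theorem par_psi (t : List Gen) : par (psi t) = false := by
  have h := psi_run t []
  rw [run_cons_word] at h
  simpa using (List.cons.inj h).1

theorem sec_psi (t : List Gen) (w : List Bool) : run (sec true (psi t)) w = run t w := by
  have h := psi_run t w
  rw [run_cons_word] at h
  exact (List.cons.inj h).2

theorem exists_lift (x : Bool) (n : ℕ) (h : Gn n) :
    ∃ H : Gn (n + 1), ∀ g, sct x (g * H) = sct x g * h := by
  obtain ⟨t, rfl⟩ := exists_rep n h
  have key : ∃ S : List Gen, par S = false ∧ ∀ w, run (sec x S) w = run t w := by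
    cases x with
    | true => exact ⟨psi t, par_psi t, sec_psi t⟩
    | false =>
      refine ⟨a :: (psi t ++ [a]), ?_, fun w => ?_⟩
      · rw [par_cons, par_append, par_psi]; rfl
      · show run ([] ++ sec false (psi t ++ [a])) w = _
        rw [sec_append]
        have h1 : par [a] = true := rfl
        have h2 : sec false [a] = [] := rfl
        rw [h1, h2]
        simpa using sec_psi t w
  obtain ⟨S, hS, hS2⟩ := key
  refine ⟨(elt S : Gn (n + 1)), fun g => ?_⟩
  obtain ⟨s, rfl⟩ := exists_rep (n + 1) g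
  rw [← elt_append, sct_elt, sct_elt, sec_append, hS, elt_append]
  have h3 : xor x false = x := by simp
  rw [h3]
  congr 1
  rw [elt_eq_iff]
  intro w _
  exact hS2 w

noncomputable instance (n : ℕ) : Fintype (Gn n) := Fintype.ofFinite _

/-- The sections of the elements of `G_{n+1}` are equidistributed in `G_n`. -/
theorem sum_sct (x : Bool) (n : ℕ) (f : Gn n → ℝ) :
    (Fintype.card (Gn n) : ℝ) * ∑ g : Gn (n + 1), f (sct x g) =
      (Fintype.card (Gn (n + 1)) : ℝ) * ∑ k : Gn n, f k := by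
  have h1 : ∀ h : Gn n, ∑ g : Gn (n + 1), f (sct x g) = ∑ g : Gn (n + 1), f (sct x g * h) := by
    intro h
    obtain ⟨H, hH⟩ := exists_lift x n h
    rw [← Equiv.sum_comp (Equiv.mulRight H) fun g => f (sct x g)]
    refine Finset.sum_congr rfl fun g _ => ?_
    rw [Equiv.coe_mulRight, hH]
  calc (Fintype.card (Gn n) : ℝ) * ∑ g : Gn (n + 1), f (sct x g)
      = ∑ _h : Gn n, ∑ g : Gn (n + 1), f (sct x g) := by
        rw [Finset.sum_const, Finset.card_univ, nsmul_eq_mul]
    _ = ∑ h : Gn n, ∑ g : Gn (n + 1), f (sct x g * h) := Finset.sum_congr rfl fun h _ => h1 h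
    _ = ∑ g : Gn (n + 1), ∑ h : Gn n, f (sct x g * h) := Finset.sum_comm
    _ = ∑ _g : Gn (n + 1), ∑ k : Gn n, f k := by
        refine Finset.sum_congr rfl fun g _ => ?_
        exact Equiv.sum_comp (Equiv.mulLeft (sct x g)) f
    _ = (Fintype.card (Gn (n + 1)) : ℝ) * ∑ k : Gn n, f k := by
        rw [Finset.sum_const, Finset.card_univ, nsmul_eq_mul]

/-- The mean weighted length. -/
noncomputable def Mw (p q r : ℝ) (n : ℕ) : ℝ :=
  (∑ g : Gn n, wlen p q r n g) / Fintype.card (Gn n)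

theorem card_pos' (n : ℕ) : (0 : ℝ) < Fintype.card (Gn n) := by
  exact_mod_cast Fintype.card_pos

theorem Mw_contract {X Y V : ℝ} (h1 : Y ≤ X) (h2 : V ≤ X) (h4 : X ≤ Y + V)
    (n : ℕ) : 2 * Mw X Y V n - 3 * (Y + V - X) ≤ Mw Y V (2 * X - Y - V) (n + 1) := by
  have hc := card_pos' n
  have hc' := card_pos' (n + 1)
  have hs : ∑ g : Gn (n + 1), (wlen X Y V n (sct false g) + wlen X Y V n (sct true g)) ≤
      ∑ g : Gn (n + 1), (wlen Y V (2 * X - Y - V) (n + 1) g + 3 * (Y + V - X)) :=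
    Finset.sum_le_sum fun g _ => wlen_contract h1 h2 h4 g
  rw [Finset.sum_add_distrib, Finset.sum_add_distrib, Finset.sum_const, Finset.card_univ,
    nsmul_eq_mul] at hs
  have e1 := sum_sct false n (wlen X Y V n)
  have e2 := sum_sct true n (wlen X Y V n)
  have e1' : ∑ g : Gn (n + 1), wlen X Y V n (sct false g) =
      (Fintype.card (Gn (n + 1)) : ℝ) * Mw X Y V n := by
    unfold Mw; field_simp; linarith
  have e2' : ∑ g : Gn (n + 1), wlen X Y V n (sct true g) =
      (Fintype.card (Gn (n + 1)) : ℝ) * Mw X Y V n := by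
    unfold Mw; field_simp; linarith
  have e3 : ∑ g : Gn (n + 1), wlen Y V (2 * X - Y - V) (n + 1) g =
      (Fintype.card (Gn (n + 1)) : ℝ) * Mw Y V (2 * X - Y - V) (n + 1) := by
    unfold Mw; field_simp
  rw [e1', e2', e3] at hs
  have : (Fintype.card (Gn (n + 1)) : ℝ) * (2 * Mw X Y V n - 3 * (Y + V - X)) ≤
      (Fintype.card (Gn (n + 1)) : ℝ) * Mw Y V (2 * X - Y - V) (n + 1) := by linarith
  exact le_of_mul_le_mul_left this hc'

theorem Mw_mono_of {p q r p' q' r' k c : ℝ} {n : ℕ}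
    (h : ∀ g : Gn n, k * wlen p q r n g ≤ wlen p' q' r' n g + c) :
    k * Mw p q r n ≤ Mw p' q' r' n + c := by
  have hc := card_pos' n
  have hs := Finset.sum_le_sum fun g (_ : g ∈ (Finset.univ : Finset (Gn n))) => h g
  rw [← Finset.mul_sum, Finset.sum_add_distrib, Finset.sum_const, Finset.card_univ,
    nsmul_eq_mul] at hs
  have e1 : ∑ g : Gn n, wlen p q r n g = (Fintype.card (Gn n) : ℝ) * Mw p q r n := by
    unfold Mw; field_simp
  have e2 : ∑ g : Gn n, wlen p' q' r' n g = (Fintype.card (Gn n) : ℝ) * Mw p' q' r' n := by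
    unfold Mw; field_simp
  rw [e1, e2] at hs
  have : (Fintype.card (Gn n) : ℝ) * (k * Mw p q r n) ≤
      (Fintype.card (Gn n) : ℝ) * (Mw p' q' r' n + c) := by linarith
  exact le_of_mul_le_mul_left this hc

theorem Mw_add {p q r p' q' r' : ℝ} (hp : 0 ≤ p) (hq : 0 ≤ q) (hr : 0 ≤ r) (hp' : 0 ≤ p')
    (hq' : 0 ≤ q') (hr' : 0 ≤ r') (n : ℕ) :
    Mw p q r n + Mw p' q' r' n ≤ Mw (p + p') (q + q') (r + r') n := by
  unfold Mw
  rw [← add_div, ← Finset.sum_add_distrib]
  apply div_le_div_of_nonneg_right _ (card_pos' n).le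
  exact Finset.sum_le_sum fun g _ => wlen_add hp hq hr hp' hq' hr'

/-- The weighted diameter: the largest weighted length. -/
noncomputable def Dw (p q r : ℝ) (n : ℕ) : ℝ := sSup (Set.range (wlen p q r n))

theorem wlen_le_Dw (p q r : ℝ) (n : ℕ) (g : Gn n) : wlen p q r n g ≤ Dw p q r n :=
  le_csSup (Set.finite_range _).bddAbove ⟨g, rfl⟩

theorem exists_Dw (p q r : ℝ) (n : ℕ) : ∃ g : Gn n, wlen p q r n g = Dw p q r n := by
  have h := (Set.range_nonempty (wlen p q r n)).csSup_mem (Set.finite_range _)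
  obtain ⟨g, hg⟩ := h
  exact ⟨g, hg⟩

theorem wlen_A {p q r : ℝ} (hp : 0 ≤ p) (hq : 0 ≤ q) (hr : 0 ≤ r) (n : ℕ) (s : List Gen) :
    wlen p q r n (elt s : Gn n) ≤ wlen p q r n (elt (a :: s) : Gn n) := by
  apply le_wlen
  intro t ht
  have h : (elt (a :: t) : Gn n) = (elt s : Gn n) := by
    rw [elt_eq_iff] at ht ⊢
    intro w hw
    rw [run_cons, ht w hw, run_cons, act_act]
  refine (wlen_le hp hq hr h).trans ?_
  rw [wgt_cons, wl_a, zero_add]

theorem wlen_A' {p q r : ℝ} (hp : 0 ≤ p) (hq : 0 ≤ q) (hr : 0 ≤ r) (n : ℕ) (s : List Gen) :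
    wlen p q r n (elt s : Gn n) ≤ wlen p q r n (elt (s ++ [a]) : Gn n) := by
  apply le_wlen
  intro t ht
  have h : (elt (t ++ [a]) : Gn n) = (elt s : Gn n) := by
    rw [elt_eq_iff] at ht ⊢
    intro w hw
    rw [run_append]
    rw [ht _ (by rw [length_run, hw]), run_append]
    show run s (act a (act a w)) = run s w
    rw [act_act]
  refine (wlen_le hp hq hr h).trans ?_
  rw [wgt_append, wgt_cons, wl_a, wgt_nil, zero_add, add_zero]

theorem Dw_contract {X Y V : ℝ} (h1 : Y ≤ X) (h2 : V ≤ X) (h4 : X ≤ Y + V)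
    (n : ℕ) : 2 * Dw X Y V n - 3 * (Y + V - X) ≤ Dw Y V (2 * X - Y - V) (n + 1) := by
  have hX : 0 ≤ X := by linarith
  have hY : 0 ≤ Y := by linarith
  have h0 : 0 ≤ V := by linarith
  obtain ⟨g, hg⟩ := exists_Dw X Y V n
  obtain ⟨w, rfl⟩ := exists_rep n g
  obtain ⟨w', hw', hle⟩ : ∃ w' : List Gen, ev w' = ev w * PhiWAux.ae (PhiWAux.fin false w) ∧
      wlen X Y V n (elt w : Gn n) ≤ wlen X Y V n (elt w' : Gn n) := by
    cases PhiWAux.fin false w with
    | true =>
      exact ⟨w ++ [a], by simp [PhiWAux.ae], wlen_A' hX hY h0 n w⟩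
    | false => exact ⟨w, by simp [PhiWAux.ae], le_refl _⟩
  have hS := PhiWAux.ev_phw false w
  have h5 : ev (PhiWAux.phw false w) = pr (ev w') (gA * ev w' * gA) := by
    rw [hS, hw']
    simp [PhiWAux.ae, Ph]
  have hF : ∀ v, run (sec false (PhiWAux.phw false w)) v = run w' v := by
    intro v
    have h := ev_apply (PhiWAux.phw false w) (false :: v)
    rw [h5, pr_false, run_cons_word] at h
    rw [← ev_apply w' v]
    exact (List.cons.inj h).2.symm
  have hT : ∀ v, run (sec true (PhiWAux.phw false w)) v = run ((a :: w') ++ [a]) v := by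
    intro v
    have h := ev_apply (PhiWAux.phw false w) (true :: v)
    rw [h5, pr_true, run_cons_word] at h
    rw [← ev_apply ((a :: w') ++ [a]) v, ev_append, ev_cons]
    have h6 := (List.cons.inj h).2.symm
    rw [h6]
    simp
  have h7 := wlen_contract h1 h2 h4 (elt (PhiWAux.phw false w) : Gn (n + 1))
  rw [sct_elt, sct_elt] at h7
  have h8 : (elt (sec false (PhiWAux.phw false w)) : Gn n) = (elt w' : Gn n) :=
    (elt_eq_iff n _ _).2 fun v _ => hF v
  have h9 : (elt (sec true (PhiWAux.phw false w)) : Gn n) = (elt ((a :: w') ++ [a]) : Gn n) :=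
    (elt_eq_iff n _ _).2 fun v _ => hT v
  rw [h8, h9] at h7
  have h10 := wlen_A hX hY h0 n w'
  have h11 := wlen_A' hX hY h0 n (a :: w')
  have h12 := wlen_le_Dw Y V (2 * X - Y - V) (n + 1) (elt (PhiWAux.phw false w) : Gn (n + 1))
  linarith

end Pool.Agent.Lib.Pb99418A
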