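import Pool.Agent.Lib.Pb99418A.Asym
import Pool.Agent.Lib.Pb99418A.LowerTail

/-!
# A contraction with a penalty, and the limit of `D_n / x ^ n`

Give the letters of a word for a section the weights `α, p, q, r` of `a, b, c, d` and let each pair
of adjacent letters different from `a` cost an additional penalty `π ≤ 2 α`.  A word can be made
alternating without increase of this cost if `p ≤ q + r + π`, and so on (`normal_pen`); then the
weight of `a` is moved to the other letters.

In a section of an alternating word the letters different from `a` alternate with the factors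
`a, a, 1` coming from the letters `b, c, d`, so the adjacent pairs correspond to the letters `d`
(`cost_sc`).  Hence (`wlen_pen`), for the sections `g_0, g_1` of `g`,
`wlen (D - π₁ + α, B, C) g_0 + wlen (D - π₀ + α, B, C) g_1 ≤ wlen (B, C, D) g + 2 α`
for suitable penalties `π₀, π₁` of the two sections: weight of `b` can be moved from one section to
the other without loss.

For the weights `λ = (x ^ 2, 2 x, 4)` one gets in two steps (`Dw_step1`, `Dw_step2`), for the
maxima of the weighted lengths,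
`Dw (2 x + 4, x ^ 2, 2 x) (n + 1) + Dw (x ^ 2 + 2 x, x ^ 2, x ^ 2) n + x ^ 2 Dw (1, 1, 1) n ≤
Dw λ (n + 2) + K`.
With the lower bound `Dw μ n ≥ (cw μ κ - o(1)) x ^ n` for all weights `μ` (`Dw_lower`), where
`κ = lim Dw λ n / x ^ n`, this gives the matching upper bound for `Dw (1, 1, 1)`, since nothing is
lost in the two steps (`cw_steps`).
-/

namespace Pool.Agent.Lib.Pb99418A

open Pool.Agent.Lib.Pb99418 Pool.Agent.Lib.Pb99418U Gen Filter Topology

/-- Whether the word starts with a letter different from `a`. -/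
def st : List Gen → Bool
  | [] => false
  | a :: _ => false
  | b :: _ => true
  | c :: _ => true
  | d :: _ => true

/-- The cost of a word with a penalty for adjacent letters different from `a`. -/
def cost (π α p q r : ℝ) : List Gen → ℝ
  | [] => 0
  | a :: s => α + cost π α p q r s
  | b :: s => p + (if st s then π else 0) + cost π α p q r s
  | c :: s => q + (if st s then π else 0) + cost π α p q r s
  | d :: s => r + (if st s then π else 0) + cost π α p q r s

theorem cost_i (π α p q r : ℝ) (z : V3) (s : List Gen) :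
    cost π α p q r (z.i :: s) = w3 p q r z + (if st s then π else 0) + cost π α p q r s := by
  cases z <;> rfl

theorem st_i (z : V3) (s : List Gen) : st (z.i :: s) = true := by cases z <;> rfl

/-- The correction term of the normal form. -/
def corr (π : ℝ) (u : Bool) (zs : List V3) (s : List Gen) : ℝ :=
  if u = false ∧ zs ≠ [] ∧ st s = false then π else 0

theorem normal_pen {π α p q r : ℝ} (hπ : 0 ≤ π) (hπα : π ≤ 2 * α) (hp : 0 ≤ p) (hq : 0 ≤ q)
    (hr : 0 ≤ r) (h1 : p ≤ q + r + π) (h2 : q ≤ p + r + π) (h3 : r ≤ p + q + π)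
    (s : List Gen) :
    ∃ (u e : Bool) (zs : List V3), (∀ w, run s w = run (oa u ++ (P1 zs ++ oa e)) w) ∧
      (u.toNat : ℝ) * α + wgt (p + α) (q + α) (r + α) (P1 zs) + corr π u zs s ≤
        cost π α p q r s + (e.toNat : ℝ) * α ∧ (zs = [] → e = false) := by
  have hα : 0 ≤ α := by linarith
  induction s with
  | nil => exact ⟨false, false, [], fun w => rfl, by simp [P1, cost, corr], by simp⟩
  | cons g s ih =>
    obtain ⟨u, e, zs, hrun, hw, he⟩ := ih
    have key : ∀ z : V3, ∃ (u e : Bool) (zs : List V3),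
        (∀ w, run (z.i :: s) w = run (oa u ++ (P1 zs ++ oa e)) w) ∧
        (u.toNat : ℝ) * α + wgt (p + α) (q + α) (r + α) (P1 zs) + corr π u zs (z.i :: s) ≤
          cost π α p q r (z.i :: s) + (e.toNat : ℝ) * α ∧ (zs = [] → e = false) := by
      intro z
      have hc0 : ∀ (u : Bool) (zs : List V3), corr π u zs (z.i :: s) = 0 := by
        intro u zs
        simp [corr, st_i]
      simp only [hc0, add_zero, cost_i]
      have hz : 0 ≤ w3 p q r z := by cases z <;> simp [w3, hp, hq, hr]
      have hif : 0 ≤ (if st s then π else 0) := by split_ifs <;> simp [hπ]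
      cases u with
      | true =>
        refine ⟨false, e, z :: zs, fun w => ?_, ?_, by simp⟩
        · rw [run_cons, hrun]; rfl
        · have hc : corr π true zs s = 0 := by simp [corr]
          rw [wgt_P1_cons, w3_add]
          rw [hc] at hw
          simp only [Bool.toNat_true, Bool.toNat_false, Nat.cast_one, Nat.cast_zero, one_mul,
            zero_mul] at hw ⊢
          linarith
      | false =>
        cases zs with
        | nil =>
          have he' := he rfl
          subst he'
          have hc : corr π false [] s = 0 := by simp [corr]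
          rw [hc] at hw
          refine ⟨false, true, [z], fun w => ?_, ?_, by simp⟩
          · rw [run_cons, hrun]
            show act z.i w = act z.i (act a (act a w))
            rw [act_act]
          · rw [wgt_P1_cons, w3_add]
            simp only [Bool.toNat_true, Bool.toNat_false, Nat.cast_one, Nat.cast_zero, one_mul,
              zero_mul] at hw ⊢
            linarith
        | cons y zs =>
          have hr1 : ∀ w, run (z.i :: s) w =
              run (ol (mulO (some z) y) ++ (a :: (P1 zs ++ oa e))) w := by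
            intro w
            rw [run_cons, hrun]
            exact run_ol (some z) y (a :: (P1 zs ++ oa e)) w
          have hy := wgt_P1_cons (p + α) (q + α) (r + α) y zs
          have hpen : (if st s then π else 0) + corr π false (y :: zs) s = π := by
            unfold corr
            cases st s <;> simp
          cases hm : mulO (some z) y with
          | some v =>
            refine ⟨false, e, v :: zs, fun w => ?_, ?_, by simp⟩
            · rw [hr1, hm]; rfl
            · have hv : w3 p q r v ≤ w3 p q r z + w3 p q r y + π := by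
                cases z <;> cases y <;> simp [mulO] at hm <;> subst hm <;>
                  simp only [w3] <;> linarith
              rw [wgt_P1_cons, w3_add]
              rw [hy, w3_add] at hw
              simp only [Bool.toNat_false, Nat.cast_zero, zero_mul] at hw ⊢
              linarith
          | none =>
            have hy0 : 0 ≤ w3 p q r y := by cases y <;> simp [w3, hp, hq, hr]
            have hw' : α + wgt (p + α) (q + α) (r + α) (P1 zs) ≤
                w3 p q r z + (if st s then π else 0) + cost π α p q r s +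
                  (e.toNat : ℝ) * α := by
              rw [hy, w3_add] at hw
              simp only [Bool.toNat_false, Nat.cast_zero, zero_mul] at hw
              linarith
            cases zs with
            | nil =>
              cases e with
              | true =>
                refine ⟨false, false, [], fun w => ?_, ?_, by simp⟩
                · rw [hr1, hm]
                  show act a (act a w) = w
                  exact act_act a w
                · simp only [Bool.toNat_true, Bool.toNat_false, Nat.cast_one, Nat.cast_zero,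
                    one_mul, zero_mul] at hw' ⊢
                  linarith
              | false =>
                refine ⟨true, false, [], fun w => ?_, ?_, by simp⟩
                · rw [hr1, hm]; rfl
                · simp only [Bool.toNat_true, Nat.cast_one, one_mul] at hw' ⊢
                  exact hw'
            | cons y' zs =>
              refine ⟨true, e, y' :: zs, fun w => ?_, ?_, by simp⟩
              · rw [hr1, hm]; rfl
              · simp only [Bool.toNat_true, Nat.cast_one, one_mul] at hw' ⊢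
                exact hw'
    cases g with
    | a =>
      refine ⟨!u, e, zs, fun w => ?_, ?_, he⟩
      · rw [run_cons, hrun, run_oa_append]
      · have hca : cost π α p q r (a :: s) = α + cost π α p q r s := rfl
        rw [hca]
        have hcu : 0 ≤ corr π u zs s := by unfold corr; split_ifs <;> simp [hπ]
        have hcu' : corr π (!u) zs (a :: s) ≤ (u.toNat : ℝ) * π := by
          unfold corr
          cases u
          · simp
          · simp only [Bool.not_true, true_and, Bool.toNat_true, Nat.cast_one, one_mul]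
            split_ifs <;> simp [hπ]
        cases u with
        | false =>
          simp only [Bool.not_false, Bool.toNat_true, Bool.toNat_false, Nat.cast_one,
            Nat.cast_zero, one_mul, zero_mul] at hw hcu' ⊢
          linarith
        | true =>
          simp only [Bool.not_true, Bool.toNat_true, Bool.toNat_false, Nat.cast_one,
            Nat.cast_zero, one_mul, zero_mul] at hw hcu' ⊢
          linarith
    | b => exact key V3.b
    | c => exact key V3.c
    | d => exact key V3.d

theorem wlen_le_cost {π α p q r : ℝ} (hπ : 0 ≤ π) (hπα : π ≤ 2 * α) (hp : 0 ≤ p) (hq : 0 ≤ q)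
    (hr : 0 ≤ r) (h1 : p ≤ q + r + π) (h2 : q ≤ p + r + π) (h3 : r ≤ p + q + π) (n : ℕ)
    (s : List Gen) :
    wlen (p + α) (q + α) (r + α) n (elt s : Gn n) ≤ cost π α p q r s + α := by
  have hα : 0 ≤ α := by linarith
  obtain ⟨u, e, zs, hrun, hw, -⟩ := normal_pen hπ hπα hp hq hr h1 h2 h3 s
  have h4 : (elt (oa u ++ (P1 zs ++ oa e)) : Gn n) = (elt s : Gn n) := by
    rw [elt_eq_iff]; intro w _; exact (hrun w).symm
  refine (wlen_le (by linarith) (by linarith) (by linarith) h4).trans ?_
  rw [wgt_append, wgt_append, wgt_oa, wgt_oa]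
  have hu : 0 ≤ (u.toNat : ℝ) * α := by positivity
  have he : (e.toNat : ℝ) * α ≤ α := by cases e <;> simp [hα]
  have hc : 0 ≤ corr π u zs s := by unfold corr; split_ifs <;> simp [hπ]
  linarith

/-! ### The cost of the sections of an alternating word -/

/-- Upper bound of the cost of the sections. -/
def SP (π α p q r : ℝ) : Bool → List V3 → ℝ
  | _, [] => 0
  | true, z :: zs => w3 p q r z.tl + SP π α p q r false zs
  | false, z :: zs => (if z = V3.d then π else α) + SP π α p q r true zs

theorem st_sc_true (zs : List V3) : st (sc true zs) = true → zs ≠ [] := by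
  rintro h rfl
  simp [sc, st] at h

theorem cost_sc {π α p q r : ℝ} (hπ : 0 ≤ π) (zs : List V3) :
    cost π α p q r (sc true zs) ≤ SP π α p q r true zs ∧
    cost π α p q r (sc false zs) + (if st (sc false zs) then π else 0) ≤
      SP π α p q r false zs := by
  induction zs with
  | nil => simp [sc, cost, SP, st]
  | cons z zs ih =>
    obtain ⟨i1, i2⟩ := ih
    constructor
    · show cost π α p q r (z.tl.i :: sc false zs) ≤ w3 p q r z.tl + SP π α p q r false zs
      rw [cost_i]
      linarith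
    · show cost π α p q r (z.om ++ sc true zs) + (if st (z.om ++ sc true zs) then π else 0) ≤
        (if z = V3.d then π else α) + SP π α p q r true zs
      by_cases hz : z = V3.d
      · subst hz
        have hom : V3.om V3.d = [] := rfl
        rw [hom, List.nil_append, if_pos rfl]
        have : (if st (sc true zs) then π else 0) ≤ π := by split_ifs <;> simp [hπ]
        linarith
      · have hom : z.om = [a] := by cases z <;> simp_all [V3.om]
        rw [hom, if_neg hz]
        show α + cost π α p q r (sc true zs) + (if false = true then π else 0) ≤ _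
        simp only [Bool.false_eq_true, if_false]
        linarith

/-- The total of the two bounds is the weight of the word. -/
theorem SP_add (π0 π1 α0 α1 B C D : ℝ) (zs : List V3) :
    SP π1 α1 (D - π0) (B - α0) (C - α0) true zs + SP π0 α0 (D - π1) (B - α1) (C - α1) false zs =
      wgt B C D (P1 zs) ∧
    SP π1 α1 (D - π0) (B - α0) (C - α0) false zs + SP π0 α0 (D - π1) (B - α1) (C - α1) true zs =
      wgt B C D (P1 zs) := by
  induction zs with
  | nil => simp [SP, P1]
  | cons z zs ih =>
    obtain ⟨i1, i2⟩ := ih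
    rw [wgt_P1_cons]
    constructor
    · rw [← i2]
      simp only [SP]
      cases z <;> simp [w3, V3.tl] <;> ring
    · rw [← i1]
      simp only [SP]
      cases z <;> simp [w3, V3.tl] <;> ring

/-- The contraction with penalties. -/
theorem wlen_pen {π0 π1 α B C D : ℝ} (hπ0 : 0 ≤ π0) (hπ1 : 0 ≤ π1) (h0α : π0 ≤ 2 * α)
    (h1α : π1 ≤ 2 * α) (hD0 : 0 ≤ D - π0) (hD1 : 0 ≤ D - π1) (hB : 0 ≤ B - α) (hC : 0 ≤ C - α)
    (t1 : D - π0 ≤ (B - α) + (C - α) + π1) (t2 : B - α ≤ (D - π0) + (C - α) + π1)
    (t3 : C - α ≤ (D - π0) + (B - α) + π1) (t5 : B - α ≤ (D - π1) + (C - α) + π0)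
    (t6 : C - α ≤ (D - π1) + (B - α) + π0) (hT : Tri B C D) {n : ℕ} (g : Gn (n + 1)) :
    wlen (D - π1 + α) B C n (sct false g) + wlen (D - π0 + α) B C n (sct true g) ≤
      wlen B C D (n + 1) g + 2 * α := by
  obtain ⟨nB, nC, nD⟩ := Tri.nonneg hT
  obtain ⟨T1, T2, T3⟩ := hT
  have : wlen (D - π1 + α) B C n (sct false g) + wlen (D - π0 + α) B C n (sct true g) -
      2 * α ≤ wlen B C D (n + 1) g := by
    apply le_wlen
    rintro s rfl
    obtain ⟨u, e, zs, hrun, hw, -, -⟩ := normal_form nB nC nD T1 T2 T3 s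
    have hsec : ∀ x, (elt (sec x s) : Gn n) =
        (elt (sc (xor (xor x e) (par (P1 zs))) zs) : Gn n) := by
      intro x
      rw [elt_eq_iff]
      intro w _
      rw [sec_congr hrun x w, sec_append, sec_append, sec_oa, sec_oa, sec_P1]
      have : par (oa e) = e := by cases e <;> rfl
      rw [this]
      simp
    rw [sct_elt, sct_elt, hsec false, hsec true]
    have k1 : ∀ s : List Gen, wlen (D - π0 + α) B C n (elt s : Gn n) ≤
        cost π1 α (D - π0) (B - α) (C - α) s + α := by
      intro s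
      have h := wlen_le_cost (α := α) hπ1 h1α hD0 hB hC t1 t2 t3 n s
      have e1 : B - α + α = B := by ring
      have e2 : C - α + α = C := by ring
      rwa [e1, e2] at h
    have k0 : ∀ s : List Gen, wlen (D - π1 + α) B C n (elt s : Gn n) ≤
        cost π0 α (D - π1) (B - α) (C - α) s + α := by
      intro s
      have h := wlen_le_cost (α := α) hπ0 h0α hD1 hB hC (by linarith) t5 t6 n s
      have e1 : B - α + α = B := by ring
      have e2 : C - α + α = C := by ring
      rwa [e1, e2] at h
    obtain ⟨s1, s2⟩ := SP_add π0 π1 α α B C D zs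
    obtain ⟨c1, c2⟩ := cost_sc (π := π1) (α := α) (p := D - π0) (q := B - α) (r := C - α) hπ1 zs
    obtain ⟨c3, c4⟩ := cost_sc (π := π0) (α := α) (p := D - π1) (q := B - α) (r := C - α) hπ0 zs
    have i1 : 0 ≤ (if st (sc false zs) then π1 else 0) := by split_ifs <;> simp [hπ1]
    have i2 : 0 ≤ (if st (sc false zs) then π0 else 0) := by split_ifs <;> simp [hπ0]
    have f1 := k1 (sc true zs)
    have f2 := k1 (sc false zs)
    have f3 := k0 (sc true zs)
    have f4 := k0 (sc false zs)
    cases e <;> cases par (P1 zs) <;> simp <;> linarith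
  linarith

/-- The inequality between the weighted diameters. -/
theorem Dw_pen {π0 π1 α B C D : ℝ} (hπ0 : 0 ≤ π0) (hπ1 : 0 ≤ π1) (h0α : π0 ≤ 2 * α)
    (h1α : π1 ≤ 2 * α) (hD0 : 0 ≤ D - π0) (hD1 : 0 ≤ D - π1) (hB : 0 ≤ B - α) (hC : 0 ≤ C - α)
    (t1 : D - π0 ≤ (B - α) + (C - α) + π1) (t2 : B - α ≤ (D - π0) + (C - α) + π1)
    (t3 : C - α ≤ (D - π0) + (B - α) + π1) (t5 : B - α ≤ (D - π1) + (C - α) + π0)
    (t6 : C - α ≤ (D - π1) + (B - α) + π0) (hT : Tri B C D) (n : ℕ) :
    Dw (D - π1 + α) B C n + Dw (D - π0 + α) B C n ≤ Dw B C D (n + 1) + (2 * α + 3 * C) := by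
  have hα : 0 ≤ α := by linarith
  obtain ⟨nB, nC, nD⟩ := Tri.nonneg hT
  obtain ⟨h, hh⟩ := exists_Dw (D - π1 + α) B C n
  obtain ⟨g, hg⟩ := exists_Dw (D - π0 + α) B C n
  obtain ⟨H, ρ, hT', hF, hρ⟩ := exists_pair n h g
  have a1 := wlen_pen hπ0 hπ1 h0α h1α hD0 hD1 hB hC t1 t2 t3 t5 t6 hT H
  rw [hT', hF, hg] at a1
  have p0 : 0 ≤ D - π1 + α := by linarith
  have a2 := wlen_mul p0 nB nC (h * ρ) ρ⁻¹
  rw [mul_inv_cancel_right, hh] at a2
  have a3 := wlen_inv_le p0 nB nC ρ
  have a4 := hρ _ _ _ p0 nB nC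
  have a6 := wlen_le_Dw B C D (n + 1) H
  linarith

theorem cw_T {x : ℝ} (hx : 2.46 ≤ x) (hx3 : x ^ 3 = x ^ 2 + 2 * x + 4) (B C D : ℝ) :
    cw x ((B + C + D) / 2) B C = x / 2 * cw x B C D := by
  have hx0 : 0 < x := by linarith
  have key : (B + C + D) / 2 + (x - 1) / 2 * B + C / x = x / 2 * (B + (x - 1) / 2 * C + D / x) := by
    have e : x * (x - 1) / 4 = 1 / 2 + 1 / x := by
      field_simp
      nlinarith
    have e2 : x / 2 * (B + (x - 1) / 2 * C + D / x) =
        x / 2 * B + x * (x - 1) / 4 * C + D / 2 := by field_simp; ring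
    rw [e2, e]
    ring
  unfold cw
  rw [key]
  ring

theorem cw_add (x B C D B' C' D' : ℝ) :
    cw x (B + B') (C + C') (D + D') = cw x B C D + cw x B' C' D' := by
  unfold cw; ring

theorem cw_smul (x k B C D : ℝ) : cw x (k * B) (k * C) (k * D) = k * cw x B C D := by
  unfold cw; ring

/-- The general lower bound. -/
theorem Dw_lower {x : ℝ} (hx : 2.46 ≤ x) (hx3 : x ^ 3 = x ^ 2 + 2 * x + 4) {κ : ℝ}
    (hl : Tendsto (fun n => Dw (x ^ 2) (2 * x) 4 n / x ^ n) atTop (𝓝 κ))
    (hκ : 0 ≤ κ) {p q r : ℝ} (hT : Tri p q r) {ε : ℝ} (hε : 0 < ε) :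
    ∀ᶠ n in atTop, cw x p q r * κ - ε ≤ Dw p q r n / x ^ n := by
  have hx0 : 0 < x := by linarith
  have hx1 : 1 < x := by linarith
  have l1 := good_Dw.lower hx1 (rec_sq x (r / 4) (q / (2 * x)) (p / x ^ 2))
    (cone_w hx hx3 hT) (lim_w hx hx3 p q r) hl hκ hε
  have e2 : x ^ 2 * sq x (r / 4) (q / (2 * x)) (p / x ^ 2) 2 = p := by
    show x ^ 2 * (p / x ^ 2) = p; field_simp
  have e1 : 2 * x * sq x (r / 4) (q / (2 * x)) (p / x ^ 2) 1 = q := by
    show 2 * x * (q / (2 * x)) = q; field_simp
  have e0 : 4 * sq x (r / 4) (q / (2 * x)) (p / x ^ 2) 0 = r := by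
    show 4 * (r / 4) = r; ring
  rwa [e0, e1, e2] at l1

section

variable {x : ℝ} (hx : 2.46 ≤ x) (hx3 : x ^ 3 = x ^ 2 + 2 * x + 4) (hx4 : x ≤ 5 / 2)

include hx hx3 hx4

/-- The first step. -/
theorem Dw_step1 (n : ℕ) :
    Dw (2 * x + 4) (x ^ 2) (2 * x) n + Dw (x ^ 2) (x ^ 2) (2 * x) n ≤
      Dw (x ^ 2) (2 * x) 4 (n + 1) + 10 * x := by
  have h := Dw_pen (π0 := 2 * x + 4 - x ^ 2) (π1 := 0) (α := 2 * x) (B := x ^ 2) (C := 2 * x)
    (D := 4) (by nlinarith) (by norm_num) (by nlinarith) (by nlinarith) (by nlinarith)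
    (by norm_num) (by nlinarith) (by linarith) (by nlinarith) (by nlinarith) (by nlinarith)
    (by nlinarith) (by nlinarith) (tri_lam hx hx3 hx4) n
  have e1 : (4 : ℝ) - 0 + 2 * x = 2 * x + 4 := by ring
  have e2 : (4 : ℝ) - (2 * x + 4 - x ^ 2) + 2 * x = x ^ 2 := by ring
  rw [e1, e2] at h
  linarith

/-- The second step. -/
theorem Dw_step2 (n : ℕ) :
    Dw (x ^ 2 + 2 * x) (x ^ 2) (x ^ 2) n + Dw (x ^ 2) (x ^ 2) (x ^ 2) n ≤
      Dw (x ^ 2) (x ^ 2) (2 * x) (n + 1) + 5 * x ^ 2 := by
  have h := Dw_pen (π0 := 2 * x) (π1 := 0) (α := x ^ 2) (B := x ^ 2) (C := x ^ 2)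
    (D := 2 * x) (by nlinarith) (by norm_num) (by nlinarith) (by nlinarith) (by nlinarith)
    (by nlinarith) (by nlinarith) (by linarith) (by nlinarith) (by nlinarith) (by nlinarith)
    (by nlinarith) (by nlinarith) ⟨by nlinarith, by nlinarith, by nlinarith⟩ n
  have e1 : 2 * x - 0 + x ^ 2 = x ^ 2 + 2 * x := by ring
  have e2 : 2 * x - 2 * x + x ^ 2 = x ^ 2 := by ring
  rw [e1, e2] at h
  linarith


/-- The sum of the constants in the two steps. -/
theorem cw_steps : x ^ 2 - x * cw x (2 * x + 4) (x ^ 2) (2 * x) -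
    cw x (x ^ 2 + 2 * x) (x ^ 2) (x ^ 2) = x ^ 2 * cw x 1 1 1 := by
  have a1 := cw_T hx hx3 (x ^ 2) (2 * x) 4
  rw [cw_lam hx hx3 hx4] at a1
  have a2 := cw_T hx hx3 (x ^ 2) (x ^ 2) (2 * x)
  have b1 := cw_add x (2 * x + 4) (x ^ 2) (2 * x) (x ^ 2) (x ^ 2) (2 * x)
  have b2 := cw_add x (x ^ 2 + 2 * x) (x ^ 2) (x ^ 2) (x ^ 2) (x ^ 2) (x ^ 2)
  have c1 := cw_smul x 2 ((x ^ 2 + 2 * x + 4) / 2) (x ^ 2) (2 * x)
  have c2 := cw_smul x 2 ((x ^ 2 + x ^ 2 + 2 * x) / 2) (x ^ 2) (x ^ 2)
  have c3 := cw_smul x (x ^ 2) 1 1 1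
  have e1 : 2 * ((x ^ 2 + 2 * x + 4) / 2) = 2 * x + 4 + x ^ 2 := by ring
  have e2 : 2 * ((x ^ 2 + x ^ 2 + 2 * x) / 2) = x ^ 2 + 2 * x + x ^ 2 := by ring
  have e3 : 2 * x ^ 2 = x ^ 2 + x ^ 2 := by ring
  have e4 : 2 * (2 * x) = 2 * x + 2 * x := by ring
  rw [e1, e3, e4] at c1
  rw [e2, e3] at c2
  rw [mul_one] at c3
  linear_combination x * b1 - x * c1 - 2 * x * a1 + b2 - c2 - 2 * a2 + c3

/-- The upper bound for the weights `1, 1, 1`. -/
theorem Dw_one_upper {κ : ℝ}
    (hl : Tendsto (fun n => Dw (x ^ 2) (2 * x) 4 n / x ^ n) atTop (𝓝 κ))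
    (hκ : 0 ≤ κ) {ε : ℝ} (hε : 0 < ε) :
    ∀ᶠ n in atTop, Dw 1 1 1 n / x ^ n ≤ cw x 1 1 1 * κ + ε := by
  have hx0 : 0 < x := by linarith
  have hx1 : 1 < x := by linarith
  have t1 : Tri (2 * x + 4) (x ^ 2) (2 * x) := ⟨by nlinarith, by nlinarith, by nlinarith⟩
  have t2 : Tri (x ^ 2 + 2 * x) (x ^ 2) (x ^ 2) := ⟨by nlinarith, by nlinarith, by nlinarith⟩
  have l1 := (tendsto_add_atTop_nat 1).eventually
    (Dw_lower hx hx3 hl hκ t1 (show 0 < ε / 8 by positivity))
  have l2 := Dw_lower hx hx3 hl hκ t2 (show 0 < ε / 8 by positivity)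
  have l3 := ((tendsto_add_atTop_iff_nat 2).2 hl).eventually
    (gt_mem_nhds (show κ < κ + ε / 8 by linarith))
  have hxn : Tendsto (fun n : ℕ => x ^ n) atTop atTop := tendsto_pow_atTop_atTop_of_one_lt hx1
  have l4 := hxn.eventually_ge_atTop ((10 * x + 5 * x ^ 2) / (ε / 8))
  filter_upwards [l1, l2, l3, l4] with n a1 a2 a3 a4
  have hpn : 0 < x ^ n := by positivity
  rw [le_div_iff₀ (by positivity)] at a1 a2
  rw [div_lt_iff₀ (by positivity)] at a3
  rw [div_le_iff₀ (by positivity)] at a4 ⊢
  have s1 := Dw_step1 hx hx3 hx4 (n + 1)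
  have s2 := Dw_step2 hx hx3 hx4 n
  have s3 := good_Dw.scale (p := 1) (q := 1) (r := 1) (p' := x ^ 2) (q' := x ^ 2) (r' := x ^ 2)
    (k := x ^ 2) (by norm_num) (by norm_num) (by norm_num) (by positivity) (by linarith)
    (by linarith) (by linarith) n
  have s4 := cw_steps hx hx3 hx4
  rw [show x ^ (n + 1) = x * x ^ n by ring] at a1
  rw [show x ^ (n + 2) = x ^ 2 * x ^ n by ring] at a3
  have s5 : x ^ 2 * Dw 1 1 1 n ≤ (x ^ 2 * (κ + ε / 8) -
      x * (cw x (2 * x + 4) (x ^ 2) (2 * x) * κ - ε / 8) -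
      (cw x (x ^ 2 + 2 * x) (x ^ 2) (x ^ 2) * κ - ε / 8) + ε / 8) * x ^ n := by
    linarith
  have s6 : x ^ 2 * (κ + ε / 8) -
      x * (cw x (2 * x + 4) (x ^ 2) (2 * x) * κ - ε / 8) -
      (cw x (x ^ 2 + 2 * x) (x ^ 2) (x ^ 2) * κ - ε / 8) + ε / 8 =
      x ^ 2 * (cw x 1 1 1 * κ) + (x ^ 2 + x + 2) * (ε / 8) := by
    linear_combination κ * s4
  have s7 : (x ^ 2 + x + 2) * (ε / 8) ≤ x ^ 2 * ε := by
    have : x ^ 2 + x + 2 ≤ 8 * x ^ 2 := by nlinarith
    calc (x ^ 2 + x + 2) * (ε / 8) ≤ 8 * x ^ 2 * (ε / 8) :=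
          mul_le_mul_of_nonneg_right this (by positivity)
      _ = x ^ 2 * ε := by ring
  rw [s6] at s5
  have s8 : (x ^ 2 * (cw x 1 1 1 * κ) + (x ^ 2 + x + 2) * (ε / 8)) * x ^ n ≤
      (x ^ 2 * (cw x 1 1 1 * κ) + x ^ 2 * ε) * x ^ n :=
    mul_le_mul_of_nonneg_right (by linarith) hpn.le
  have s9 : x ^ 2 * Dw 1 1 1 n ≤ x ^ 2 * ((cw x 1 1 1 * κ + ε) * x ^ n) := by
    linarith
  exact le_of_mul_le_mul_left s9 (by positivity)

/-- The diameter divided by `x ^ n` converges. -/
theorem D_conv : ∃ κ : ℝ, 0 < κ ∧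
    Tendsto (fun n => Dw (x ^ 2) (2 * x) 4 n / x ^ n) atTop (𝓝 κ) ∧
    Tendsto (fun n => (D n : ℝ) / x ^ n) atTop (𝓝 (2 * (cw x 1 1 1 * κ))) := by
  have hx0 : 0 < x := by linarith
  have hx1 : 1 < x := by linarith
  obtain ⟨κ, hκ, hl, -⟩ := D_lim hx hx3 hx4
  refine ⟨κ, hκ, hl, ?_⟩
  have hone : Tendsto (fun n => Dw 1 1 1 n / x ^ n) atTop (𝓝 (cw x 1 1 1 * κ)) := by
    rw [Metric.tendsto_nhds]
    intro ε hε
    filter_upwards [Dw_lower hx hx3 hl hκ.le (p := 1) (q := 1) (r := 1)
      ⟨by norm_num, by norm_num, by norm_num⟩ (half_pos hε),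
      Dw_one_upper hx hx3 hx4 hl hκ.le (half_pos hε)] with n a1 a2
    rw [Real.dist_eq, abs_lt]
    constructor <;> linarith
  have hxn : Tendsto (fun n : ℕ => x ^ n) atTop atTop := tendsto_pow_atTop_atTop_of_one_lt hx1
  have hc : Tendsto (fun n => 2 * (Dw 1 1 1 n / x ^ n)) atTop (𝓝 (2 * (cw x 1 1 1 * κ))) :=
    hone.const_mul 2
  have h1 : Tendsto (fun n : ℕ => 1 / x ^ n) atTop (𝓝 0) := hxn.const_div_atTop 1
  have h2 : Tendsto (fun n : ℕ => 2 / x ^ n) atTop (𝓝 0) := hxn.const_div_atTop 2
  have hlo := hc.sub h1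
  have hup := hc.add h2
  rw [sub_zero] at hlo
  rw [add_zero] at hup
  refine tendsto_of_tendsto_of_tendsto_of_le_of_le hlo hup (fun n => ?_) fun n => ?_
  · have hpn : 0 < x ^ n := by positivity
    show 2 * (Dw 1 1 1 n / x ^ n) - 1 / x ^ n ≤ (D n : ℝ) / x ^ n
    rw [← mul_div_assoc, ← sub_div]
    exact div_le_div_of_nonneg_right (by linarith [(D_close n).1]) hpn.le
  · have hpn : 0 < x ^ n := by positivity
    show (D n : ℝ) / x ^ n ≤ 2 * (Dw 1 1 1 n / x ^ n) + 2 / x ^ n
    rw [← mul_div_assoc, ← add_div]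
    exact div_le_div_of_nonneg_right (by linarith [(D_close n).2]) hpn.le

end

end Pool.Agent.Lib.Pb99418A
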