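import Pool.Agent.Lib.Pb99418A.Norm

/-!
# Comparison with the word length

* `len_le`, `wlen_one_le`: twice the weighted length for the weights `1, 1, 1` is the word
  length up to `2`.
* `sharp`: a word of minimal length among the words for an element of `G` with at most a given
  weight contains no `z a d a d` with `z` in `{b, c, d}` (as `d a d = a d a d a`), so at most
  about half of its letters `b, c, d` are letters `d`.
* `D_le_two_avg`: the diameter is at most twice the average length.
-/

namespace Pool.Agent.Lib.Pb99418A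

open Pool.Agent.Lib.Pb99418 Pool.Agent.Lib.Pb99418U Gen

theorem length_P1' (zs : List V3) : (P1 zs).length = 2 * zs.length := by
  induction zs with
  | nil => rfl
  | cons z zs ih => simp [P1, ih]; ring

theorem wgt_one_P1 (zs : List V3) : wgt 1 1 1 (P1 zs) = zs.length := by
  induction zs with
  | nil => simp [P1]
  | cons z zs ih =>
    rw [wgt_P1_cons, ih]
    cases z <;> simp [w3] <;> ring

theorem length_oa (u : Bool) : (oa u).length = u.toNat := by cases u <;> rfl

theorem wgt_oa (p q r : ℝ) (u : Bool) : wgt p q r (oa u) = 0 := by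
  cases u <;> simp [oa, wgt_cons, wl]

theorem len_le_length {n : ℕ} {g : Gn n} {s : List Gen} (h : (elt s : Gn n) = g) :
    len n g ≤ s.length := Nat.sInf_le ⟨s, rfl, by rw [prod_gbar, h]⟩

theorem exists_len (n : ℕ) (g : Gn n) :
    ∃ s : List Gen, s.length = len n g ∧ (elt s : Gn n) = g := by
  have hne : {k | ∃ s : List Gen, s.length = k ∧ (s.map (gbar n)).prod = g}.Nonempty := by
    obtain ⟨s, hs⟩ := exists_rep n g
    exact ⟨_, s, rfl, by rw [prod_gbar, hs]⟩
  obtain ⟨s, hs, hs2⟩ := Nat.sInf_mem hne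
  exact ⟨s, hs, by rw [← prod_gbar, hs2]⟩

theorem len_le (n : ℕ) (g : Gn n) : (len n g : ℝ) ≤ 2 * wlen 1 1 1 n g + 2 := by
  have : ((len n g : ℝ) - 2) / 2 ≤ wlen 1 1 1 n g := by
    apply le_wlen
    rintro s rfl
    obtain ⟨u, e, zs, hrun, hw, -, -⟩ := normal_form (p := 1) (q := 1) (r := 1)
      (by norm_num) (by norm_num) (by norm_num) (by norm_num) (by norm_num) (by norm_num) s
    have h1 : (elt (oa u ++ (P1 zs ++ oa e)) : Gn n) = (elt s : Gn n) := by
      rw [elt_eq_iff]; intro w _; exact (hrun w).symm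
    have h2 := len_le_length h1
    rw [List.length_append, List.length_append, length_P1', length_oa, length_oa] at h2
    have h3 : u.toNat ≤ 1 := by cases u <;> simp
    have h4 : e.toNat ≤ 1 := by cases e <;> simp
    have h5 : len n (elt s : Gn n) ≤ 2 * zs.length + 2 := by omega
    have h6 : (len n (elt s : Gn n) : ℝ) ≤ 2 * (zs.length : ℝ) + 2 := by exact_mod_cast h5
    rw [wgt_one_P1] at hw
    linarith
  linarith

theorem wlen_one_le (n : ℕ) (g : Gn n) : 2 * wlen 1 1 1 n g ≤ len n g + 1 := by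
  obtain ⟨s, hs, rfl⟩ := exists_len n g
  obtain ⟨u, e, zs, hrun, hw, -, hl⟩ := normal_form (p := 1) (q := 1) (r := 1)
    (by norm_num) (by norm_num) (by norm_num) (by norm_num) (by norm_num) (by norm_num) s
  have h1 : (elt (oa u ++ (P1 zs ++ oa e)) : Gn n) = (elt s : Gn n) := by
    rw [elt_eq_iff]; intro w _; exact (hrun w).symm
  have h2 := wlen_le (p := 1) (q := 1) (r := 1) (by norm_num) (by norm_num) (by norm_num) h1
  rw [wgt_append, wgt_append, wgt_oa, wgt_oa, wgt_one_P1] at h2
  have h4 : e.toNat ≤ 1 := by cases e <;> simp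
  have h5 : 2 * zs.length ≤ len n (elt s : Gn n) + 1 := by omega
  have h6 : 2 * (zs.length : ℝ) ≤ (len n (elt s : Gn n) : ℝ) + 1 := by exact_mod_cast h5
  linarith

/-! ### Few letters `d` -/

theorem dad (w : List Bool) : run [d, a, d] w = run [a, d, a, d, a] w := by
  have h1 : ∀ w : List Bool, run [d, a, d, a, d, a, d, a] w = w := by
    intro w
    rcases w with _ | ⟨x, w⟩
    · simp [act_nil]
    · cases x <;> simp [act, act_act]
  have h2 := h1 (run [a, d, a, d, a] w)
  rw [← run_append] at h2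
  have h3 : run ([d, a, d, a, d, a, d, a] ++ [a, d, a, d, a]) w = run [d, a, d] w := by
    simp only [List.cons_append, List.nil_append, run_cons, run_nil, act_act]
  rw [h3] at h2
  exact h2

/-- Number of letters `d`. -/
def nd (zs : List V3) : ℕ := (zs.filter (fun z => z = V3.d)).length

/-- Number of letters `b, c`. -/
def nm (zs : List V3) : ℕ := (zs.filter (fun z => z ≠ V3.d)).length

theorem nd_cons (z : V3) (zs : List V3) : nd (z :: zs) = (if z = V3.d then 1 else 0) + nd zs := by
  by_cases h : z = V3.d <;> simp [nd, h]; omega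

theorem nm_cons (z : V3) (zs : List V3) : nm (z :: zs) = (if z = V3.d then 0 else 1) + nm zs := by
  by_cases h : z = V3.d <;> simp [nm, h]; omega

theorem nd_add_nm (zs : List V3) : nd zs + nm zs = zs.length := by
  induction zs with
  | nil => rfl
  | cons z zs ih =>
    rw [nd_cons, nm_cons, List.length_cons]
    split_ifs <;> omega

theorem nd_le_of_no_dd (zs : List V3) (h : ∀ l1 l2, zs ≠ l1 ++ V3.d :: V3.d :: l2) :
    nd zs ≤ nm zs + 1 ∧ (zs.head? ≠ some V3.d → nd zs ≤ nm zs) := by
  induction zs with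
  | nil => simp [nd]
  | cons z zs ih =>
    have h' : ∀ l1 l2, zs ≠ l1 ++ V3.d :: V3.d :: l2 := fun l1 l2 he =>
      h (z :: l1) l2 (by rw [he]; rfl)
    obtain ⟨ih1, ih2⟩ := ih h'
    rw [nd_cons, nm_cons]
    by_cases hz : z = V3.d
    · subst hz
      simp only [if_true]
      constructor
      · have h3 : zs.head? ≠ some V3.d := by
          intro h3
          cases zs with
          | nil => simp at h3
          | cons y zs =>
            simp only [List.head?_cons, Option.some.injEq] at h3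
            subst h3
            exact h [] zs rfl
        have := ih2 h3
        omega
      · intro h3; exact absurd rfl h3
    · simp only [if_neg hz]
      constructor
      · omega
      · intro _; omega

theorem nd_le_nm (zs : List V3) (h : ∀ l1 z l2, zs ≠ l1 ++ z :: V3.d :: V3.d :: l2) :
    nd zs ≤ nm zs + 2 := by
  cases zs with
  | nil => simp [nd]
  | cons z zs =>
    have h' : ∀ l1 l2, zs ≠ l1 ++ V3.d :: V3.d :: l2 := by
      intro l1 l2 he
      rcases List.eq_nil_or_concat l1 with rfl | ⟨l, y, rfl⟩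
      · exact h [] z l2 (by rw [he]; rfl)
      · exact h (z :: l) y l2 (by rw [he]; simp)
    have := (nd_le_of_no_dd zs h').1
    rw [nd_cons, nm_cons]
    split_ifs <;> omega

theorem length_ol_le (L : Option V3) : (ol L).length ≤ 1 := by cases L <;> simp [ol]

/-- A word with few letters `d`. -/
theorem sharp_word {p q r : ℝ} (hp : 0 ≤ p) (hq : 0 ≤ q) (hr : 0 ≤ r) (h1 : p ≤ q + r)
    (h2 : q ≤ p + r) (h3 : r ≤ p + q) (s : List Gen) :
    ∃ (u e : Bool) (zs : List V3), (∀ w, run s w = run (oa u ++ (P1 zs ++ oa e)) w) ∧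
      wgt p q r (P1 zs) ≤ wgt p q r s ∧ nd zs ≤ nm zs + 2 := by
  classical
  -- a word of minimal length
  have hex : ∃ m : ℕ, ∃ t : List Gen, t.length = m ∧ (∀ w, run t w = run s w) ∧
      wgt p q r t ≤ wgt p q r s := ⟨_, s, rfl, fun _ => rfl, le_refl _⟩
  obtain ⟨t, ht, htr, htw⟩ := Nat.find_spec hex
  have hmin : ∀ t' : List Gen, (∀ w, run t' w = run s w) → wgt p q r t' ≤ wgt p q r s →
      t.length ≤ t'.length := by
    intro t' h h'
    rw [ht]
    exact Nat.find_min' hex ⟨t', rfl, h, h'⟩
  obtain ⟨u, e, zs, hrun, hw, he, hl⟩ := normal_form hp hq hr h1 h2 h3 t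
  refine ⟨u, e, zs, fun w => by rw [← htr, hrun], hw.trans htw, ?_⟩
  apply nd_le_nm
  rintro l1 z l2 rfl
  -- the shorter word
  let t' : List Gen := oa u ++ (P1 l1 ++ ((ol (mulO (some z) V3.d) ++ [a, d]) ++ (P1 l2 ++ oa e)))
  have hsplit : P1 (l1 ++ z :: V3.d :: V3.d :: l2) =
      P1 l1 ++ ([z.i, a, d, a, d, a] ++ P1 l2) := by
    rw [P1_append]; rfl
  have hcore : ∀ w, run [z.i, a, d, a, d, a] w = run (ol (mulO (some z) V3.d) ++ [a, d]) w := by
    intro w
    have e1 : run [z.i, a, d, a, d, a] w = run [z.i, a] (run [d, a, d] (act a w)) := rfl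
    have e2 : run [a, d, a, d, a] (act a w) = act a (act d (act a (act d (act a (act a w))))) := rfl
    rw [e1, dad, e2, act_act]
    have e3 : run [z.i, a] (act a (act d (act a (act d w)))) =
        act z.i (act a (act a (act d (act a (act d w))))) := rfl
    rw [e3, act_act]
    exact run_ol (some z) V3.d [a, d] w
  have hr' : ∀ w, run t' w = run s w := by
    intro w
    rw [← htr, hrun, hsplit]
    simp only [t', List.append_assoc]
    rw [run_append, run_append, run_append (oa u), run_append (P1 l1)]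
    congr 2
    have := hcore (run (P1 l2 ++ oa e) w)
    rw [← run_append, ← run_append] at this
    simpa [List.append_assoc] using this.symm
  have hv : wgt p q r (ol (mulO (some z) V3.d)) ≤ w3 p q r z + r := by
    cases z <;> simp [mulO, ol, wgt_cons, V3.i, wl, w3] <;> linarith
  have hw' : wgt p q r t' ≤ wgt p q r s := by
    refine le_trans ?_ (hw.trans htw)
    rw [hsplit]
    simp only [t', wgt_append, wgt_oa, wgt_cons, wl_a, wgt_nil, wl_i]
    have : wl p q r d = r := rfl
    rw [this]
    linarith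
  have hlen := hmin t' hr' hw'
  have e1 := length_ol_le (mulO (some z) V3.d)
  have hu : u.toNat ≤ 1 := by cases u <;> simp
  have hee : e.toNat ≤ 1 := by cases e <;> simp
  simp only [t', List.length_append, length_oa, length_P1', List.length_cons,
    List.length_nil] at hlen hl
  omega

theorem wgt_P1_ge {x : ℝ} (hx : 2 ≤ x) (zs : List V3) :
    4 * (nd zs : ℝ) + 2 * x * nm zs ≤ wgt (x ^ 2) (2 * x) 4 (P1 zs) := by
  induction zs with
  | nil => simp [nd, nm, P1]
  | cons z zs ih =>
    rw [wgt_P1_cons, nd_cons, nm_cons]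
    push_cast
    cases z <;> simp [w3] <;> nlinarith

/-- The comparison of the weights `1, 1, 1` with the weights `x ^ 2, 2 x, 4`. -/
theorem sharp {x : ℝ} (hx : 2 ≤ x) (hx2 : x ^ 2 ≤ 2 * x + 4) (n : ℕ) (g : Gn n) :
    (x + 2) * wlen 1 1 1 n g ≤ wlen (x ^ 2) (2 * x) 4 n g + (2 * x - 4) := by
  have : (x + 2) * wlen 1 1 1 n g - (2 * x - 4) ≤ wlen (x ^ 2) (2 * x) 4 n g := by
    apply le_wlen
    rintro s rfl
    obtain ⟨u, e, zs, hrun, hw, hnd⟩ := sharp_word (p := x ^ 2) (q := 2 * x) (r := 4)
      (by positivity) (by positivity) (by norm_num) (by linarith) (by nlinarith) (by nlinarith) s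
    have h1 : (elt (oa u ++ (P1 zs ++ oa e)) : Gn n) = (elt s : Gn n) := by
      rw [elt_eq_iff]; intro w _; exact (hrun w).symm
    have h2 := wlen_le (p := 1) (q := 1) (r := 1) (by norm_num) (by norm_num) (by norm_num) h1
    rw [wgt_append, wgt_append, wgt_oa, wgt_oa, wgt_one_P1, ← nd_add_nm] at h2
    push_cast at h2
    have h3 := wgt_P1_ge hx zs
    have h4 : (nd zs : ℝ) ≤ nm zs + 2 := by exact_mod_cast hnd
    have h5 : (x + 2) * wlen 1 1 1 n (elt s : Gn n) ≤ (x + 2) * (nd zs + nm zs) :=
      mul_le_mul_of_nonneg_left (by linarith) (by linarith)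
    nlinarith
  linarith

/-! ### The average length -/

/-- The average length of the elements of `G_n`. -/
noncomputable def avg (n : ℕ) : ℝ := (∑ᶠ g : Gn n, (len n g : ℝ)) / Nat.card (Gn n)

theorem avg_eq (n : ℕ) : avg n = (∑ g : Gn n, (len n g : ℝ)) / Fintype.card (Gn n) := by
  rw [avg, finsum_eq_sum_of_fintype, Nat.card_eq_fintype_card]

theorem len_mul (n : ℕ) (g h : Gn n) : len n (g * h) ≤ len n g + len n h := by
  obtain ⟨s, hs, rfl⟩ := exists_len n g
  obtain ⟨t, ht, rfl⟩ := exists_len n h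
  rw [← hs, ← ht, ← List.length_append]
  exact len_le_length (elt_append n s t)

theorem avg_le_D (n : ℕ) : avg n ≤ D n := by
  rw [avg_eq, div_le_iff₀ (card_pos' n)]
  calc ∑ g : Gn n, (len n g : ℝ) ≤ ∑ _g : Gn n, (D n : ℝ) := by
        refine Finset.sum_le_sum fun g _ => ?_
        exact_mod_cast (D_isGreatest n).2 ⟨g, rfl⟩
    _ = D n * Fintype.card (Gn n) := by
        rw [Finset.sum_const, Finset.card_univ, nsmul_eq_mul]; ring

theorem D_le_two_avg (n : ℕ) : (D n : ℝ) ≤ 2 * avg n := by
  obtain ⟨g, hg⟩ := (D_isGreatest n).1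
  have h1 : ∀ h : Gn n, (D n : ℝ) ≤ len n h + len n (h⁻¹ * g) := by
    intro h
    have := len_mul n h (h⁻¹ * g)
    rw [mul_inv_cancel_left, hg] at this
    exact_mod_cast this
  have h2 := Finset.sum_le_sum fun h (_ : h ∈ (Finset.univ : Finset (Gn n))) => h1 h
  rw [Finset.sum_const, Finset.card_univ, nsmul_eq_mul, Finset.sum_add_distrib] at h2
  have h3 : ∑ h : Gn n, (len n (h⁻¹ * g) : ℝ) = ∑ h : Gn n, (len n h : ℝ) := by
    rw [← Equiv.sum_comp ((Equiv.inv (Gn n)).trans (Equiv.mulRight g)) fun h => (len n h : ℝ)]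
    rfl
  rw [h3] at h2
  rw [avg_eq, ← mul_div_assoc, le_div_iff₀ (card_pos' n)]
  linarith

theorem avg_close (n : ℕ) : 2 * Mw 1 1 1 n - 1 ≤ avg n ∧ avg n ≤ 2 * Mw 1 1 1 n + 2 := by
  have hc := card_pos' n
  have e1 : ∑ g : Gn n, wlen 1 1 1 n g = (Fintype.card (Gn n) : ℝ) * Mw 1 1 1 n := by
    unfold Mw; field_simp
  rw [avg_eq]
  constructor
  · rw [le_div_iff₀ hc]
    have h := Finset.sum_le_sum fun g (_ : g ∈ (Finset.univ : Finset (Gn n))) => wlen_one_le n g
    rw [← Finset.mul_sum, Finset.sum_add_distrib, Finset.sum_const, Finset.card_univ,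
      nsmul_eq_mul, e1] at h
    linarith
  · rw [div_le_iff₀ hc]
    have h := Finset.sum_le_sum fun g (_ : g ∈ (Finset.univ : Finset (Gn n))) => len_le n g
    rw [Finset.sum_add_distrib, Finset.sum_const, Finset.card_univ,
      nsmul_eq_mul, ← Finset.mul_sum, e1] at h
    linarith

theorem D_close (n : ℕ) : 2 * Dw 1 1 1 n - 1 ≤ D n ∧ (D n : ℝ) ≤ 2 * Dw 1 1 1 n + 2 := by
  constructor
  · obtain ⟨g, hg⟩ := exists_Dw 1 1 1 n
    have h1 := wlen_one_le n g
    have h2 : (len n g : ℝ) ≤ D n := by exact_mod_cast (D_isGreatest n).2 ⟨g, rfl⟩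
    rw [hg] at h1
    linarith
  · obtain ⟨g, hg⟩ := (D_isGreatest n).1
    have h1 := len_le n g
    have h2 := wlen_le_Dw 1 1 1 n g
    rw [hg] at h1
    linarith

/-- Upper bound of the weighted lengths by the word length. -/
theorem wlen_le_len {x : ℝ} (hx : 2 ≤ x) (n : ℕ) (g : Gn n) :
    wlen (x ^ 2) (2 * x) 4 n g ≤ x ^ 2 * len n g := by
  obtain ⟨s, hs, rfl⟩ := exists_len n g
  refine (wlen_le (by positivity) (by positivity) (by norm_num) rfl).trans ?_
  rw [← hs]
  clear hs
  induction s with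
  | nil => simp
  | cons g s ih =>
    rw [wgt_cons]
    simp only [List.length_cons]
    push_cast
    have : wl (x ^ 2) (2 * x) 4 g ≤ x ^ 2 := by cases g <;> simp [wl] <;> nlinarith
    nlinarith

end Pool.Agent.Lib.Pb99418A
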