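import Pool.Agent.Lib.Pb99418A.Final

/-!
# Average length, typical elements, diameter
-/

namespace Pool.Agent.Lib.Pb99418A

open Pool.Agent.Lib.Pb99418 Pool.Agent.Lib.Pb99418U
open Filter Topology

/-! ### Shortest words -/

theorem wgt_count (p q r : ℝ) (s : List Gen) :
    wgt p q r s = p * s.count Gen.b + q * s.count Gen.c + r * s.count Gen.d := by
  induction s with
  | nil => simp
  | cons g s ih =>
    rw [wgt_cons, ih]
    cases g <;> simp [wl] <;> ring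

/-- A shortest word is alternating. -/
theorem short_wgt {n : ℕ} {s : List Gen} (hs : s.length = len n (elt s : Gn n)) :
    2 * wgt 1 1 1 s ≤ len n (elt s : Gn n) + 1 := by
  rw [← hs]
  rcases alt_or_red s with ⟨u, v, y, z, rfl, hyz⟩ | ⟨e, zs, f, rfl⟩
  · exfalso
    obtain ⟨t, ht, hrun, -⟩ := reduce_pair y z hyz
    have h1 : (elt (u ++ (t ++ v)) : Gn n) = (elt (u ++ y :: z :: v) : Gn n) := by
      rw [elt_eq_iff]
      intro w _
      rw [run_append, run_append, run_append, hrun]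
      rfl
    have h2 := len_le_length h1
    rw [← hs] at h2
    simp only [List.length_append, List.length_cons] at h2
    omega
  · have h1 : wgt 1 1 1 (oa e ++ P1 zs ++ ol f) = zs.length + (ol f).length := by
      rw [wgt_append, wgt_append, wgt_oa, wgt_one_P1]
      cases f with
      | none => simp [ol]
      | some z => cases z <;> simp [ol, wgt_cons, V3.i, wl]
    rw [h1]
    have h2 := length_ol_le f
    have h3 : (oa e ++ P1 zs ++ ol f).length = e.toNat + 2 * zs.length + (ol f).length := by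
      rw [List.length_append, List.length_append, length_oa, length_P1']
    have h4 : 2 * (zs.length + (ol f).length) ≤ (oa e ++ P1 zs ++ ol f).length + 1 := by omega
    have h5 : (2 : ℝ) * ((zs.length : ℝ) + ((ol f).length : ℝ)) ≤
        ((oa e ++ P1 zs ++ ol f).length : ℝ) + 1 := by exact_mod_cast h4
    exact h5

theorem count_bounds {n : ℕ} {s : List Gen} (hs : s.length = len n (elt s : Gn n)) :
    (wlen 2 1 1 n (elt s : Gn n) - wlen 1 1 1 n (elt s : Gn n) - 3 / 2 ≤ s.count Gen.b ∧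
      (s.count Gen.b : ℝ) ≤ wlen 1 1 1 n (elt s : Gn n) - wlen 0 1 1 n (elt s : Gn n) + 3 / 2) ∧
    (wlen 1 2 1 n (elt s : Gn n) - wlen 1 1 1 n (elt s : Gn n) - 3 / 2 ≤ s.count Gen.c ∧
      (s.count Gen.c : ℝ) ≤ wlen 1 1 1 n (elt s : Gn n) - wlen 1 0 1 n (elt s : Gn n) + 3 / 2) ∧
    (wlen 1 1 2 n (elt s : Gn n) - wlen 1 1 1 n (elt s : Gn n) - 3 / 2 ≤ s.count Gen.d ∧
      (s.count Gen.d : ℝ) ≤ wlen 1 1 1 n (elt s : Gn n) - wlen 1 1 0 n (elt s : Gn n) + 3 / 2) := by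
  have h1 := short_wgt hs
  have h2 := len_le n (elt s : Gn n)
  have a1 := wlen_le (n := n) (p := 2) (q := 1) (r := 1) (by norm_num) (by norm_num)
    (by norm_num) (rfl : (elt s : Gn n) = (elt s : Gn n))
  have a2 := wlen_le (n := n) (p := 0) (q := 1) (r := 1) (by norm_num) (by norm_num)
    (by norm_num) (rfl : (elt s : Gn n) = (elt s : Gn n))
  have a3 := wlen_le (n := n) (p := 1) (q := 2) (r := 1) (by norm_num) (by norm_num)
    (by norm_num) (rfl : (elt s : Gn n) = (elt s : Gn n))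
  have a4 := wlen_le (n := n) (p := 1) (q := 0) (r := 1) (by norm_num) (by norm_num)
    (by norm_num) (rfl : (elt s : Gn n) = (elt s : Gn n))
  have a5 := wlen_le (n := n) (p := 1) (q := 1) (r := 2) (by norm_num) (by norm_num)
    (by norm_num) (rfl : (elt s : Gn n) = (elt s : Gn n))
  have a6 := wlen_le (n := n) (p := 1) (q := 1) (r := 0) (by norm_num) (by norm_num)
    (by norm_num) (rfl : (elt s : Gn n) = (elt s : Gn n))
  rw [wgt_count] at h1 a1 a2 a3 a4 a5 a6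
  refine ⟨⟨?_, ?_⟩, ⟨?_, ?_⟩, ?_, ?_⟩ <;> linarith

/-- The element `g` of `G_n` is typical: every shortest word for `g` has about `β x ^ n`,
`β (x - 1) / 2 x ^ n`, `β / x x ^ n` letters `b, c, d`, and the length of `g` is about
`β (x + 1 + 2 / x) x ^ n`. -/
def Typical (x β ε : ℝ) (n : ℕ) (g : Gn n) : Prop :=
  |(len n g : ℝ) - β * (x + 1 + 2 / x) * x ^ n| ≤ ε * x ^ n ∧
  ∀ s : List Gen, s.length = len n g → (s.map (gbar n)).prod = g →
    |(s.count Gen.b : ℝ) - β * x ^ n| ≤ ε * x ^ n ∧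
    |(s.count Gen.c : ℝ) - β * ((x - 1) / 2) * x ^ n| ≤ ε * x ^ n ∧
    |(s.count Gen.d : ℝ) - β * (1 / x) * x ^ n| ≤ ε * x ^ n

theorem cw_one {x : ℝ} : cw x 1 1 1 = cw x 1 0 0 + cw x 0 1 0 + cw x 0 0 1 := by
  unfold cw; ring

section

variable {x : ℝ} (hx : 2.46 ≤ x) (hx3 : x ^ 3 = x ^ 2 + 2 * x + 4) (hx4 : x ≤ 5 / 2)

include hx hx3 hx4

variable {L C : ℝ}

theorem avg_lim (hL : Tendsto (fun n => Mw (x ^ 2) (2 * x) 4 n / x ^ n) atTop (𝓝 L))
    (hL0 : 0 ≤ L) : Tendsto (fun n => avg n / x ^ n) atTop (𝓝 (2 * (cw x 1 1 1 * L))) := by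
  have hx0 : 0 < x := by linarith
  have hx1 : 1 < x := by linarith
  have hM1 := mean_w hx hx3 hx4 hL hL0 (p := 1) (q := 1) (r := 1)
    ⟨by norm_num, by norm_num, by norm_num⟩
  have t1 : Tendsto (fun n : ℕ => 2 * (Mw 1 1 1 n / x ^ n) - 1 / x ^ n) atTop
      (𝓝 (2 * (cw x 1 1 1 * L) - 0)) :=
    (hM1.const_mul 2).sub ((tendsto_pow_atTop_atTop_of_one_lt hx1).const_div_atTop 1)
  have t2 : Tendsto (fun n : ℕ => 2 * (Mw 1 1 1 n / x ^ n) + 2 / x ^ n) atTop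
      (𝓝 (2 * (cw x 1 1 1 * L) + 0)) :=
    (hM1.const_mul 2).add ((tendsto_pow_atTop_atTop_of_one_lt hx1).const_div_atTop 2)
  rw [sub_zero] at t1
  rw [add_zero] at t2
  refine tendsto_of_tendsto_of_tendsto_of_le_of_le t1 t2 (fun n => ?_) fun n => ?_
  · have hp : 0 < x ^ n := by positivity
    have := div_le_div_of_nonneg_right (avg_close n).1 hp.le
    show 2 * (Mw 1 1 1 n / x ^ n) - 1 / x ^ n ≤ avg n / x ^ n
    rw [← mul_div_assoc, ← sub_div]
    exact this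
  · have hp : 0 < x ^ n := by positivity
    have := div_le_div_of_nonneg_right (avg_close n).2 hp.le
    show avg n / x ^ n ≤ 2 * (Mw 1 1 1 n / x ^ n) + 2 / x ^ n
    rw [← mul_div_assoc, ← add_div]
    exact this

/-- All but a small proportion of the elements are typical. -/
theorem typical (hL : Tendsto (fun n => Mw (x ^ 2) (2 * x) 4 n / x ^ n) atTop (𝓝 L))
    (hL0 : 0 ≤ L) (hC0 : 0 ≤ C)
    (hC : ∀ (n : ℕ) (g : Gn n), wlen (x ^ 2) (2 * x) 4 n g ≤ C * x ^ n)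
    {ε : ℝ} (hε : 0 < ε) :
    Tendsto (fun n => ({g : Gn n | ¬ Typical x (L / (x ^ 2 + 2 + 8 / x)) ε n g}.ncard : ℝ) /
      Nat.card (Gn n)) atTop (𝓝 0) := by
  have hx0 : 0 < x := by linarith
  have hx1 : 1 < x := by linarith
  rw [Metric.tendsto_atTop]
  intro η hη
  let δ : ℝ := ε / 4
  have hδ : 0 < δ := by positivity
  have hη8 : 0 < η / 8 := by positivity
  have T := fun {p q r : ℝ} (h : Tri p q r) =>
    typical_w hx hx3 hx4 hL hL0 hC0 hC h hδ hη8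
  have t0 := T (p := 1) (q := 1) (r := 1) ⟨by norm_num, by norm_num, by norm_num⟩
  have t1 := T (p := 2) (q := 1) (r := 1) ⟨by norm_num, by norm_num, by norm_num⟩
  have t2 := T (p := 0) (q := 1) (r := 1) ⟨by norm_num, by norm_num, by norm_num⟩
  have t3 := T (p := 1) (q := 2) (r := 1) ⟨by norm_num, by norm_num, by norm_num⟩
  have t4 := T (p := 1) (q := 0) (r := 1) ⟨by norm_num, by norm_num, by norm_num⟩
  have t5 := T (p := 1) (q := 1) (r := 2) ⟨by norm_num, by norm_num, by norm_num⟩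
  have t6 := T (p := 1) (q := 1) (r := 0) ⟨by norm_num, by norm_num, by norm_num⟩
  have hbig := (tendsto_pow_atTop_atTop_of_one_lt hx1).eventually_ge_atTop (2 / δ)
  obtain ⟨N, hN⟩ := eventually_atTop.1
    (((((((t0.and t1).and t2).and t3).and t4).and t5).and t6).and hbig)
  refine ⟨N, fun n hn => ?_⟩
  obtain ⟨⟨⟨⟨⟨⟨⟨b0, b1⟩, b2⟩, b3⟩, b4⟩, b5⟩, b6⟩, hb⟩ := hN n hn
  have hp : 0 < x ^ n := by positivity
  have hcard : (0 : ℝ) < Nat.card (Gn n) := by
    rw [Nat.card_eq_fintype_card]; exact card_pos' n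
  rw [div_le_iff₀ hδ] at hb
  set Bad : ℝ → ℝ → ℝ → Set (Gn n) := fun p q r =>
    {g : Gn n | δ * x ^ n < |wlen p q r n g - cw x p q r * L * x ^ n|} with hBad
  have hsub : {g : Gn n | ¬ Typical x (L / (x ^ 2 + 2 + 8 / x)) ε n g} ⊆
      Bad 1 1 1 ∪ Bad 2 1 1 ∪ Bad 0 1 1 ∪ Bad 1 2 1 ∪ Bad 1 0 1 ∪ Bad 1 1 2 ∪ Bad 1 1 0 := by
    intro g hg
    by_contra hno
    simp only [hBad, Set.mem_union, Set.mem_ofPred_eq, not_or, not_lt] at hno
    obtain ⟨⟨⟨⟨⟨⟨c0, c1⟩, c2⟩, c3⟩, c4⟩, c5⟩, c6⟩ := hno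
    apply hg
    have eb : cw x 1 0 0 * L = L / (x ^ 2 + 2 + 8 / x) := by unfold cw; ring
    have ec : cw x 0 1 0 * L = L / (x ^ 2 + 2 + 8 / x) * ((x - 1) / 2) := by unfold cw; ring
    have ed : cw x 0 0 1 * L = L / (x ^ 2 + 2 + 8 / x) * (1 / x) := by unfold cw; ring
    have em : L / (x ^ 2 + 2 + 8 / x) * (x + 1 + 2 / x) = 2 * (cw x 1 1 1 * L) := by
      unfold cw; ring
    have l1 : cw x 2 1 1 * L * x ^ n = cw x 1 1 1 * L * x ^ n + cw x 1 0 0 * L * x ^ n := by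
      unfold cw; ring
    have l2 : cw x 0 1 1 * L * x ^ n = cw x 1 1 1 * L * x ^ n - cw x 1 0 0 * L * x ^ n := by
      unfold cw; ring
    have l3 : cw x 1 2 1 * L * x ^ n = cw x 1 1 1 * L * x ^ n + cw x 0 1 0 * L * x ^ n := by
      unfold cw; ring
    have l4 : cw x 1 0 1 * L * x ^ n = cw x 1 1 1 * L * x ^ n - cw x 0 1 0 * L * x ^ n := by
      unfold cw; ring
    have l5 : cw x 1 1 2 * L * x ^ n = cw x 1 1 1 * L * x ^ n + cw x 0 0 1 * L * x ^ n := by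
      unfold cw; ring
    have l6 : cw x 1 1 0 * L * x ^ n = cw x 1 1 1 * L * x ^ n - cw x 0 0 1 * L * x ^ n := by
      unfold cw; ring
    rw [abs_le] at c0 c1 c2 c3 c4 c5 c6
    have hεδ : ε * x ^ n = 4 * (δ * x ^ n) := by show _ = 4 * (ε / 4 * x ^ n); ring
    refine ⟨?_, fun s hs hsg => ?_⟩
    · have h1 := len_le n g
      have h2 := wlen_one_le n g
      rw [em, abs_le]
      constructor <;> linarith
    · rw [prod_gbar] at hsg
      subst hsg
      obtain ⟨⟨d1, d2⟩, ⟨d3, d4⟩, d5, d6⟩ := count_bounds hs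
      rw [← ec, ← ed, ← eb]
      refine ⟨?_, ?_, ?_⟩ <;> rw [abs_le] <;> constructor <;> linarith
  have hu := Set.ncard_le_ncard hsub (Set.toFinite _)
  have u1 := Set.ncard_union_le (Bad 1 1 1 ∪ Bad 2 1 1 ∪ Bad 0 1 1 ∪ Bad 1 2 1 ∪ Bad 1 0 1 ∪
    Bad 1 1 2) (Bad 1 1 0)
  have u2 := Set.ncard_union_le (Bad 1 1 1 ∪ Bad 2 1 1 ∪ Bad 0 1 1 ∪ Bad 1 2 1 ∪ Bad 1 0 1)
    (Bad 1 1 2)
  have u3 := Set.ncard_union_le (Bad 1 1 1 ∪ Bad 2 1 1 ∪ Bad 0 1 1 ∪ Bad 1 2 1) (Bad 1 0 1)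
  have u4 := Set.ncard_union_le (Bad 1 1 1 ∪ Bad 2 1 1 ∪ Bad 0 1 1) (Bad 1 2 1)
  have u5 := Set.ncard_union_le (Bad 1 1 1 ∪ Bad 2 1 1) (Bad 0 1 1)
  have u6 := Set.ncard_union_le (Bad 1 1 1) (Bad 2 1 1)
  have hall : ({g : Gn n | ¬ Typical x (L / (x ^ 2 + 2 + 8 / x)) ε n g}.ncard : ℝ) ≤
      (Bad 1 1 1).ncard + (Bad 2 1 1).ncard + (Bad 0 1 1).ncard + (Bad 1 2 1).ncard +
      (Bad 1 0 1).ncard + (Bad 1 1 2).ncard + (Bad 1 1 0).ncard := by
    exact_mod_cast (by omega : ({g : Gn n | ¬ Typical x (L / (x ^ 2 + 2 + 8 / x)) ε n g}.ncard) ≤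
      (Bad 1 1 1).ncard + (Bad 2 1 1).ncard + (Bad 0 1 1).ncard + (Bad 1 2 1).ncard +
      (Bad 1 0 1).ncard + (Bad 1 1 2).ncard + (Bad 1 1 0).ncard)
  rw [Real.dist_eq, sub_zero, abs_of_nonneg (by positivity), div_lt_iff₀ hcard]
  nlinarith

/-- The weighted diameter and the diameter. -/
theorem D_lim :
    ∃ κ : ℝ, 0 < κ ∧ Tendsto (fun n => Dw (x ^ 2) (2 * x) 4 n / x ^ n) atTop (𝓝 κ) ∧
      (∀ᶠ n in atTop, 0.3775 * κ * x ^ n ≤ D n ∧ (D n : ℝ) ≤ 0.4478 * κ * x ^ n) := by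
  have hx0 : 0 < x := by linarith
  have hx1 : 1 < x := by linarith
  obtain ⟨C, hC, hup⟩ := D_up x hx0 hx3
  obtain ⟨c, hc, hlow⟩ := D_low x hx0 hx3
  obtain ⟨κ, C', hκ, hκ'⟩ := good_Dw.limit (x := x) (by linarith) hx3 hx4 (C := x ^ 2 * C)
    (fun n => by
      refine (Dw_le_D (by linarith) n).trans ?_
      rw [mul_assoc]
      exact mul_le_mul_of_nonneg_left (hup n) (by positivity))
  have hκ0 : 0 ≤ κ := by
    refine ge_of_tendsto' hκ fun n => ?_
    refine div_nonneg ?_ (by positivity)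
    obtain ⟨g, hg⟩ := exists_Dw (x ^ 2) (2 * x) 4 n
    rw [← hg]
    exact wlen_nonneg (by positivity) (by positivity) (by norm_num)
  -- upper bound
  have hupper : ∀ n, (D n : ℝ) ≤ 2 / (x + 2) * (κ * x ^ n + C' + (2 * x - 4)) + 2 := by
    intro n
    refine (D_close n).2.trans ?_
    obtain ⟨g, hg⟩ := exists_Dw 1 1 1 n
    have h1 := sharp (x := x) (by linarith) (by nlinarith) n g
    have h2 := wlen_le_Dw (x ^ 2) (2 * x) 4 n g
    have h3 := hκ' n
    rw [hg] at h1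
    have h4 : Dw 1 1 1 n ≤ (κ * x ^ n + C' + (2 * x - 4)) / (x + 2) := by
      rw [le_div_iff₀ (by linarith)]
      linarith
    have h5 : 2 / (x + 2) * (κ * x ^ n + C' + (2 * x - 4)) =
        2 * ((κ * x ^ n + C' + (2 * x - 4)) / (x + 2)) := by ring
    rw [h5]
    linarith
  have hpos : 0 < κ := by
    rcases hκ0.lt_or_eq with h | h
    · exact h
    · exfalso
      rw [← h] at hupper
      simp only [zero_mul, zero_add] at hupper
      have h1 : Tendsto (fun n : ℕ => c * x ^ n) atTop atTop :=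
        (tendsto_pow_atTop_atTop_of_one_lt hx1).const_mul_atTop hc
      obtain ⟨N, hN⟩ := eventually_atTop.1 (h1.eventually_gt_atTop
        (2 / (x + 2) * (C' + (2 * x - 4)) + 2))
      have h2 := hN (N + 1) (by omega)
      have h3 := hlow (N + 1) (by omega)
      have h4 := hupper (N + 1)
      linarith
  refine ⟨κ, hpos, hκ, ?_⟩
  have hxl := root_lower hx0 hx3
  have hcb : 0.3775 < 2 * cw x 1 1 1 := by
    unfold cw
    rw [← mul_div_assoc, lt_div_iff₀ (by positivity)]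
    have e : 2 * (1 + (x - 1) / 2 * 1 + 1 / x) * x = x ^ 2 + x + 2 := by field_simp; ring
    have e' : 0.3775 * (x ^ 2 + 2 + 8 / x) * x = 0.3775 * (x ^ 3 + 2 * x + 8) := by
      field_simp
    have h : 0.3775 * (x ^ 2 + 2 + 8 / x) * x < 2 * (1 + (x - 1) / 2 * 1 + 1 / x) * x := by
      rw [e, e', hx3]
      nlinarith
    exact lt_of_mul_lt_mul_right h hx0.le
  -- lower bound
  have hε : 0 < (2 * cw x 1 1 1 - 0.3775) * κ / 4 := by
    have : 0 < 2 * cw x 1 1 1 - 0.3775 := by linarith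
    positivity
  have l1 := good_Dw.lower hx1 (rec_sq x (1 / 4) (1 / (2 * x)) (1 / x ^ 2))
    (cone_w hx hx3 (p := 1) (q := 1) (r := 1) ⟨by norm_num, by norm_num, by norm_num⟩)
    (lim_w hx hx3 1 1 1) hκ hκ0 hε
  have hxn : Tendsto (fun n : ℕ => x ^ n) atTop atTop := tendsto_pow_atTop_atTop_of_one_lt hx1
  have l2 := hxn.eventually_ge_atTop (1 / ((2 * cw x 1 1 1 - 0.3775) * κ / 4))
  have hδ : 0 < (0.4478 - 2 / (x + 2)) * κ := by
    have : 2 / (x + 2) < 0.4478 := by rw [div_lt_iff₀ (by linarith)]; linarith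
    have : 0 < 0.4478 - 2 / (x + 2) := by linarith
    positivity
  have l3 := hxn.eventually_ge_atTop
    ((2 / (x + 2) * (C' + (2 * x - 4)) + 2) / ((0.4478 - 2 / (x + 2)) * κ))
  filter_upwards [l1, l2, l3] with n a1 a2 a3
  have e1 : x ^ 2 * sq x (1 / 4) (1 / (2 * x)) (1 / x ^ 2) 2 = 1 := by
    show x ^ 2 * (1 / x ^ 2) = 1; field_simp
  have e2 : 2 * x * sq x (1 / 4) (1 / (2 * x)) (1 / x ^ 2) 1 = 1 := by
    show 2 * x * (1 / (2 * x)) = 1; field_simp
  have e3 : 4 * sq x (1 / 4) (1 / (2 * x)) (1 / x ^ 2) 0 = 1 := by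
    show (4 : ℝ) * (1 / 4) = 1; norm_num
  rw [e1, e2, e3] at a1
  have hp : 0 < x ^ n := by positivity
  constructor
  · rw [le_div_iff₀ hp] at a1
    rw [div_le_iff₀ hε] at a2
    have h1 := (D_close n).1
    nlinarith
  · rw [div_le_iff₀ hδ] at a3
    have h1 := hupper n
    have h2 : 2 / (x + 2) * (κ * x ^ n + C' + (2 * x - 4)) + 2 =
        2 / (x + 2) * κ * x ^ n + (2 / (x + 2) * (C' + (2 * x - 4)) + 2) := by ring
    rw [h2] at h1
    nlinarith

end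

end Pool.Agent.Lib.Pb99418A
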